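import Mathlib

set_option autoImplicit false

namespace Pool.Agent.Y22.RN

open scoped Topology NNReal
open Filter

noncomputable section

variable {𝕜 : Type*} [RCLike 𝕜] {X : Type*} [NormedAddCommGroup X] [NormedSpace 𝕜 X]

/-- A unit vector `u` with a norming functional `φ`, a bounded biorthogonal system `e, f` in the
kernel of `φ` with functionals vanishing at `u`, and a small parameter `t`. -/
structure Sys (𝕜 : Type*) [RCLike 𝕜] (X : Type*) [NormedAddCommGroup X] [NormedSpace 𝕜 X] where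
  u : X
  φ : X →ₗ[𝕜] 𝕜
  e : ℕ → X
  f : ℕ → X →ₗ[𝕜] 𝕜
  t : ℝ
  ht : 0 < t
  ht' : t ≤ 1 / 48
  nu : ‖u‖ = 1
  nφ : ∀ y, ‖φ y‖ ≤ ‖y‖
  φu : φ u = 1
  ne : ∀ j, ‖e j‖ = 1
  φe : ∀ j, φ (e j) = 0
  nf : ∀ j y, ‖f j y‖ ≤ 6 * ‖y‖
  fu : ∀ j, f j u = 0
  ortho : ∀ i j, f i (e j) = if i = j then 1 else 0

namespace Sys

variable (B : Sys 𝕜 X)

lemma norm_half : ‖(1 / 2 : 𝕜)‖ = 1 / 2 := by
  rw [norm_div, norm_one]; simp

lemma norm_t : ‖((B.t : ℝ) : 𝕜)‖ = B.t := by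
  rw [RCLike.norm_ofReal, abs_of_pos B.ht]

/-- generators -/
def x (j : ℕ) : X := B.u + ((B.t : ℝ) : 𝕜) • B.e j

/-- direction of the facet centres -/
def a (k : ℕ) : X := B.e (k + 1) - (1 / 2 : 𝕜) • B.e k

/-- facet centres -/
def U (k : ℕ) : X := B.u + ((B.t : ℝ) : 𝕜) • B.a k

/-- direction of the facet functionals -/
def b (k : ℕ) : X →ₗ[𝕜] 𝕜 := B.f (k + 2) + B.f (k + 1)

/-- direction of the exposing functionals -/
def g (k : ℕ) : X →ₗ[𝕜] 𝕜 := (2 : 𝕜) • B.f (k + 3) + B.f (k + 2) - B.f (k + 1)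

/-- facet functionals -/
def Φ (k : ℕ) : X →ₗ[𝕜] 𝕜 := (((1 + B.t ^ 2)⁻¹ : ℝ) : 𝕜) • (B.φ + ((B.t : ℝ) : 𝕜) • B.b k)

/-- exposing functionals -/
def V (k : ℕ) : X →ₗ[𝕜] 𝕜 := (((1 + 2 * B.t ^ 2)⁻¹ : ℝ) : 𝕜) • (B.φ + ((B.t : ℝ) : 𝕜) • B.g k)

lemma φa (k : ℕ) : B.φ (B.a k) = 0 := by
  rw [a, map_sub, map_smul, B.φe, B.φe]; simp

lemma fa (i k : ℕ) : B.f i (B.a k) = (if i = k + 1 then 1 else 0) - (1 / 2) * (if i = k then 1 else 0) := by
  rw [a, map_sub, map_smul, B.ortho, B.ortho, smul_eq_mul]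

lemma bu (k : ℕ) : B.b k B.u = 0 := by
  rw [b, LinearMap.add_apply, B.fu, B.fu, add_zero]

lemma gu (k : ℕ) : B.g k B.u = 0 := by
  rw [g, LinearMap.sub_apply, LinearMap.add_apply, LinearMap.smul_apply, B.fu, B.fu, B.fu]; simp

lemma Φ_at (k : ℕ) (w : X) (hw : B.φ w = 0) (β : ℝ) (hβ : B.b k w = (β : 𝕜)) :
    B.Φ k (B.u + ((B.t : ℝ) : 𝕜) • w) = (((1 + B.t ^ 2 * β) / (1 + B.t ^ 2) : ℝ) : 𝕜) := by
  rw [Φ, LinearMap.smul_apply, LinearMap.add_apply, LinearMap.smul_apply, map_add, map_add,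
    map_smul, map_smul, hw, hβ, B.φu, B.bu]
  simp only [smul_eq_mul]
  push_cast
  ring

lemma V_at (k : ℕ) (w : X) (hw : B.φ w = 0) (β : ℝ) (hβ : B.g k w = (β : 𝕜)) :
    B.V k (B.u + ((B.t : ℝ) : 𝕜) • w) = (((1 + B.t ^ 2 * β) / (1 + 2 * B.t ^ 2) : ℝ) : 𝕜) := by
  rw [V, LinearMap.smul_apply, LinearMap.add_apply, LinearMap.smul_apply, map_add, map_add,
    map_smul, map_smul, hw, hβ, B.φu, B.gu]
  simp only [smul_eq_mul]
  push_cast
  ring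

lemma b_e (k j : ℕ) : ∃ β : ℝ, B.b k (B.e j) = (β : 𝕜) ∧ |β| ≤ 1 := by
  rw [b, LinearMap.add_apply, B.ortho, B.ortho]
  by_cases h1 : k + 2 = j
  · refine ⟨1, ?_, by simp⟩
    rw [if_pos h1, if_neg (by omega : ¬ (k + 1 = j))]; simp
  · by_cases h2 : k + 1 = j
    · refine ⟨1, ?_, by simp⟩
      rw [if_neg h1, if_pos h2]; simp
    · refine ⟨0, ?_, by simp⟩
      rw [if_neg h1, if_neg h2]; simp

lemma b_a_self (k : ℕ) : B.b k (B.a k) = ((1 : ℝ) : 𝕜) := by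
  rw [b, LinearMap.add_apply, B.fa, B.fa]
  simp

lemma b_a (k l : ℕ) (h : l ≠ k) : ∃ β : ℝ, B.b k (B.a l) = (β : 𝕜) ∧ |β| ≤ 1 / 2 := by
  rw [b, LinearMap.add_apply, B.fa, B.fa]
  by_cases h1 : l = k + 1
  · subst h1
    refine ⟨1 / 2, ?_, by rw [abs_of_pos] <;> norm_num⟩
    simp only [show k + 2 = k + 1 + 1 from rfl, if_true, show ¬ (k + 1 + 1 = k + 1) by omega,
      show ¬ (k + 1 = k + 1 + 1) by omega, if_false]
    push_cast; ring
  · by_cases h2 : l = k + 2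
    · subst h2
      refine ⟨-(1 / 2), ?_, by rw [abs_neg, abs_of_pos] <;> norm_num⟩
      simp only [if_true, show ¬ (k + 2 = k + 2 + 1) by omega,
        show ¬ (k + 1 = k + 2 + 1) by omega, show ¬ (k + 1 = k + 2) by omega, if_false]
      push_cast; ring
    · refine ⟨0, ?_, by rw [abs_zero]; norm_num⟩
      simp only [show ¬ (k + 2 = l + 1) by omega, show ¬ (k + 2 = l) by omega,
        show ¬ (k + 1 = l + 1) by omega, show ¬ (k + 1 = l) by omega, if_false]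
      simp

lemma g_e_self (k : ℕ) : B.g k (B.e (k + 3)) = ((2 : ℝ) : 𝕜) := by
  rw [g, LinearMap.sub_apply, LinearMap.add_apply, LinearMap.smul_apply, B.ortho, B.ortho,
    B.ortho]
  push_cast
  simp

lemma g_e (k j : ℕ) (h : j ≠ k + 3) : ∃ β : ℝ, B.g k (B.e j) = (β : 𝕜) ∧ |β| ≤ 1 := by
  rw [g, LinearMap.sub_apply, LinearMap.add_apply, LinearMap.smul_apply, B.ortho, B.ortho,
    B.ortho]
  rw [if_neg (by omega : ¬ (k + 3 = j))]
  by_cases h1 : k + 2 = j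
  · refine ⟨1, ?_, by simp⟩
    rw [if_pos h1, if_neg (by omega : ¬ (k + 1 = j))]
    simp
  · by_cases h2 : k + 1 = j
    · refine ⟨-1, ?_, by simp⟩
      rw [if_neg h1, if_pos h2]
      simp
    · refine ⟨0, ?_, by simp⟩
      rw [if_neg h1, if_neg h2]
      simp

lemma g_a (k l : ℕ) : ∃ β : ℝ, B.g k (B.a l) = (β : 𝕜) ∧ |β| ≤ 3 / 2 := by
  rw [g, LinearMap.sub_apply, LinearMap.add_apply, LinearMap.smul_apply, B.fa, B.fa, B.fa,
    smul_eq_mul]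
  by_cases e0 : l = k
  · subst e0
    refine ⟨-1, ?_, by rw [abs_neg, abs_one]; norm_num⟩
    simp only [show ¬ (l + 3 = l + 1) by omega, show ¬ (l + 2 = l + 1) by omega,
      show ¬ (l + 3 = l) by omega, show ¬ (l + 2 = l) by omega, show ¬ (l + 1 = l) by omega,
      if_true, if_false]
    push_cast; ring
  by_cases e1 : l = k + 1
  · subst e1
    refine ⟨3 / 2, ?_, by rw [abs_of_pos]; norm_num⟩
    simp only [show ¬ (k + 3 = k + 1 + 1) by omega, show (k + 2 = k + 1 + 1) by omega,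
      show ¬ (k + 1 = k + 1 + 1) by omega,
      show ¬ (k + 3 = k + 1) by omega, show ¬ (k + 1 + 1 = k + 1) by omega,
      if_true, if_false]
    push_cast; ring
  by_cases e2 : l = k + 2
  · subst e2
    refine ⟨3 / 2, ?_, by rw [abs_of_pos]; norm_num⟩
    simp only [show (k + 3 = k + 2 + 1) by omega, show ¬ (k + 2 = k + 2 + 1) by omega,
      show ¬ (k + 1 = k + 2 + 1) by omega, show ¬ (k + 2 + 1 = k + 2) by omega,
      show ¬ (k + 1 = k + 2) by omega,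
      if_true, if_false]
    push_cast; ring
  by_cases e3 : l = k + 3
  · subst e3
    refine ⟨-1, ?_, by rw [abs_neg, abs_one]; norm_num⟩
    simp only [show ¬ (k + 3 = k + 3 + 1) by omega, show ¬ (k + 2 = k + 3 + 1) by omega,
      show ¬ (k + 1 = k + 3 + 1) by omega, show ¬ (k + 2 = k + 3) by omega,
      show ¬ (k + 1 = k + 3) by omega,
      if_true, if_false]
    push_cast; ring
  refine ⟨0, ?_, by rw [abs_zero]; norm_num⟩
  simp only [show ¬ (k + 2 = l + 1) by omega, show ¬ (k + 3 = l + 1) by omega,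
      show ¬ (k + 1 = l + 1) by omega, show ¬ (k + 3 = l) by omega, show ¬ (k + 2 = l) by omega,
      show ¬ (k + 1 = l) by omega, if_false]
  simp

lemma Φ_x (k j : ℕ) : ‖B.Φ k (B.x j)‖ ≤ 1 := by
  obtain ⟨β, h1, h2⟩ := B.b_e k j
  rw [x, B.Φ_at k _ (B.φe j) β h1, RCLike.norm_ofReal]
  have ht := B.ht
  obtain ⟨h3, h4⟩ := abs_le.mp h2
  have hp : 0 < 1 + B.t ^ 2 := by positivity
  have ht2 : 0 < B.t ^ 2 := by positivity
  rw [abs_le, le_div_iff₀ hp, div_le_iff₀ hp]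
  constructor <;> nlinarith

lemma Φ_U_self (k : ℕ) : B.Φ k (B.U k) = 1 := by
  rw [U, B.Φ_at k _ (B.φa k) 1 (B.b_a_self k), mul_one, div_self (by positivity)]
  simp

lemma t_sq_le : B.t ^ 2 ≤ 1 / 2304 := by
  have h1 := B.ht
  have h2 := B.ht'
  nlinarith

lemma Φ_U (k l : ℕ) (h : l ≠ k) : ‖B.Φ k (B.U l)‖ ≤ 1 - B.t ^ 2 / 4 := by
  obtain ⟨β, h1, h2⟩ := B.b_a k l h
  rw [U, B.Φ_at k _ (B.φa l) β h1, RCLike.norm_ofReal]
  have ht := B.ht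
  have ht3 := B.t_sq_le
  obtain ⟨h3, h4⟩ := abs_le.mp h2
  have hp : 0 < 1 + B.t ^ 2 := by positivity
  have ht2 : 0 < B.t ^ 2 := by positivity
  rw [abs_le, le_div_iff₀ hp, div_le_iff₀ hp]
  constructor <;> nlinarith

lemma V_x_self (k : ℕ) : B.V k (B.x (k + 3)) = 1 := by
  rw [x, B.V_at k _ (B.φe _) 2 (B.g_e_self k), mul_comm (B.t ^ 2) 2, div_self (by positivity)]
  simp

lemma V_x (k j : ℕ) (h : j ≠ k + 3) : ‖B.V k (B.x j)‖ ≤ 1 - B.t ^ 2 / 3 := by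
  obtain ⟨β, h1, h2⟩ := B.g_e k j h
  rw [x, B.V_at k _ (B.φe j) β h1, RCLike.norm_ofReal]
  have ht := B.ht
  have ht3 := B.t_sq_le
  obtain ⟨h3, h4⟩ := abs_le.mp h2
  have hp : 0 < 1 + 2 * B.t ^ 2 := by positivity
  have ht2 : 0 < B.t ^ 2 := by positivity
  rw [abs_le, le_div_iff₀ hp, div_le_iff₀ hp]
  constructor <;> nlinarith

lemma V_U (k l : ℕ) : ‖B.V k (B.U l)‖ ≤ 1 - B.t ^ 2 / 5 := by
  obtain ⟨β, h1, h2⟩ := B.g_a k l
  rw [U, B.V_at k _ (B.φa l) β h1, RCLike.norm_ofReal]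
  have ht := B.ht
  have ht3 := B.t_sq_le
  obtain ⟨h3, h4⟩ := abs_le.mp h2
  have hp : 0 < 1 + 2 * B.t ^ 2 := by positivity
  have ht2 : 0 < B.t ^ 2 := by positivity
  rw [abs_le, le_div_iff₀ hp, div_le_iff₀ hp]
  constructor <;> nlinarith

lemma b_bound (k : ℕ) (y : X) : ‖B.b k y‖ ≤ 12 * ‖y‖ := by
  rw [b, LinearMap.add_apply]
  calc _ ≤ ‖B.f (k + 2) y‖ + ‖B.f (k + 1) y‖ := norm_add_le _ _
    _ ≤ _ := by linarith [B.nf (k + 2) y, B.nf (k + 1) y]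

lemma g_bound (k : ℕ) (y : X) : ‖B.g k y‖ ≤ 24 * ‖y‖ := by
  rw [g, LinearMap.sub_apply, LinearMap.add_apply, LinearMap.smul_apply]
  have h2 : ‖(2 : 𝕜)‖ = 2 := by simp
  calc _ ≤ ‖(2 : 𝕜) • B.f (k + 3) y + B.f (k + 2) y‖ + ‖B.f (k + 1) y‖ := norm_sub_le _ _
    _ ≤ ‖(2 : 𝕜) • B.f (k + 3) y‖ + ‖B.f (k + 2) y‖ + ‖B.f (k + 1) y‖ := by
        gcongr; exact norm_add_le _ _
    _ ≤ _ := by
        rw [norm_smul, h2]
        linarith [B.nf (k + 3) y, B.nf (k + 2) y, B.nf (k + 1) y]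

lemma Φ_bound' (k : ℕ) (y : X) : ‖B.Φ k y‖ ≤ (1 + 12 * B.t) * ‖y‖ := by
  have ht := B.ht
  have ht2 : 0 < B.t ^ 2 := by positivity
  rw [Φ, LinearMap.smul_apply, LinearMap.add_apply, LinearMap.smul_apply, norm_smul,
    RCLike.norm_ofReal, abs_of_pos (by positivity)]
  have h1 : ‖B.φ y + ((B.t : ℝ) : 𝕜) • B.b k y‖ ≤ (1 + 12 * B.t) * ‖y‖ := by
    calc _ ≤ ‖B.φ y‖ + ‖((B.t : ℝ) : 𝕜) • B.b k y‖ := norm_add_le _ _
      _ ≤ ‖y‖ + B.t * (12 * ‖y‖) := by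
          rw [norm_smul, B.norm_t]
          exact add_le_add (B.nφ y) (mul_le_mul_of_nonneg_left (B.b_bound k y) ht.le)
      _ = _ := by ring
  have h2 : (1 + B.t ^ 2)⁻¹ ≤ 1 := inv_le_one_of_one_le₀ (by linarith)
  calc _ ≤ 1 * ((1 + 12 * B.t) * ‖y‖) := mul_le_mul h2 h1 (norm_nonneg _) zero_le_one
    _ = _ := one_mul _

lemma Φ_bound (k : ℕ) (y : X) : ‖B.Φ k y‖ ≤ 5 / 4 * ‖y‖ := by
  have ht' := B.ht'
  refine (B.Φ_bound' k y).trans (mul_le_mul_of_nonneg_right (by linarith) (norm_nonneg y))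

lemma V_bound' (k : ℕ) (y : X) : ‖B.V k y‖ ≤ (1 + 24 * B.t) * ‖y‖ := by
  have ht := B.ht
  have ht2 : 0 < B.t ^ 2 := by positivity
  rw [V, LinearMap.smul_apply, LinearMap.add_apply, LinearMap.smul_apply, norm_smul,
    RCLike.norm_ofReal, abs_of_pos (by positivity)]
  have h1 : ‖B.φ y + ((B.t : ℝ) : 𝕜) • B.g k y‖ ≤ (1 + 24 * B.t) * ‖y‖ := by
    calc _ ≤ ‖B.φ y‖ + ‖((B.t : ℝ) : 𝕜) • B.g k y‖ := norm_add_le _ _
      _ ≤ ‖y‖ + B.t * (24 * ‖y‖) := by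
          rw [norm_smul, B.norm_t]
          exact add_le_add (B.nφ y) (mul_le_mul_of_nonneg_left (B.g_bound k y) ht.le)
      _ = _ := by ring
  have h2 : (1 + 2 * B.t ^ 2)⁻¹ ≤ 1 := inv_le_one_of_one_le₀ (by linarith)
  calc _ ≤ 1 * ((1 + 24 * B.t) * ‖y‖) := mul_le_mul h2 h1 (norm_nonneg _) zero_le_one
    _ = _ := one_mul _

lemma V_bound (k : ℕ) (y : X) : ‖B.V k y‖ ≤ 3 / 2 * ‖y‖ := by
  have ht' := B.ht'
  refine (B.V_bound' k y).trans (mul_le_mul_of_nonneg_right (by linarith) (norm_nonneg y))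

/-- the exposing functional in terms of the facet functionals -/
lemma V_le_Φ (k : ℕ) (y : X) : ‖B.V k y‖ ≤ 2 * ‖B.Φ (k + 1) y‖ + ‖B.Φ k y‖ := by
  have ht2 : 0 < B.t ^ 2 := by have := B.ht; positivity
  have h1 : B.V k y = (((1 + B.t ^ 2) / (1 + 2 * B.t ^ 2) : ℝ) : 𝕜) *
      (2 * B.Φ (k + 1) y - B.Φ k y) := by
    have h3 : ((1 + B.t ^ 2 : ℝ) : 𝕜) ≠ 0 := by
      exact_mod_cast (by positivity : (1 + B.t ^ 2 : ℝ) ≠ 0)
    simp only [V, Φ, g, b, LinearMap.smul_apply, LinearMap.add_apply, LinearMap.sub_apply,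
      smul_eq_mul]
    push_cast at h3 ⊢
    field_simp
    ring
  rw [h1, norm_mul, RCLike.norm_ofReal, abs_of_pos (by positivity)]
  have h2 : (1 + B.t ^ 2) / (1 + 2 * B.t ^ 2) ≤ 1 := by
    rw [div_le_one (by positivity)]; linarith
  have h4 : ‖(2 : 𝕜)‖ = 2 := by simp
  calc _ ≤ 1 * (‖2 * B.Φ (k + 1) y‖ + ‖B.Φ k y‖) :=
        mul_le_mul h2 (norm_sub_le _ _) (norm_nonneg _) zero_le_one
    _ = _ := by rw [one_mul, norm_mul, h4]

/-- size of the discs -/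
def r : ℝ := B.t ^ 2 / 12

lemma r_pos : 0 < B.r := by
  have := B.ht
  unfold r; positivity

/-- admissible seminorms: at most one on the generators -/
def Adm (q : Seminorm 𝕜 X) : Prop :=
  (∀ y, q y ≤ (1 + 30 * B.t) * ‖y‖) ∧ (∀ j, q (B.x j) ≤ 1) ∧
    ∀ k d, B.Φ k d = 0 → ‖d‖ ≤ B.r → q (B.U k + d) ≤ 1

lemma bddAbove_adm : BddAbove {q : Seminorm 𝕜 X | B.Adm q} := by
  have h4 : 0 ≤ 1 + 30 * B.t := by have := B.ht; positivity
  refine ⟨(Real.toNNReal (1 + 30 * B.t)) • normSeminorm 𝕜 X, ?_⟩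
  intro q hq y
  show q y ≤ ((Real.toNNReal (1 + 30 * B.t)) : ℝ) * ‖y‖
  rw [Real.coe_toNNReal _ h4]
  exact hq.1 y

/-- the new norm -/
def N : Seminorm 𝕜 X := sSup {q : Seminorm 𝕜 X | B.Adm q}

lemma le_N (q : Seminorm 𝕜 X) (hq : B.Adm q) (y : X) : q y ≤ B.N y :=
  (le_csSup B.bddAbove_adm hq : q ≤ B.N) y

lemma zero_adm : B.Adm 0 := by
  have := B.ht
  refine ⟨fun y => ?_, fun j => ?_, fun k d _ _ => ?_⟩
  · show (0 : ℝ) ≤ _
    positivity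
  · show (0 : ℝ) ≤ 1
    norm_num
  · show (0 : ℝ) ≤ 1
    norm_num

lemma N_le (y : X) (C : ℝ) (h : ∀ q : Seminorm 𝕜 X, B.Adm q → q y ≤ C) : B.N y ≤ C := by
  rw [N, Seminorm.sSup_apply B.bddAbove_adm]
  have : Nonempty {q : Seminorm 𝕜 X | B.Adm q} := ⟨⟨0, B.zero_adm⟩⟩
  exact ciSup_le fun q => h q.1 q.2

lemma N_adm : B.Adm B.N :=
  ⟨fun y => B.N_le y _ fun q hq => hq.1 y, fun j => B.N_le _ _ fun q hq => hq.2.1 j,
    fun k d h1 h2 => B.N_le _ _ fun q hq => hq.2.2 k d h1 h2⟩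

lemma U_norm (k : ℕ) : ‖B.U k‖ ≤ 1 + 3 / 2 * B.t := by
  have ht := B.ht
  rw [U]
  have h1 : ‖B.a k‖ ≤ 3 / 2 := by
    rw [a]
    calc _ ≤ ‖B.e (k + 1)‖ + ‖(1 / 2 : 𝕜) • B.e k‖ := norm_sub_le _ _
      _ = _ := by rw [norm_smul, norm_half, B.ne, B.ne]; norm_num
  calc _ ≤ ‖B.u‖ + ‖((B.t : ℝ) : 𝕜) • B.a k‖ := norm_add_le _ _
    _ ≤ _ := by
      rw [norm_smul, B.norm_t, B.nu]
      nlinarith

lemma x_norm (j : ℕ) : ‖B.x j‖ ≤ 1 + B.t := by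
  rw [x]
  calc _ ≤ ‖B.u‖ + ‖((B.t : ℝ) : 𝕜) • B.e j‖ := norm_add_le _ _
    _ = _ := by rw [norm_smul, B.norm_t, B.nu, B.ne, mul_one]

lemma r_le : B.r ≤ B.t / 2 := by
  have h1 := B.ht
  have h2 := B.ht'
  unfold r
  nlinarith

lemma norm_le_N' (y : X) : (1 + 2 * B.t)⁻¹ * ‖y‖ ≤ B.N y := by
  have ht := B.ht
  have h0 : 0 < 1 + 2 * B.t := by positivity
  have hc : ((Real.toNNReal (1 + 2 * B.t)⁻¹ : ℝ≥0) : ℝ) = (1 + 2 * B.t)⁻¹ :=
    Real.coe_toNNReal _ (by positivity)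
  have hi : (1 + 2 * B.t)⁻¹ ≤ 1 := inv_le_one_of_one_le₀ (by linarith)
  have key : ∀ z : X, ‖z‖ ≤ 1 + 2 * B.t → (1 + 2 * B.t)⁻¹ * ‖z‖ ≤ 1 := by
    intro z hz
    rw [inv_mul_le_iff₀ h0]
    linarith
  have := B.le_N ((Real.toNNReal (1 + 2 * B.t)⁻¹) • normSeminorm 𝕜 X)
    ⟨fun y => ?_, fun j => ?_, fun k d _ h => ?_⟩ y
  · refine le_trans (le_of_eq ?_) this
    show _ = ((Real.toNNReal (1 + 2 * B.t)⁻¹ : ℝ≥0) : ℝ) * ‖y‖
    rw [hc]
  · show ((Real.toNNReal (1 + 2 * B.t)⁻¹ : ℝ≥0) : ℝ) * ‖y‖ ≤ _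
    rw [hc]
    exact mul_le_mul_of_nonneg_right (by linarith) (norm_nonneg y)
  · show ((Real.toNNReal (1 + 2 * B.t)⁻¹ : ℝ≥0) : ℝ) * ‖B.x j‖ ≤ 1
    rw [hc]
    exact key _ (by linarith [B.x_norm j])
  · show ((Real.toNNReal (1 + 2 * B.t)⁻¹ : ℝ≥0) : ℝ) * ‖B.U k + d‖ ≤ 1
    rw [hc]
    exact key _ (by linarith [norm_add_le (B.U k) d, B.U_norm k, B.r_le])

lemma half_norm_le_N (y : X) : (1 / 2) * ‖y‖ ≤ B.N y := by
  refine le_trans (mul_le_mul_of_nonneg_right ?_ (norm_nonneg y)) (B.norm_le_N' y)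
  have ht := B.ht
  have ht' := B.ht'
  rw [one_div]
  exact inv_anti₀ (by positivity) (by linarith)

lemma N_x_le (j : ℕ) : B.N (B.x j) ≤ 1 := B.N_adm.2.1 j

/-- facet inequality -/
lemma Φ_le_N (k : ℕ) (y : X) : ‖B.Φ k y‖ ≤ B.N y := by
  have ht := B.ht
  refine B.le_N ((normSeminorm 𝕜 𝕜).comp (B.Φ k)) ⟨fun y => ?_, fun j => ?_, fun l d hd h => ?_⟩ y
  · show ‖B.Φ k y‖ ≤ _
    refine (B.Φ_bound' k y).trans ?_
    apply mul_le_mul_of_nonneg_right _ (norm_nonneg y)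
    linarith
  · exact B.Φ_x k j
  · show ‖B.Φ k (B.U l + d)‖ ≤ 1
    rw [map_add]
    by_cases hlk : l = k
    · subst hlk
      rw [hd, B.Φ_U_self]; simp
    · have h1 := B.Φ_U k l hlk
      have h2 := B.Φ_bound k d
      have := norm_add_le (B.Φ k (B.U l)) (B.Φ k d)
      have ht2 : 0 < B.t ^ 2 := by positivity
      unfold r at h
      linarith

/-- the constant of the exposition -/
def κ : ℝ := B.t ^ 2 / 32

/-- sharp exposition of `x (k+3)` by `V k` -/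
lemma expose (k : ℕ) (y : X) :
    ‖B.V k y‖ + B.κ * B.N (y - B.V k y • B.x (k + 3)) ≤ B.N y := by
  have ht := B.ht
  have ht' := B.ht'
  have ht2 : 0 < B.t ^ 2 := by positivity
  have hκ : 0 ≤ B.κ := by unfold κ; positivity
  have hNx := B.N_x_le (k + 3)
  have hc : ((Real.toNNReal B.κ : ℝ≥0) : ℝ) = B.κ := Real.coe_toNNReal _ hκ
  have hgen : ∀ s : X, B.N (s - B.V k s • B.x (k + 3)) ≤ B.N s + ‖B.V k s‖ := by
    intro s
    calc _ ≤ B.N s + B.N (B.V k s • B.x (k + 3)) := map_sub_le_add _ _ _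
      _ ≤ _ := by
        rw [map_smul_eq_mul]
        have := mul_le_mul_of_nonneg_left hNx (norm_nonneg (B.V k s))
        linarith
  refine B.le_N ((normSeminorm 𝕜 𝕜).comp (B.V k) + (Real.toNNReal B.κ) •
    B.N.comp (LinearMap.id - (B.V k).smulRight (B.x (k + 3))))
    ⟨fun y => ?_, fun j => ?_, fun l d hd h => ?_⟩ y |>.trans' ?_
  · show ‖B.V k y‖ + ((Real.toNNReal B.κ : ℝ≥0) : ℝ) * B.N (y - B.V k y • B.x (k + 3)) ≤ _
    have h1 := B.V_bound' k y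
    have h2 := hgen y
    have h3 := B.N_adm.1 y
    have h4 := B.V_bound k y
    rw [hc]
    have hN3 : B.N (y - B.V k y • B.x (k + 3)) ≤ 4 * ‖y‖ := by
      have : (1 + 30 * B.t) * ‖y‖ ≤ 2 * ‖y‖ :=
        mul_le_mul_of_nonneg_right (by linarith) (norm_nonneg y)
      linarith [norm_nonneg y]
    have h5 : B.κ * B.N (y - B.V k y • B.x (k + 3)) ≤ (6 * B.t) * ‖y‖ := by
      calc _ ≤ B.κ * (4 * ‖y‖) := mul_le_mul_of_nonneg_left hN3 hκ
        _ ≤ _ := by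
          rw [← mul_assoc]
          apply mul_le_mul_of_nonneg_right _ (norm_nonneg y)
          unfold κ
          nlinarith
    linarith
  · show ‖B.V k (B.x j)‖ + ((Real.toNNReal B.κ : ℝ≥0) : ℝ) *
      B.N (B.x j - B.V k (B.x j) • B.x (k + 3)) ≤ 1
    by_cases hj : j = k + 3
    · subst hj
      rw [B.V_x_self]; simp
    · have h1 := B.V_x k j hj
      have h2 := hgen (B.x j)
      have h3 := B.N_x_le j
      have h4 : B.κ * B.N (B.x j - B.V k (B.x j) • B.x (k + 3)) ≤ B.κ * 2 :=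
        mul_le_mul_of_nonneg_left (by linarith) hκ
      rw [hc]
      have h5 : B.κ = B.t ^ 2 / 32 := rfl
      linarith
  · show ‖B.V k (B.U l + d)‖ + ((Real.toNNReal B.κ : ℝ≥0) : ℝ) *
      B.N (B.U l + d - B.V k (B.U l + d) • B.x (k + 3)) ≤ 1
    have h1 : ‖B.V k (B.U l + d)‖ ≤ 1 - B.t ^ 2 / 5 + B.t ^ 2 / 8 := by
      rw [map_add]
      have h1 := B.V_U k l
      have h2 := B.V_bound k d
      have h3 : 3 / 2 * ‖d‖ ≤ B.t ^ 2 / 8 := by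
        unfold r at h
        linarith
      have := norm_add_le (B.V k (B.U l)) (B.V k d)
      linarith
    have h2 := hgen (B.U l + d)
    have h3 := B.N_adm.2.2 l d hd h
    have h4 : B.κ * B.N (B.U l + d - B.V k (B.U l + d) • B.x (k + 3)) ≤ B.κ * 2 :=
      mul_le_mul_of_nonneg_left (by linarith) hκ
    rw [hc]
    have h5 : B.κ = B.t ^ 2 / 32 := rfl
    linarith
  · show _ ≤ ‖B.V k y‖ + ((Real.toNNReal B.κ : ℝ≥0) : ℝ) * B.N (y - B.V k y • B.x (k + 3))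
    rw [hc]

/-- radius of the region around `U k` where the new norm is `|Φ k|` -/
def r1 : ℝ := B.t ^ 2 / 100

lemma r1_pos : 0 < B.r1 := by
  have := B.ht
  unfold r1; positivity

lemma r1_le : B.r1 ≤ 1 / 128 := by
  have := B.t_sq_le
  unfold r1
  linarith

/-- the norm near `U k` -/
lemma near (k : ℕ) (z : X) (hz : ‖z‖ ≤ B.r1) : B.N (B.U k + z) = ‖B.Φ k (B.U k + z)‖ := by
  apply le_antisymm _ (B.Φ_le_N k _)
  have ht := B.ht
  have ht' := B.ht'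
  have hr1 := B.r1_le
  have hphz : ‖B.Φ k z‖ ≤ 5 / 4 * ‖z‖ := B.Φ_bound k z
  have hphz2 : ‖B.Φ k z‖ ≤ 1 / 64 := by linarith
  set τ : 𝕜 := 1 + B.Φ k z with hτ
  have hτn : 63 / 64 ≤ ‖τ‖ := by
    have := norm_sub_norm_le (1 : 𝕜) (-B.Φ k z)
    rw [norm_one, norm_neg, sub_neg_eq_add] at this
    linarith
  have hτ0 : τ ≠ 0 := by
    intro h
    rw [h, norm_zero] at hτn
    norm_num at hτn
  set d : X := τ⁻¹ • (z - B.Φ k z • B.U k) with hd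
  have hdec : B.U k + z = τ • (B.U k + d) := by
    rw [hd, smul_add, smul_smul, mul_inv_cancel₀ hτ0, one_smul, hτ, add_smul, one_smul]
    abel
  have hΦd : B.Φ k d = 0 := by
    rw [hd, map_smul, map_sub, map_smul, B.Φ_U_self, smul_eq_mul, smul_eq_mul]
    ring
  have hdn : ‖d‖ ≤ B.r := by
    rw [hd, norm_smul, norm_inv]
    have h1 : ‖z - B.Φ k z • B.U k‖ ≤ 3 * ‖z‖ := by
      calc _ ≤ ‖z‖ + ‖B.Φ k z • B.U k‖ := norm_sub_le _ _
        _ ≤ ‖z‖ + 5 / 4 * ‖z‖ * (5 / 4) := by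
          rw [norm_smul]
          have hU : ‖B.U k‖ ≤ 5 / 4 := by linarith [B.U_norm k]
          have := mul_le_mul hphz hU (norm_nonneg _) (by positivity)
          linarith
        _ ≤ _ := by linarith [norm_nonneg z]
    have h3 : ‖τ‖⁻¹ ≤ 2 := by
      rw [inv_le_comm₀ (by linarith) (by norm_num)]
      linarith
    calc ‖τ‖⁻¹ * ‖z - B.Φ k z • B.U k‖ ≤ 2 * (3 * ‖z‖) := by
          apply mul_le_mul h3 h1 (norm_nonneg _) (by norm_num)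
      _ ≤ B.r := by
          unfold r1 at hz
          unfold r
          have : 0 < B.t ^ 2 := by positivity
          linarith
  rw [hdec, map_smul_eq_mul, LinearMap.map_smul, LinearMap.map_add, hΦd, B.Φ_U_self]
  have := B.N_adm.2.2 k d hΦd hdn
  simp only [smul_eq_mul, add_zero, mul_one]
  have h0 := norm_nonneg τ
  nlinarith

end Sys

end

end Pool.Agent.Y22.RN
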