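import Mathlib
import Pool.Agent.Y22.RN1

set_option autoImplicit false

namespace Pool.Agent.Y22.RN

open scoped Topology NNReal
open Filter

noncomputable section

variable {𝕜 : Type*} [RCLike 𝕜] {X : Type*} [NormedAddCommGroup X] [NormedSpace 𝕜 X]

lemma rotate (a b : 𝕜) (ha : a ≠ 0) (hab : ‖b‖ ≤ ‖a‖) :
    ∃ t : 𝕜, ‖t‖ = 1 ∧ ‖a + t * b‖ = ‖a‖ - ‖b‖ := by
  by_cases hb : b = 0
  · exact ⟨1, norm_one, by simp [hb]⟩
  · have hna : ‖a‖ ≠ 0 := norm_ne_zero_iff.mpr ha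
    have hnb : ‖b‖ ≠ 0 := norm_ne_zero_iff.mpr hb
    refine ⟨-(((‖b‖ : ℝ) : 𝕜) / b * (a / ((‖a‖ : ℝ) : 𝕜))), ?_, ?_⟩
    · rw [norm_neg, norm_mul, norm_div, norm_div, RCLike.norm_ofReal, RCLike.norm_ofReal,
        abs_norm, abs_norm]
      field_simp
    · have h1 : a + -(((‖b‖ : ℝ) : 𝕜) / b * (a / ((‖a‖ : ℝ) : 𝕜))) * b =
          ((1 - ‖b‖ / ‖a‖ : ℝ) : 𝕜) * a := by
        have hna' : ((‖a‖ : ℝ) : 𝕜) ≠ 0 := by exact_mod_cast hna
        push_cast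
        field_simp
        ring
      rw [h1, norm_mul, RCLike.norm_ofReal, abs_of_nonneg]
      · field_simp
      · rw [sub_nonneg, div_le_one (by positivity)]
        exact hab

namespace Sys

variable (B : Sys 𝕜 X)

/-- the gain -/
def γ : ℝ := B.r1 ^ 2 * B.t ^ 2 / 20000

lemma γ_pos : 0 < B.γ := by
  have := B.r1_pos
  have := B.ht
  unfold γ; positivity

lemma γ_le : B.γ ≤ 1 := by
  have h1 := B.r1_pos
  have h2 := B.r1_le
  have h3 := B.t_sq_le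
  have h4 : B.r1 ^ 2 ≤ 1 := by nlinarith
  have h5 : 0 ≤ B.t ^ 2 := sq_nonneg _
  unfold γ
  nlinarith

/-- If a projection of norm at most `1 + γ` almost fixes `U k`, then its kernel is almost
annihilated by `Φ k`. -/
lemma ker_Φ (P : X →ₗ[𝕜] X) (hP : ∀ x, B.N (P x) ≤ (1 + B.γ) * B.N x)
    (hPP : ∀ x, P (P x) = P x) (k : ℕ) (hyU : ‖P (B.U k) - B.U k‖ ≤ B.r1 / 2)
    (z : X) (hz : P z = 0) :
    ‖B.Φ k z‖ ≤ 4 * B.γ / B.r1 * ‖z‖ := by
  have hr1 := B.r1_pos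
  have hr1' := B.r1_le
  have hγ := B.γ_pos
  set y := P (B.U k) with hy
  have hNy : B.N y = ‖B.Φ k y‖ := by
    have := B.near k (y - B.U k) (by linarith)
    rwa [add_sub_cancel] at this
  -- the value at y is close to one
  have hΦy : ‖B.Φ k y - 1‖ ≤ 1 / 64 := by
    have h2 := B.Φ_bound k (y - B.U k)
    rw [map_sub, B.Φ_U_self] at h2
    linarith
  have hΦy1 : 63 / 64 ≤ ‖B.Φ k y‖ := by
    have := norm_sub_norm_le (1 : 𝕜) (1 - B.Φ k y)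
    rw [norm_one, sub_sub_cancel, norm_sub_rev] at this
    linarith
  have hΦy2 : ‖B.Φ k y‖ ≤ 2 := by
    have := norm_sub_norm_le (B.Φ k y) 1
    rw [norm_one] at this
    linarith
  -- small kernel vectors
  have hsmall : ∀ w : X, P w = 0 → ‖w‖ ≤ B.r1 / 2 → ‖B.Φ k w‖ ≤ 2 * B.γ := by
    intro w hw hwn
    have hb : ‖B.Φ k w‖ ≤ 1 / 64 := by
      have h2 := B.Φ_bound k w
      linarith
    have ha0 : B.Φ k y ≠ 0 := by
      intro h
      rw [h, norm_zero] at hΦy1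
      norm_num at hΦy1
    obtain ⟨t, ht, htn⟩ := rotate (B.Φ k y) (B.Φ k w) ha0 (by linarith)
    have h2 : B.N (y + t • w) = ‖B.Φ k (y + t • w)‖ := by
      have hh : ‖(y - B.U k) + t • w‖ ≤ B.r1 := by
        calc _ ≤ ‖y - B.U k‖ + ‖t • w‖ := norm_add_le _ _
          _ ≤ _ := by rw [norm_smul, ht, one_mul]; linarith
      have := B.near k ((y - B.U k) + t • w) hh
      rwa [← add_assoc, add_sub_cancel] at this
    have h3 := hP (y + t • w)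
    have h4 : P (y + t • w) = y := by
      rw [map_add, map_smul, hw, smul_zero, add_zero, hy, hPP]
    rw [h4, h2, hNy, map_add, map_smul, smul_eq_mul, htn] at h3
    nlinarith [norm_nonneg (B.Φ k w)]
  by_cases hz0 : z = 0
  · rw [hz0, map_zero, norm_zero, norm_zero, mul_zero]
  · have hzn : 0 < ‖z‖ := norm_pos_iff.mpr hz0
    have h2 := hsmall (((B.r1 / (2 * ‖z‖) : ℝ) : 𝕜) • z) (by rw [map_smul, hz, smul_zero]) (by
      rw [norm_smul, RCLike.norm_ofReal, abs_of_pos (by positivity)]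
      apply le_of_eq
      field_simp)
    rw [map_smul, norm_smul, RCLike.norm_ofReal, abs_of_pos (by positivity)] at h2
    have h3 : ‖B.Φ k z‖ = (2 * ‖z‖ / B.r1) * (B.r1 / (2 * ‖z‖) * ‖B.Φ k z‖) := by
      field_simp
    rw [h3]
    calc _ ≤ (2 * ‖z‖ / B.r1) * (2 * B.γ) := by gcongr
      _ = _ := by ring

lemma U_eq (k : ℕ) : B.U k = B.x (k + 1) - (1 / 2 : 𝕜) • B.x k + (1 / 2 : 𝕜) • B.u := by
  simp only [U, x, a, smul_add, smul_sub]
  rw [smul_comm ((1 / 2 : 𝕜)) ((B.t : ℝ) : 𝕜) (B.e k)]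
  abel

lemma U_close (P : X →ₗ[𝕜] X) (k : ℕ) (hu : ‖P B.u - B.u‖ ≤ B.r1 / 4)
    (h0 : ‖P (B.x k) - B.x k‖ ≤ B.r1 / 4)
    (h1 : ‖P (B.x (k + 1)) - B.x (k + 1)‖ ≤ B.r1 / 4) : ‖P (B.U k) - B.U k‖ ≤ B.r1 / 2 := by
  have : P (B.U k) - B.U k = (P (B.x (k + 1)) - B.x (k + 1)) -
      (1 / 2 : 𝕜) • (P (B.x k) - B.x k) + (1 / 2 : 𝕜) • (P B.u - B.u) := by
    rw [U_eq, map_add, map_sub, map_smul, map_smul, smul_sub, smul_sub]
    abel
  rw [this]
  calc _ ≤ ‖(P (B.x (k + 1)) - B.x (k + 1)) - (1 / 2 : 𝕜) • (P (B.x k) - B.x k)‖ +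
        ‖(1 / 2 : 𝕜) • (P B.u - B.u)‖ := norm_add_le _ _
    _ ≤ ‖P (B.x (k + 1)) - B.x (k + 1)‖ + ‖(1 / 2 : 𝕜) • (P (B.x k) - B.x k)‖ +
        ‖(1 / 2 : 𝕜) • (P B.u - B.u)‖ := by gcongr; exact norm_sub_le _ _
    _ ≤ _ := by
      rw [norm_smul, norm_smul, norm_half]
      linarith

/-- propagation step -/
lemma step (P : X →ₗ[𝕜] X) (hP : ∀ x, B.N (P x) ≤ (1 + B.γ) * B.N x)
    (hPP : ∀ x, P (P x) = P x) (hu : ‖P B.u - B.u‖ ≤ B.r1 / 4)
    (k : ℕ) (h0 : ‖P (B.x k) - B.x k‖ ≤ B.r1 / 4)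
    (h1 : ‖P (B.x (k + 1)) - B.x (k + 1)‖ ≤ B.r1 / 4)
    (h2 : ‖P (B.x (k + 2)) - B.x (k + 2)‖ ≤ B.r1 / 4) :
    ‖P (B.x (k + 3)) - B.x (k + 3)‖ ≤ B.r1 / 4 := by
  have hr1 := B.r1_pos
  have hr1le := B.r1_le
  have hγ := B.γ_pos
  have hγle := B.γ_le
  have ht := B.ht
  have ht2 : 0 < B.t ^ 2 := by positivity
  have ht3 := B.t_sq_le
  set x := B.x (k + 3) with hx
  have hNx : B.N x ≤ 1 := B.N_x_le _
  have hNP : B.N (P x) ≤ 1 + B.γ := (hP x).trans (by nlinarith)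
  set z := x - P x with hz
  have hPz : P z = 0 := by rw [hz, map_sub, hPP, sub_self]
  have hzn : ‖z‖ ≤ 6 := by
    have h3 := B.half_norm_le_N z
    have h4 : B.N z ≤ B.N x + B.N (P x) := map_sub_le_add _ _ _
    linarith
  have hη0 : ‖B.Φ k z‖ ≤ 24 * B.γ / B.r1 := by
    refine (B.ker_Φ P hP hPP k (B.U_close P k hu h0 h1) z hPz).trans ?_
    calc _ ≤ 4 * B.γ / B.r1 * 6 := by gcongr
      _ = _ := by ring
  have hη1 : ‖B.Φ (k + 1) z‖ ≤ 24 * B.γ / B.r1 := by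
    refine (B.ker_Φ P hP hPP (k + 1) (B.U_close P (k + 1) hu h1 h2) z hPz).trans ?_
    calc _ ≤ 4 * B.γ / B.r1 * 6 := by gcongr
      _ = _ := by ring
  set η : ℝ := 72 * B.γ / B.r1 with hη
  have hVz : ‖B.V k z‖ ≤ η := by
    refine (B.V_le_Φ k z).trans ?_
    calc _ ≤ 2 * (24 * B.γ / B.r1) + 24 * B.γ / B.r1 := by linarith
      _ = η := by rw [hη]; ring
  have hVx : B.V k x = 1 := B.V_x_self k
  have hVP : B.V k (P x) = 1 - B.V k z := by
    rw [hz, map_sub, hVx]; ring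
  have hVP1 : 1 - η ≤ ‖B.V k (P x)‖ := by
    rw [hVP]
    have := norm_sub_norm_le (1 : 𝕜) (B.V k z)
    rw [norm_one] at this
    linarith
  have hexp := B.expose k (P x)
  rw [← hx] at hexp
  have hN1 : B.κ * B.N (P x - B.V k (P x) • x) ≤ B.γ + η := by linarith
  have hκ : 0 < B.κ := by unfold κ; positivity
  have hN1' : B.N (P x - B.V k (P x) • x) ≤ (B.γ + η) / B.κ := by
    rw [le_div_iff₀ hκ]; linarith
  have hN2 : B.N (P x - x) ≤ (B.γ + η) / B.κ + η := by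
    have hdec : P x - x = (P x - B.V k (P x) • x) + (-(B.V k z)) • x := by
      rw [hVP, sub_smul, one_smul, neg_smul]
      abel
    rw [hdec]
    calc _ ≤ B.N (P x - B.V k (P x) • x) + B.N ((-(B.V k z)) • x) := map_add_le_add _ _ _
      _ ≤ _ := by
        rw [map_smul_eq_mul, norm_neg]
        have : ‖B.V k z‖ * B.N x ≤ η * 1 :=
          mul_le_mul hVz hNx (apply_nonneg _ _) ((norm_nonneg _).trans hVz)
        linarith
  have hfin := B.half_norm_le_N (P x - x)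
  have hη' : η = 72 * B.r1 * B.t ^ 2 / 20000 := by
    rw [hη, γ]; field_simp
  have hγ' : B.γ ≤ B.r1 * B.t ^ 2 / 20000 := by
    unfold γ
    have : B.r1 ^ 2 ≤ B.r1 := by nlinarith
    have h3 := mul_le_mul_of_nonneg_right this ht2.le
    linarith
  have hsum : (B.γ + η) / B.κ ≤ 73 * 32 * B.r1 / 20000 := by
    rw [div_le_iff₀ hκ, hη']
    unfold κ
    calc _ ≤ B.r1 * B.t ^ 2 / 20000 + 72 * B.r1 * B.t ^ 2 / 20000 := by linarith
      _ = _ := by ring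
  have hη2 : η ≤ B.r1 / 1000 := by
    rw [hη']
    have := mul_le_mul_of_nonneg_left ht3 hr1.le
    nlinarith
  linarith

lemma separated (i j : ℕ) (h : i ≠ j) : B.t ≤ 6 * ‖B.x i - B.x j‖ := by
  have h1 := B.nf i (B.x i - B.x j)
  have h2 : B.f i (B.x i - B.x j) = ((B.t : ℝ) : 𝕜) := by
    rw [x, x, map_sub, map_add, map_add, map_smul, map_smul, B.ortho, B.ortho, if_pos rfl,
      if_neg h]
    simp
  rwa [h2, B.norm_t] at h1

/-- A finite-rank projection which almost fixes the first three vectors and `u` has norm larger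
than `1 + γ` in the new norm. -/
theorem no_projection (P : X →ₗ[𝕜] X) (hPP : ∀ x, P (P x) = P x)
    (hW : FiniteDimensional 𝕜 (LinearMap.range P)) (hu : ‖P B.u - B.u‖ ≤ B.r1 / 4)
    (h0 : ‖P (B.x 0) - B.x 0‖ ≤ B.r1 / 4)
    (h1 : ‖P (B.x 1) - B.x 1‖ ≤ B.r1 / 4)
    (h2 : ‖P (B.x 2) - B.x 2‖ ≤ B.r1 / 4) :
    ∃ x, (1 + B.γ) * B.N x < B.N (P x) := by
  by_contra hcon
  push Not at hcon
  have hP := hcon
  have hall3 : ∀ k, ‖P (B.x k) - B.x k‖ ≤ B.r1 / 4 ∧ ‖P (B.x (k + 1)) - B.x (k + 1)‖ ≤ B.r1 / 4 ∧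
      ‖P (B.x (k + 2)) - B.x (k + 2)‖ ≤ B.r1 / 4 := by
    intro k
    induction k with
    | zero => exact ⟨h0, h1, h2⟩
    | succ k ih => exact ⟨ih.2.1, ih.2.2, B.step P hP hPP hu k ih.1 ih.2.1 ih.2.2⟩
  have hall : ∀ k, ‖P (B.x k) - B.x k‖ ≤ B.r1 / 4 := fun k => (hall3 k).1
  have hr1le := B.r1_le
  have ht := B.ht
  have ht' := B.ht'
  have : ProperSpace (LinearMap.range P) := FiniteDimensional.proper 𝕜 _
  let y : ℕ → LinearMap.range P := fun k => ⟨P (B.x k), LinearMap.mem_range_self P _⟩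
  have hyb : ∀ k, ‖y k‖ ≤ 2 := by
    intro k
    show ‖P (B.x k)‖ ≤ 2
    have h3 := norm_sub_norm_le (P (B.x k)) (B.x k)
    have h4 := hall k
    have h5 := B.x_norm k
    linarith
  obtain ⟨yl, -, ψ, hψ, hlim⟩ := tendsto_subseq_of_bounded
    (s := Metric.closedBall (0 : LinearMap.range P) 2)
    Metric.isBounded_closedBall (x := y) (fun k => by
      rw [mem_closedBall_zero_iff]; exact hyb k)
  have hc := hlim.cauchySeq
  rw [Metric.cauchySeq_iff] at hc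
  obtain ⟨n, hn⟩ := hc (B.t / 12) (by positivity)
  have h3 := hn n le_rfl (n + 1) (by omega)
  have hne : ψ n ≠ ψ (n + 1) := (hψ (by omega : n < n + 1)).ne
  have h4 := B.separated _ _ hne
  have h5 : ‖P (B.x (ψ n)) - P (B.x (ψ (n + 1)))‖ < B.t / 12 := by
    have hd : dist (y (ψ n)) (y (ψ (n + 1))) = ‖P (B.x (ψ n)) - P (B.x (ψ (n + 1)))‖ := by
      rw [Subtype.dist_eq, dist_eq_norm]
    rw [← hd]
    exact h3
  have h6 : ‖B.x (ψ n) - B.x (ψ (n + 1))‖ ≤ B.r1 / 4 + B.t / 12 + B.r1 / 4 := by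
    have e : B.x (ψ n) - B.x (ψ (n + 1)) = -(P (B.x (ψ n)) - B.x (ψ n)) +
        (P (B.x (ψ n)) - P (B.x (ψ (n + 1)))) + (P (B.x (ψ (n + 1))) - B.x (ψ (n + 1))) := by
      abel
    rw [e]
    calc _ ≤ ‖-(P (B.x (ψ n)) - B.x (ψ n)) + (P (B.x (ψ n)) - P (B.x (ψ (n + 1))))‖ +
          ‖P (B.x (ψ (n + 1))) - B.x (ψ (n + 1))‖ := norm_add_le _ _
      _ ≤ ‖-(P (B.x (ψ n)) - B.x (ψ n))‖ + ‖P (B.x (ψ n)) - P (B.x (ψ (n + 1)))‖ +
          ‖P (B.x (ψ (n + 1))) - B.x (ψ (n + 1))‖ := by gcongr; exact norm_add_le _ _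
      _ ≤ _ := by
        rw [norm_neg]
        have := hall (ψ n)
        have := hall (ψ (n + 1))
        linarith
  have h7 : B.r1 ≤ B.t / 100 := by
    unfold r1
    nlinarith
  linarith

end Sys

end

end Pool.Agent.Y22.RN
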