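import Mathlib
import Pool.Agent.Y22.RN2
import Pool.Agent.Helper31.Biorth

set_option autoImplicit false

namespace Pool.Agent.Y22.RN

open scoped Topology NNReal
open Filter

noncomputable section

section exist

variable {𝕜 : Type*} [RCLike 𝕜] {X : Type*} [NormedAddCommGroup X] [NormedSpace 𝕜 X]

theorem exists_sys (hX : ¬ FiniteDimensional 𝕜 X) (t : ℝ) (ht : 0 < t) (ht' : t ≤ 1 / 48) :
    ∃ B : Sys 𝕜 X, B.t = t := by
  have hnt : Nontrivial X := by
    by_contra h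
    rw [not_nontrivial_iff_subsingleton] at h
    exact hX inferInstance
  obtain ⟨w, hw⟩ := exists_ne (0 : X)
  obtain ⟨u, hu⟩ : ∃ u : X, ‖u‖ = 1 := ⟨_, norm_smul_inv_norm (𝕜 := 𝕜) hw⟩
  have hu0 : ‖u‖ ≠ 0 := by
    rw [hu]; exact one_ne_zero
  obtain ⟨φ, hφ, hφu⟩ := exists_dual_vector 𝕜 u hu0
  rw [hu] at hφu
  have hφu' : φ u = 1 := by rw [hφu]; simp
  set K : Submodule 𝕜 X := LinearMap.ker (φ : X →ₗ[𝕜] 𝕜) with hK
  have hmem : ∀ y : X, y - φ y • u ∈ K := by
    intro y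
    rw [hK, LinearMap.mem_ker]
    show φ (y - φ y • u) = 0
    rw [map_sub, map_smul, hφu', smul_eq_mul, mul_one, sub_self]
  let π : X →ₗ[𝕜] K :=
    { toFun := fun y => ⟨y - φ y • u, hmem y⟩
      map_add' := fun y z => by
        ext
        show y + z - φ (y + z) • u = (y - φ y • u) + (z - φ z • u)
        rw [map_add, add_smul]; abel
      map_smul' := fun c y => by
        ext
        show c • y - φ (c • y) • u = c • (y - φ y • u)
        rw [map_smul, smul_sub, smul_smul, smul_eq_mul] }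
  have hKinf : ¬ FiniteDimensional 𝕜 K := by
    intro hfin
    apply hX
    let T : X →ₗ[𝕜] K × 𝕜 := π.prod (φ : X →ₗ[𝕜] 𝕜)
    apply FiniteDimensional.of_injective T
    intro y z hyz
    have h1 : π y = π z := congrArg Prod.fst hyz
    have h2 : φ y = φ z := congrArg Prod.snd hyz
    have h3 : y - φ y • u = z - φ z • u := congrArg Subtype.val h1
    rw [h2] at h3
    exact sub_left_injective h3
  obtain ⟨q, ψ, hq, hψ, hort⟩ := Pool.Agent.Helper31.Biorth.exists_biorth hKinf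
  refine ⟨{ u := u
            φ := φ
            e := fun j => (q j : X)
            f := fun j => (ψ j : K →ₗ[𝕜] 𝕜).comp π
            t := t
            ht := ht
            ht' := ht'
            nu := hu
            nφ := fun y => ?_
            φu := hφu'
            ne := fun j => ?_
            φe := fun j => ?_
            nf := fun j y => ?_
            fu := fun j => ?_
            ortho := fun i j => ?_ }, rfl⟩
  · have := φ.le_opNorm y
    rwa [hφ, one_mul] at this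
  · exact hq j
  · exact LinearMap.mem_ker.mp (q j).2
  · show ‖ψ j (π y)‖ ≤ _
    have h1 : ‖π y‖ ≤ 2 * ‖y‖ := by
      show ‖y - φ y • u‖ ≤ _
      calc _ ≤ ‖y‖ + ‖φ y • u‖ := norm_sub_le _ _
        _ ≤ _ := by
          rw [norm_smul, hu, mul_one]
          have := φ.le_opNorm y
          rw [hφ, one_mul] at this
          linarith
    calc _ ≤ ‖ψ j‖ * ‖π y‖ := (ψ j).le_opNorm _
      _ ≤ 3 * (2 * ‖y‖) := mul_le_mul (hψ j) h1 (norm_nonneg _) (by norm_num)
      _ = _ := by ring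
  · show ψ j (π u) = 0
    have : π u = 0 := by
      ext
      show u - φ u • u = 0
      rw [hφu', one_smul, sub_self]
    rw [this, map_zero]
  · show ψ i (π (q j : X)) = _
    have : π (q j : X) = q j := by
      ext
      show (q j : X) - φ (q j : X) • u = (q j : X)
      have h0 : φ (q j : X) = 0 := LinearMap.mem_ker.mp (q j).2
      rw [h0, zero_smul, sub_zero]
    rw [this, hort]

theorem main (hX : ¬ FiniteDimensional 𝕜 X) (ε : ℝ) (h1 : 0 < ε) (h2 : ε ≤ 1) :
    ∃ N : Seminorm 𝕜 X, (∀ y, ‖y‖ ≤ (1 + ε) * N y ∧ N y ≤ (1 + ε) * ‖y‖) ∧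
      ∃ (F : Finset X) (δ : ℝ), F.card ≤ 4 ∧ 0 < δ ∧
        ∀ P : X →ₗ[𝕜] X, (∀ x, P (P x) = P x) → FiniteDimensional 𝕜 (LinearMap.range P) →
          (∀ x ∈ F, ‖P x - x‖ ≤ δ) → ∃ x, (1 + 4 * (ε ^ 6 / 10 ^ 19)) * N x < N (P x) := by
  classical
  obtain ⟨B, hB⟩ := exists_sys hX (ε / 48) (by positivity) (by linarith)
  have ht := B.ht
  refine ⟨B.N, fun y => ⟨?_, ?_⟩, {B.u, B.x 0, B.x 1, B.x 2}, B.r1 / 4, Finset.card_le_four,
    by have := B.r1_pos; positivity, ?_⟩
  · have h3 := B.norm_le_N' y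
    rw [inv_mul_le_iff₀ (by positivity)] at h3
    refine h3.trans (mul_le_mul_of_nonneg_right ?_ (apply_nonneg _ _))
    rw [hB]; linarith
  · refine (B.N_adm.1 y).trans (mul_le_mul_of_nonneg_right ?_ (norm_nonneg _))
    rw [hB]; linarith
  · intro P hPP hfin hF
    obtain ⟨x, hx⟩ := B.no_projection P hPP hfin (hF _ (by simp)) (hF _ (by simp))
      (hF _ (by simp)) (hF _ (by simp))
    refine ⟨x, lt_of_le_of_lt (mul_le_mul_of_nonneg_right ?_ (apply_nonneg _ _)) hx⟩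
    unfold Sys.γ Sys.r1
    rw [hB]
    have h6 : 0 < ε ^ 6 := by positivity
    have : ((ε / 48) ^ 2 / 100) ^ 2 * (ε / 48) ^ 2 / 20000 =
        ε ^ 6 * (1 / (48 ^ 6 * 10 ^ 4 * 20000)) := by
      ring
    rw [this]
    have h7 : (4 : ℝ) / 10 ^ 19 ≤ 1 / (48 ^ 6 * 10 ^ 4 * 20000) := by norm_num
    have h8 := mul_le_mul_of_nonneg_left h7 h6.le
    linarith

end exist

/-- The same with respect to an arbitrary norm on a vector space. -/
theorem main' {𝕜 : Type*} [RCLike 𝕜] {X : Type*} [AddCommGroup X] [Module 𝕜 X]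
    (N₀ : Seminorm 𝕜 X) (h₀ : ∀ x, N₀ x = 0 → x = 0) (hX : ¬ FiniteDimensional 𝕜 X) (ε : ℝ)
    (h1 : 0 < ε) (h2 : ε ≤ 1) :
    ∃ N : Seminorm 𝕜 X, (∀ y, N₀ y ≤ (1 + ε) * N y ∧ N y ≤ (1 + ε) * N₀ y) ∧
      ∃ (F : Finset X) (δ : ℝ), F.card ≤ 4 ∧ 0 < δ ∧
        ∀ P : X →ₗ[𝕜] X, (∀ x, P (P x) = P x) → FiniteDimensional 𝕜 (LinearMap.range P) →
          (∀ x ∈ F, N₀ (P x - x) ≤ δ) → ∃ x, (1 + 4 * (ε ^ 6 / 10 ^ 19)) * N x < N (P x) := by
  letI nX : Norm X := ⟨fun x => N₀ x⟩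
  have core : NormedSpace.Core 𝕜 X :=
    { norm_nonneg := fun x => apply_nonneg N₀ x
      norm_smul := fun c x => map_smul_eq_mul N₀ c x
      norm_triangle := fun x y => map_add_le_add N₀ x y
      norm_eq_zero_iff := fun x => ⟨h₀ x, fun h => by
        show N₀ x = 0
        rw [h, map_zero]⟩ }
  letI iA : NormedAddCommGroup X := NormedAddCommGroup.ofCore core
  letI iB : NormedSpace 𝕜 X := NormedSpace.ofCore core
  exact main (𝕜 := 𝕜) (X := X) hX ε h1 h2

end

end Pool.Agent.Y22.RN
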