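import Mathlib

set_option autoImplicit false

/-! Sums of products of reciprocal distances to the nearest integer. -/

namespace Pool.Agent.Y22.LG

open Finset

/-- distance to the nearest integer -/
noncomputable def nn (y : ℝ) : ℝ := |y - round y|

lemma nn_nonneg (y : ℝ) : 0 ≤ nn y := abs_nonneg _

lemma nn_le_half (y : ℝ) : nn y ≤ 1 / 2 := abs_sub_round y

lemma nn_le (y : ℝ) (k : ℤ) : nn y ≤ |y - k| := round_le y k

/-- the product of the reciprocals -/
noncomputable def PF {n : ℕ} (θ : Fin n → ℝ) (m : ℕ) : ℝ := ∏ i, (nn (m * θ i))⁻¹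

lemma PF_nonneg {n : ℕ} (θ : Fin n → ℝ) (m : ℕ) : 0 ≤ PF θ m :=
  Finset.prod_nonneg fun _ _ => inv_nonneg.2 (nn_nonneg _)

/-- the lower bound of the product -/
def PLow {n : ℕ} (θ : Fin n → ℝ) (τ c : ℝ) : Prop :=
  0 < c ∧ ∀ m : ℕ, 1 ≤ m → c ≤ (m : ℝ) ^ (1 + τ) * ∏ i, nn (m * θ i)

lemma PLow.pos {n : ℕ} {θ : Fin n → ℝ} {τ c : ℝ} (h : PLow θ τ c) {m : ℕ} (hm : 1 ≤ m) (i : Fin n) :
    0 < nn (m * θ i) := by
  rcases (nn_nonneg (m * θ i)).lt_or_eq with h1 | h1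
  · exact h1
  · exfalso
    have h2 := h.2 m hm
    rw [Finset.prod_eq_zero (Finset.mem_univ i) h1.symm, mul_zero] at h2
    exact absurd h.1 (not_lt.2 h2)

lemma two_close (S : Finset ℕ) (r : ℕ → ℝ) (D : ℝ) (hD : 0 < D) (hr : ∀ m ∈ S, |r m| ≤ D)
    (hS : 2 ≤ S.card) : ∃ a ∈ S, ∃ b ∈ S, a < b ∧ |r b - r a| * ((S.card : ℝ) - 1) ≤ 4 * D := by
  obtain ⟨L, hL⟩ : ∃ L, S.card = L + 1 := ⟨S.card - 1, by omega⟩
  have hL1 : 1 ≤ L := by omega
  have hLr : (1 : ℝ) ≤ L := by exact_mod_cast hL1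
  set f : ℕ → ℕ := fun m => ⌊(r m + D) * L / (4 * D)⌋₊ with hf
  have hmaps : ∀ m ∈ S, f m ∈ Finset.range (L / 2 + 1) := by
    intro m hm
    rw [Finset.mem_range, Nat.lt_succ_iff]
    have h1 : (r m + D) * L / (4 * D) ≤ (L : ℝ) / 2 := by
      rw [div_le_iff₀ (by positivity)]
      have := (abs_le.mp (hr m hm)).2
      nlinarith
    calc f m ≤ ⌊(L : ℝ) / 2⌋₊ := Nat.floor_le_floor h1
      _ = L / 2 := by
        have := Nat.floor_div_natCast (L : ℝ) 2
        simpa using this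
  have hcard : (Finset.range (L / 2 + 1)).card < S.card := by
    rw [Finset.card_range]; omega
  obtain ⟨a, ha, b, hb, hab, hfab⟩ := Finset.exists_ne_map_eq_of_card_lt_of_maps_to hcard hmaps
  have key : ∀ a ∈ S, ∀ b ∈ S, f a = f b → |r b - r a| * ((S.card : ℝ) - 1) ≤ 4 * D := by
    intro a ha b hb hfab
    have h0 : ∀ m ∈ S, 0 ≤ (r m + D) * L / (4 * D) := by
      intro m hm
      have := (abs_le.mp (hr m hm)).1
      have h2 : 0 ≤ r m + D := by linarith
      positivity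
    have e1 := Nat.floor_le (h0 a ha)
    have e2 := Nat.lt_floor_add_one ((r a + D) * L / (4 * D))
    have e3 := Nat.floor_le (h0 b hb)
    have e4 := Nat.lt_floor_add_one ((r b + D) * L / (4 * D))
    have e5 : (⌊(r a + D) * L / (4 * D)⌋₊ : ℝ) = ⌊(r b + D) * L / (4 * D)⌋₊ := by
      exact_mod_cast hfab
    have e6 : |(r b + D) * L / (4 * D) - (r a + D) * L / (4 * D)| ≤ 1 := by
      rw [abs_le]; constructor <;> linarith
    have e7 : (r b + D) * L / (4 * D) - (r a + D) * L / (4 * D) = (r b - r a) * (L / (4 * D)) := by ring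
    rw [e7, abs_mul, abs_of_nonneg (by positivity : (0:ℝ) ≤ L / (4 * D))] at e6
    have e8 : ((S.card : ℝ) - 1) = L := by rw [hL]; push_cast; ring
    rw [e8]
    have e9 : |r b - r a| * (L / (4 * D)) = |r b - r a| * L / (4 * D) := by ring
    rw [e9, div_le_iff₀ (by positivity)] at e6
    linarith
  rcases lt_or_gt_of_ne hab with h | h
  · exact ⟨a, ha, b, hb, h, key a ha b hb hfab⟩
  · exact ⟨b, hb, a, ha, h, key b hb a ha hfab.symm⟩

/-- a class of numbers with small distances has few elements -/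
lemma card_class {n : ℕ} {θ : Fin (n + 1) → ℝ} {τ c : ℝ} (hτ : 0 < τ) (h : PLow θ τ c) {M : ℕ} (hM : 1 ≤ M)
    (S : Finset ℕ) (hS : ∀ m ∈ S, 1 ≤ m ∧ m ≤ M) (D : Fin (n + 1) → ℝ) (hD : ∀ i, 0 < D i)
    (hSD : ∀ m ∈ S, ∀ i, nn (m * θ i) ≤ D i) :
    (S.card : ℝ) ≤ 1 + 2 ^ (n + 2) * c⁻¹ * (∏ i, D i) * (M : ℝ) ^ (1 + τ) := by
  have hc := h.1
  have hPD : 0 < ∏ i, D i := Finset.prod_pos fun i _ => hD i
  by_cases h2 : 2 ≤ S.card
  · set r : ℕ → ℝ := fun m => (m : ℝ) * θ 0 - round ((m : ℝ) * θ 0) with hr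
    obtain ⟨a, ha, b, hb, hab, hcl⟩ := two_close S r (D 0) (hD 0) (fun m hm => hSD m hm 0) h2
    have hcard : (1 : ℝ) ≤ (S.card : ℝ) - 1 := by
      have : (2 : ℝ) ≤ S.card := by exact_mod_cast h2
      linarith
    have hd1 : 1 ≤ b - a := by omega
    have hdM : b - a ≤ M := by have := (hS b hb).2; omega
    have hcast : (((b - a : ℕ)) : ℝ) = (b : ℝ) - a := by
      rw [Nat.cast_sub hab.le]
    have hdiff : ∀ i, nn (((b - a : ℕ) : ℝ) * θ i) ≤
        |((b : ℝ) * θ i - round ((b : ℝ) * θ i)) - ((a : ℝ) * θ i - round ((a : ℝ) * θ i))| := by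
      intro i
      refine (nn_le _ (round ((b : ℝ) * θ i) - round ((a : ℝ) * θ i))).trans (le_of_eq ?_)
      congr 1
      rw [hcast]; push_cast; ring
    have hfirst : nn (((b - a : ℕ) : ℝ) * θ 0) ≤ 4 * D 0 / ((S.card : ℝ) - 1) := by
      rw [le_div_iff₀ (by linarith)]
      refine le_trans (mul_le_mul_of_nonneg_right (hdiff 0) (by linarith)) hcl
    have hrest : ∀ i, nn (((b - a : ℕ) : ℝ) * θ i) ≤ 2 * D i := by
      intro i
      refine (hdiff i).trans ((abs_sub _ _).trans ?_)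
      have h3 := hSD a ha i
      have h4 := hSD b hb i
      unfold nn at h3 h4
      linarith
    have hprod : ∏ i, nn (((b - a : ℕ) : ℝ) * θ i) ≤ 4 * D 0 / ((S.card : ℝ) - 1) * ∏ i : Fin n, (2 * D i.succ) := by
      rw [Fin.prod_univ_succ]
      exact mul_le_mul hfirst (Finset.prod_le_prod (fun i _ => nn_nonneg _) fun i _ => hrest _)
        (Finset.prod_nonneg fun i _ => nn_nonneg _)
        (div_nonneg (by have := hD 0; linarith) (by linarith))
    have hlow := h.2 (b - a) hd1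
    have hpow : (((b - a : ℕ)) : ℝ) ^ (1 + τ) ≤ (M : ℝ) ^ (1 + τ) :=
      Real.rpow_le_rpow (by positivity) (by exact_mod_cast hdM) (by linarith)
    have hprod2 : ∏ i : Fin n, (2 * D i.succ) = 2 ^ n * ∏ i : Fin n, D i.succ := by
      rw [Finset.prod_mul_distrib, Finset.prod_const, Finset.card_univ, Fintype.card_fin]
    have hall : c ≤ (M : ℝ) ^ (1 + τ) * (4 * D 0 / ((S.card : ℝ) - 1) * (2 ^ n * ∏ i : Fin n, D i.succ)) := by
      refine hlow.trans ?_
      rw [← hprod2]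
      exact mul_le_mul hpow hprod (Finset.prod_nonneg fun i _ => nn_nonneg _) (by positivity)
    have heq : (M : ℝ) ^ (1 + τ) * (4 * D 0 / ((S.card : ℝ) - 1) * (2 ^ n * ∏ i : Fin n, D i.succ)) =
        (2 ^ (n + 2) * (∏ i, D i) * (M : ℝ) ^ (1 + τ)) / ((S.card : ℝ) - 1) := by
      rw [Fin.prod_univ_succ (fun i => D i)]
      ring
    rw [heq, le_div_iff₀ (by linarith)] at hall
    have h5 : ((S.card : ℝ) - 1) ≤ c⁻¹ * (2 ^ (n + 2) * (∏ i, D i) * (M : ℝ) ^ (1 + τ)) := by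
      rw [← div_eq_inv_mul, le_div_iff₀ hc]
      linarith
    nlinarith [h5]
  · have h3 : (S.card : ℝ) ≤ 1 := by
      have : S.card ≤ 1 := by omega
      exact_mod_cast this
    have : 0 ≤ 2 ^ (n + 2) * c⁻¹ * (∏ i, D i) * (M : ℝ) ^ (1 + τ) := by positivity
    linarith

end Pool.Agent.Y22.LG
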