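import Mathlib
import Pool.Agent.Y22.LG1

set_option autoImplicit false

/-! Counting integer vectors with a small fractional part of a linear form. -/

namespace Pool.Agent.Y22.LG

open Finset Complex

/-- the additive character -/
noncomputable def E (y : ℝ) : ℂ := cexp (((2 * Real.pi * y : ℝ) : ℂ) * I)

lemma E_add (a b : ℝ) : E (a + b) = E a * E b := by
  unfold E
  rw [← Complex.exp_add]
  congr 1
  push_cast; ring

lemma E_norm (y : ℝ) : ‖E y‖ = 1 := by
  unfold E
  exact Complex.norm_exp_ofReal_mul_I _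

lemma E_int (k : ℤ) : E k = 1 := by
  unfold E
  rw [Complex.exp_eq_one_iff]
  exact ⟨k, by push_cast; ring⟩

lemma E_zero : E 0 = 1 := by
  have := E_int 0
  simpa using this

lemma E_sub_int (y : ℝ) (k : ℤ) : E (y - k) = E y := by
  have h : E y = E (y - k) * E k := by rw [← E_add]; congr 1; ring
  rw [h, E_int, mul_one]

lemma E_conj (y : ℝ) : (starRingEnd ℂ) (E y) = E (-y) := by
  unfold E
  rw [← Complex.exp_conj]
  congr 1
  rw [map_mul, Complex.conj_ofReal, Complex.conj_I]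
  push_cast
  ring

lemma E_re (y : ℝ) : (E y).re = Real.cos (2 * Real.pi * y) := by
  unfold E
  rw [Complex.exp_ofReal_mul_I_re]

lemma E_sum {ι : Type*} (s : Finset ι) (f : ι → ℝ) : E (∑ i ∈ s, f i) = ∏ i ∈ s, E (f i) := by
  classical
  induction s using Finset.induction_on with
  | empty => simp [E_zero]
  | insert a s ha ih => rw [Finset.sum_insert ha, Finset.prod_insert ha, E_add, ih]

lemma one_sub_E (y : ℝ) : 4 * nn y ≤ ‖1 - E y‖ := by
  set x : ℝ := y - round y with hx
  have h1 : E y = E x := (E_sub_int y (round y)).symm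
  have h2 : |x| ≤ 1 / 2 := abs_sub_round y
  have h3 : ‖1 - E x‖ ^ 2 = (2 * Real.sin (Real.pi * x)) ^ 2 := by
    rw [← Complex.normSq_eq_norm_sq, Complex.normSq_apply]
    have hre : (1 - E x).re = 1 - Real.cos (2 * (Real.pi * x)) := by
      rw [Complex.sub_re, E_re]; simp [mul_assoc]
    have him : (1 - E x).im = - Real.sin (2 * (Real.pi * x)) := by
      rw [Complex.sub_im]
      unfold E
      rw [Complex.exp_ofReal_mul_I_im]
      simp [mul_assoc]
    rw [hre, him, Real.cos_two_mul, Real.sin_two_mul]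
    have h4 := Real.sin_sq_add_cos_sq (Real.pi * x)
    nlinarith [h4]
  have hpi := Real.pi_pos
  have h5 : 2 * |x| ≤ |Real.sin (Real.pi * x)| := by
    rcases le_total 0 x with h0 | h0
    · have h6 : Real.pi * x ≤ Real.pi / 2 := by
        rw [abs_of_nonneg h0] at h2; nlinarith
      have h7 := Real.mul_le_sin (by positivity : 0 ≤ Real.pi * x) h6
      rw [abs_of_nonneg h0]
      refine le_trans (le_of_eq ?_) (h7.trans (le_abs_self _))
      field_simp
    · have h6 : Real.pi * (-x) ≤ Real.pi / 2 := by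
        rw [abs_of_nonpos h0] at h2; nlinarith
      have h7 := Real.mul_le_sin (mul_nonneg hpi.le (by linarith) : 0 ≤ Real.pi * (-x)) h6
      rw [abs_of_nonpos h0]
      have h8 : Real.sin (Real.pi * (-x)) = - Real.sin (Real.pi * x) := by
        rw [mul_neg, Real.sin_neg]
      rw [h8] at h7
      refine le_trans (le_of_eq ?_) (h7.trans (neg_le_abs _))
      field_simp
  rw [h1]
  have h9 : ‖1 - E x‖ = |2 * Real.sin (Real.pi * x)| := by
    rw [← Real.sqrt_sq (norm_nonneg (1 - E x)), h3, Real.sqrt_sq_eq_abs]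
  rw [h9, abs_mul, abs_two]
  unfold nn
  rw [← hx]
  linarith

lemma geom_E (β : ℝ) (H : ℕ) (hβ : 0 < nn β) :
    ‖∑ x ∈ Finset.Icc (-(H : ℤ)) H, E (x * β)‖ ≤ (nn β)⁻¹ := by
  have h1 : (1 - E β) * ∑ x ∈ Finset.Icc (-(H : ℤ)) H, E (x * β) = E (-(H : ℤ) * β) - E ((H + 1 : ℤ) * β) := by
    have hind : ∀ m : ℕ, (1 - E β) * ∑ x ∈ Finset.Icc (-(H : ℤ)) (-(H : ℤ) + m), E (x * β) =
        E (-(H : ℤ) * β) - E ((-(H : ℤ) + m + 1 : ℤ) * β) := by
      intro m
      induction m with
      | zero =>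
        simp only [Nat.cast_zero, add_zero, Finset.Icc_self, Finset.sum_singleton]
        have : E ((-(H : ℤ) + 1 : ℤ) * β) = E β * E ((-(H : ℤ) : ℤ) * β) := by
          rw [← E_add]; congr 1; push_cast; ring
        rw [this]; push_cast; ring
      | succ m ih =>
        have hins : Finset.Icc (-(H : ℤ)) (-(H : ℤ) + (m + 1 : ℕ)) =
            insert (-(H : ℤ) + (m + 1 : ℕ)) (Finset.Icc (-(H : ℤ)) (-(H : ℤ) + m)) := by
          ext y
          simp only [Finset.mem_Icc, Finset.mem_insert]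
          push_cast
          omega
        rw [hins, Finset.sum_insert (by
          simp only [Finset.mem_Icc, not_and, not_le]
          intro _; push_cast; omega), mul_add, ih]
        have e1 : E ((-(H : ℤ) + (m + 1 : ℕ) + 1 : ℤ) * β) = E β * E ((-(H : ℤ) + (m + 1 : ℕ) : ℤ) * β) := by
          rw [← E_add]; congr 1; push_cast; ring
        have e2 : E ((-(H : ℤ) + m + 1 : ℤ) * β) = E ((-(H : ℤ) + (m + 1 : ℕ) : ℤ) * β) := by
          congr 1
          push_cast
          ring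
        rw [e1, e2]
        ring
    have h2 := hind (2 * H)
    have h3 : -(H : ℤ) + ((2 * H : ℕ) : ℤ) = H := by push_cast; ring
    rw [h3] at h2
    exact h2
  have h4 : ‖1 - E β‖ * ‖∑ x ∈ Finset.Icc (-(H : ℤ)) H, E (x * β)‖ ≤ 2 := by
    rw [← norm_mul, h1]
    refine (norm_sub_le _ _).trans ?_
    rw [E_norm, E_norm]; norm_num
  have h5 := one_sub_E β
  have h6 : 0 ≤ ‖∑ x ∈ Finset.Icc (-(H : ℤ)) H, E (x * β)‖ := norm_nonneg _
  rw [← one_div, le_div_iff₀ hβ]
  nlinarith

/-- the box -/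
noncomputable def Box (n H : ℕ) : Finset (Fin n → ℤ) := Fintype.piFinset (fun _ => Finset.Icc (-(H : ℤ)) H)

lemma card_Box (n H : ℕ) : (Box n H).card = (2 * H + 1) ^ n := by
  unfold Box
  rw [Fintype.card_piFinset_const, Int.card_Icc]
  congr 1
  omega

lemma box_sum {n : ℕ} (α : Fin n → ℝ) (H : ℕ) (k : ℝ) :
    ∑ x ∈ Box n H, E (k * ∑ i, x i * α i) = ∏ i, ∑ x ∈ Finset.Icc (-(H : ℤ)) H, E (x * (k * α i)) := by
  unfold Box
  rw [Finset.prod_univ_sum]
  refine Finset.sum_congr rfl fun x _ => ?_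
  rw [Finset.mul_sum, E_sum]
  refine Finset.prod_congr rfl fun i _ => ?_
  congr 1; ring

lemma box_bound {n : ℕ} (α : Fin n → ℝ) (H : ℕ) (k : ℝ) (hk : ∀ i, 0 < nn (k * α i)) :
    ‖∑ x ∈ Box n H, E (k * ∑ i, x i * α i)‖ ≤ ∏ i, (nn (k * α i))⁻¹ := by
  rw [box_sum, norm_prod]
  exact Finset.prod_le_prod (fun i _ => norm_nonneg _) fun i _ => geom_E _ _ (hk i)

lemma nn_neg (y : ℝ) : nn (-y) = nn y := by
  refine le_antisymm ?_ ?_
  · refine (nn_le _ (-round y)).trans (le_of_eq ?_)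
    unfold nn
    rw [← abs_neg]; congr 1; push_cast; ring
  · refine (nn_le _ (-round (-y))).trans (le_of_eq ?_)
    unfold nn
    rw [← abs_neg]; congr 1; push_cast; ring

/-- the Fejer kernel is large near the integers -/
lemma kernel_low {y : ℝ} {K : ℕ} (hK : 1 ≤ K) (hy : nn y ≤ 1 / (6 * K)) :
    (K : ℝ) / 2 ≤ ‖∑ j ∈ Finset.range K, E (j * y)‖ := by
  have hKr : (1 : ℝ) ≤ K := by exact_mod_cast hK
  set x : ℝ := y - round y with hx
  have h1 : ∀ j : ℕ, E (j * y) = E (j * x) := by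
    intro j
    have : (j : ℝ) * x = j * y - ((j * round y : ℤ) : ℝ) := by rw [hx]; push_cast; ring
    rw [this, E_sub_int]
  have h2 : ∀ j ∈ Finset.range K, (1 / 2 : ℝ) ≤ (E (j * y)).re := by
    intro j hj
    rw [h1, E_re]
    have hj1 : (j : ℝ) ≤ K := by exact_mod_cast (Finset.mem_range.mp hj).le
    have hxa : |x| ≤ 1 / (6 * K) := hy
    have h3 : |2 * Real.pi * (j * x)| ≤ Real.pi / 3 := by
      rw [abs_mul (2 * Real.pi), abs_mul (j : ℝ), abs_of_nonneg (by positivity : (0:ℝ) ≤ 2 * Real.pi), Nat.abs_cast]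
      calc 2 * Real.pi * (j * |x|) ≤ 2 * Real.pi * (K * (1 / (6 * K))) := by gcongr
        _ = Real.pi / 3 := by field_simp; norm_num
    have h4 : Real.cos (Real.pi / 3) ≤ Real.cos |2 * Real.pi * (j * x)| :=
      Real.cos_le_cos_of_nonneg_of_le_pi (abs_nonneg _) (by linarith [Real.pi_pos]) h3
    rw [Real.cos_abs, Real.cos_pi_div_three] at h4
    exact h4
  calc (K : ℝ) / 2 = ∑ j ∈ Finset.range K, (1 / 2 : ℝ) := by
        rw [Finset.sum_const, Finset.card_range, nsmul_eq_mul]; ring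
    _ ≤ ∑ j ∈ Finset.range K, (E (j * y)).re := Finset.sum_le_sum h2
    _ = (∑ j ∈ Finset.range K, E (j * y)).re := by rw [Complex.re_sum]
    _ ≤ _ := Complex.re_le_norm _

theorem fejer_count {n : ℕ} (α : Fin n → ℝ) (H K : ℕ) (hK : 1 ≤ K)
    (hα : ∀ h : ℕ, 1 ≤ h → h < K → ∀ i, 0 < nn (h * α i)) :
    (((Box n H).filter (fun x => nn (∑ i, x i * α i) ≤ 1 / (6 * K))).card : ℝ) ≤
      4 / K * ((2 * H + 1) ^ n + 2 * ∑ h ∈ Finset.Ico 1 K, ∏ i, (nn (h * α i))⁻¹) := by
  classical
  have hKr : (1 : ℝ) ≤ K := by exact_mod_cast hK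
  set S := (Box n H).filter (fun x => nn (∑ i, x i * α i) ≤ 1 / (6 * K)) with hS
  set G : ℕ → ℝ := fun h => ∏ i, (nn (h * α i))⁻¹ with hG
  have hG0 : ∀ h, 0 ≤ G h := fun h => Finset.prod_nonneg fun i _ => inv_nonneg.2 (nn_nonneg _)
  have h1 : (S.card : ℝ) * ((K : ℝ) / 2) ^ 2 ≤ ∑ x ∈ Box n H, ‖∑ j ∈ Finset.range K, E (j * ∑ i, x i * α i)‖ ^ 2 := by
    calc (S.card : ℝ) * ((K : ℝ) / 2) ^ 2 = ∑ x ∈ S, ((K : ℝ) / 2) ^ 2 := by
          rw [Finset.sum_const, nsmul_eq_mul]
      _ ≤ ∑ x ∈ S, ‖∑ j ∈ Finset.range K, E (j * ∑ i, x i * α i)‖ ^ 2 := by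
          refine Finset.sum_le_sum fun x hx => ?_
          exact pow_le_pow_left₀ (by positivity) (kernel_low hK (Finset.mem_filter.mp hx).2) 2
      _ ≤ _ := Finset.sum_le_sum_of_subset_of_nonneg (Finset.filter_subset _ _) fun x _ _ => by positivity
  have h2 : ((∑ x ∈ Box n H, ‖∑ j ∈ Finset.range K, E (j * ∑ i, x i * α i)‖ ^ 2 : ℝ) : ℂ) =
      ∑ j ∈ Finset.range K, ∑ j' ∈ Finset.range K, ∑ x ∈ Box n H, E (((j : ℝ) - j') * ∑ i, x i * α i) := by
    push_cast
    have h3 : ∀ x : Fin n → ℤ, ((‖∑ j ∈ Finset.range K, E (j * ∑ i, x i * α i)‖ : ℂ)) ^ 2 =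
        ∑ j ∈ Finset.range K, ∑ j' ∈ Finset.range K, E (((j : ℝ) - j') * ∑ i, x i * α i) := by
      intro x
      rw [← Complex.mul_conj', map_sum, Finset.sum_mul_sum]
      refine Finset.sum_congr rfl fun j _ => Finset.sum_congr rfl fun j' _ => ?_
      rw [E_conj, ← E_add]
      congr 1; ring
    simp only [h3]
    rw [Finset.sum_comm]
    refine Finset.sum_congr rfl fun j _ => ?_
    rw [Finset.sum_comm]
  have hterm : ∀ j ∈ Finset.range K, ∑ j' ∈ Finset.range K, ‖∑ x ∈ Box n H, E (((j : ℝ) - j') * ∑ i, x i * α i)‖ ≤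
      (2 * H + 1) ^ n + 2 * ∑ h ∈ Finset.Ico 1 K, G h := by
    intro j hj
    have hjK := Finset.mem_range.mp hj
    have hsplit : Finset.range K = (Finset.range j ∪ {j}) ∪ Finset.Ioo j K := by
      ext y; simp only [Finset.mem_range, Finset.mem_union, Finset.mem_singleton, Finset.mem_Ioo]; omega
    have hdis1 : Disjoint (Finset.range j) {j} := by simp
    have hdis2 : Disjoint (Finset.range j ∪ {j}) (Finset.Ioo j K) := by
      rw [Finset.disjoint_left]
      intro y hy
      simp only [Finset.mem_range, Finset.mem_union, Finset.mem_singleton, Finset.mem_Ioo] at hy ⊢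
      omega
    have hlow : ∑ j' ∈ Finset.range j, ‖∑ x ∈ Box n H, E (((j : ℝ) - j') * ∑ i, x i * α i)‖ ≤
        ∑ h ∈ Finset.Ico 1 K, G h := by
      calc ∑ j' ∈ Finset.range j, ‖∑ x ∈ Box n H, E (((j : ℝ) - j') * ∑ i, x i * α i)‖
          ≤ ∑ j' ∈ Finset.range j, G (j - j') := by
            refine Finset.sum_le_sum fun j' hj' => ?_
            have hj'' := Finset.mem_range.mp hj'
            have hc : ((j : ℝ) - j') = ((j - j' : ℕ) : ℝ) := by rw [Nat.cast_sub hj''.le]
            rw [hc]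
            exact box_bound α H _ (hα _ (by omega) (by omega))
        _ = ∑ h ∈ (Finset.range j).image (fun j' => j - j'), G h := by
            rw [Finset.sum_image]
            intro a ha b hb hab
            have h1 := Finset.mem_range.mp ha
            have h2 := Finset.mem_range.mp hb
            simp only at hab
            omega
        _ ≤ _ := by
            refine Finset.sum_le_sum_of_subset_of_nonneg ?_ fun h _ _ => hG0 h
            intro y hy
            rw [Finset.mem_image] at hy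
            obtain ⟨a, ha, rfl⟩ := hy
            have h1 := Finset.mem_range.mp ha
            rw [Finset.mem_Ico]; omega
    have hup : ∑ j' ∈ Finset.Ioo j K, ‖∑ x ∈ Box n H, E (((j : ℝ) - j') * ∑ i, x i * α i)‖ ≤
        ∑ h ∈ Finset.Ico 1 K, G h := by
      calc ∑ j' ∈ Finset.Ioo j K, ‖∑ x ∈ Box n H, E (((j : ℝ) - j') * ∑ i, x i * α i)‖
          ≤ ∑ j' ∈ Finset.Ioo j K, G (j' - j) := by
            refine Finset.sum_le_sum fun j' hj' => ?_
            have hj'' := Finset.mem_Ioo.mp hj'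
            have hc : ((j : ℝ) - j') = -((j' - j : ℕ) : ℝ) := by rw [Nat.cast_sub hj''.1.le]; ring
            rw [hc]
            have h3 : ∀ i, nn (-((j' - j : ℕ) : ℝ) * α i) = nn (((j' - j : ℕ) : ℝ) * α i) := by
              intro i; rw [neg_mul, nn_neg]
            have h4 := box_bound α H (-((j' - j : ℕ) : ℝ)) (fun i => by
              rw [h3]; exact hα _ (by omega) (by omega) i)
            simp only [h3] at h4
            exact h4
        _ = ∑ h ∈ (Finset.Ioo j K).image (fun j' => j' - j), G h := by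
            rw [Finset.sum_image]
            intro a ha b hb hab
            have h1 := Finset.mem_Ioo.mp ha
            have h2 := Finset.mem_Ioo.mp hb
            simp only at hab
            omega
        _ ≤ _ := by
            refine Finset.sum_le_sum_of_subset_of_nonneg ?_ fun h _ _ => hG0 h
            intro y hy
            rw [Finset.mem_image] at hy
            obtain ⟨a, ha, rfl⟩ := hy
            have h1 := Finset.mem_Ioo.mp ha
            rw [Finset.mem_Ico]; omega
    have hmid : ‖∑ x ∈ Box n H, E (((j : ℝ) - j) * ∑ i, x i * α i)‖ ≤ (2 * H + 1) ^ n := by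
      refine (norm_sum_le _ _).trans ?_
      simp only [E_norm, Finset.sum_const, nsmul_eq_mul, mul_one]
      rw [card_Box]; push_cast; rfl
    rw [hsplit, Finset.sum_union hdis2, Finset.sum_union hdis1, Finset.sum_singleton]
    linarith
  have h5 : ∑ x ∈ Box n H, ‖∑ j ∈ Finset.range K, E (j * ∑ i, x i * α i)‖ ^ 2 ≤
      K * ((2 * H + 1) ^ n + 2 * ∑ h ∈ Finset.Ico 1 K, G h) := by
    have h6 : ∑ x ∈ Box n H, ‖∑ j ∈ Finset.range K, E (j * ∑ i, x i * α i)‖ ^ 2 ≤
        ‖((∑ x ∈ Box n H, ‖∑ j ∈ Finset.range K, E (j * ∑ i, x i * α i)‖ ^ 2 : ℝ) : ℂ)‖ := by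
      rw [Complex.norm_real]; exact le_abs_self _
    refine h6.trans ?_
    rw [h2]
    refine (norm_sum_le _ _).trans ?_
    calc _ ≤ ∑ j ∈ Finset.range K, ((2 * H + 1) ^ n + 2 * ∑ h ∈ Finset.Ico 1 K, G h) := by
          refine Finset.sum_le_sum fun j hj => ?_
          exact (norm_sum_le _ _).trans (hterm j hj)
      _ = _ := by rw [Finset.sum_const, Finset.card_range, nsmul_eq_mul]
  have h7 := h1.trans h5
  have h8 : (S.card : ℝ) * (K : ℝ) ≤ 4 * ((2 * H + 1) ^ n + 2 * ∑ h ∈ Finset.Ico 1 K, G h) := by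
    have h9 : (S.card : ℝ) * (K : ℝ) * K ≤ 4 * ((2 * H + 1) ^ n + 2 * ∑ h ∈ Finset.Ico 1 K, G h) * K := by
      nlinarith
    exact le_of_mul_le_mul_right h9 (by linarith)
  rw [div_mul_eq_mul_div, le_div_iff₀ (by linarith)]
  exact h8

end Pool.Agent.Y22.LG
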