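import Mathlib
import Pool.Agent.Y22.LG3

set_option autoImplicit false

/-! The exceptional set for one denominator. -/

namespace Pool.Agent.Y22.LG

open Finset

/-- residue classes -/
lemma card_res {N g N' q' : ℕ} (hN : N = g * N') (hN' : 1 ≤ N') (hco : Nat.Coprime q' N') (z : ℤ) :
    ((Finset.range N).filter (fun a : ℕ => (N' : ℤ) ∣ q' * a - z)).card ≤ g := by
  classical
  calc ((Finset.range N).filter (fun a : ℕ => (N' : ℤ) ∣ q' * a - z)).card
      ≤ (Finset.range g).card := by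
        refine Finset.card_le_card_of_injOn (fun a => a / N') ?_ ?_
        · intro a ha
          have ha' := (Finset.mem_filter.mp (Finset.mem_coe.mp ha)).1
          rw [Finset.mem_range] at ha'
          simp only [Finset.coe_range, Set.mem_Iio]
          rw [Nat.div_lt_iff_lt_mul (by omega)]
          omega
        · intro a ha b hb hab
          have ha' := (Finset.mem_filter.mp (Finset.mem_coe.mp ha)).2
          have hb' := (Finset.mem_filter.mp (Finset.mem_coe.mp hb)).2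
          simp only at hab
          have h1 : (N' : ℤ) ∣ q' * ((a : ℤ) - b) := by
            have := dvd_sub ha' hb'
            have e : (q' : ℤ) * a - z - (q' * b - z) = q' * ((a : ℤ) - b) := by ring
            rwa [e] at this
          have h2 : IsCoprime (N' : ℤ) (q' : ℤ) := by
            rw [Nat.isCoprime_iff_coprime]; exact hco.symm
          have h3 : (N' : ℤ) ∣ (a : ℤ) - b := h2.dvd_of_dvd_mul_left h1
          have h4 : (a : ℤ) ≡ b [ZMOD N'] := (Int.modEq_iff_dvd.mpr (by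
            have := dvd_neg.mpr h3
            rwa [neg_sub] at this))
          have h5 : a % N' = b % N' := by
            have := Int.natCast_modEq_iff.mp h4
            exact this
          rw [← Nat.div_add_mod a N', ← Nat.div_add_mod b N', hab, h5]
    _ = g := Finset.card_range g

open Classical in
/-- the exceptional set for one vector and one denominator -/
lemma card_one {N g N' q' : ℕ} (hN : N = g * N') (hN' : 1 ≤ N') (hco : Nat.Coprime q' N') (y δ : ℝ) (hδ : 0 ≤ δ) :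
    (((Finset.range N).filter (fun a : ℕ => ∃ p : ℤ, |q' * ((a : ℝ) + y) - p * N'| ≤ δ)).card : ℝ) ≤
      g * (2 * δ + 1) := by
  set Z : Finset ℤ := Finset.Icc ⌈-(q' * y) - δ⌉ ⌊-(q' * y) + δ⌋ with hZ
  have hsub : ((Finset.range N).filter (fun a : ℕ => ∃ p : ℤ, |q' * ((a : ℝ) + y) - p * N'| ≤ δ)) ⊆
      Z.biUnion (fun z => (Finset.range N).filter (fun a : ℕ => (N' : ℤ) ∣ q' * a - z)) := by
    intro a ha
    obtain ⟨ha1, p, hp⟩ := Finset.mem_filter.mp ha
    rw [Finset.mem_biUnion]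
    refine ⟨q' * a - p * N', ?_, ?_⟩
    · rw [hZ, Finset.mem_Icc]
      obtain ⟨h1, h2⟩ := abs_le.mp hp
      constructor
      · rw [Int.ceil_le]; push_cast; linarith
      · rw [Int.le_floor]; push_cast; linarith
    · rw [Finset.mem_filter]
      refine ⟨ha1, ⟨p, by ring⟩⟩
  have h1 : ((Finset.range N).filter (fun a : ℕ => ∃ p : ℤ, |q' * ((a : ℝ) + y) - p * N'| ≤ δ)).card ≤ Z.card * g := by
    refine (Finset.card_le_card hsub).trans (Finset.card_biUnion_le.trans ?_)
    calc _ ≤ ∑ z ∈ Z, g := Finset.sum_le_sum fun z _ => card_res hN hN' hco z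
      _ = _ := by rw [Finset.sum_const, smul_eq_mul]
  have h2 : (Z.card : ℝ) ≤ 2 * δ + 1 := by
    rw [hZ, Int.card_Icc]
    have h3 := Int.floor_le (-(q' * y) + δ)
    have h4 := Int.le_ceil (-(q' * y) - δ)
    rcases le_total (⌊-(q' * y) + δ⌋ + 1 - ⌈-(q' * y) - δ⌉) 0 with h5 | h5
    · rw [Int.toNat_of_nonpos h5]; push_cast; linarith
    · have h6 : (((⌊-(q' * y) + δ⌋ + 1 - ⌈-(q' * y) - δ⌉).toNat : ℤ) : ℝ) = ((⌊-(q' * y) + δ⌋ + 1 - ⌈-(q' * y) - δ⌉ : ℤ) : ℝ) := by
        rw [Int.toNat_of_nonneg h5]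
      rw [Int.cast_natCast] at h6
      rw [h6]; push_cast; linarith
  calc (((Finset.range N).filter (fun a : ℕ => ∃ p : ℤ, |q' * ((a : ℝ) + y) - p * N'| ≤ δ)).card : ℝ)
      ≤ ((Z.card * g : ℕ) : ℝ) := by exact_mod_cast h1
    _ = g * Z.card := by push_cast; ring
    _ ≤ _ := mul_le_mul_of_nonneg_left h2 (by positivity)

open Classical in
/-- nothing if the fractional part is large -/
lemma none_one {N N' q' : ℕ} (y δ : ℝ) (h : δ < nn (q' * y)) :
    ((Finset.range N).filter (fun a : ℕ => ∃ p : ℤ, |q' * ((a : ℝ) + y) - p * N'| ≤ δ)) = ∅ := by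
  rw [Finset.filter_eq_empty_iff]
  rintro a _ ⟨p, hp⟩
  have h1 := nn_le (q' * y) (p * N' - q' * a)
  have h2 : |(q' : ℝ) * y - ((p * N' - q' * a : ℤ) : ℝ)| = |q' * ((a : ℝ) + y) - p * N'| := by
    congr 1; push_cast; ring
  rw [h2] at h1
  linarith

open Classical in
/-- the exceptional pairs for one denominator -/
noncomputable def BadQ {n : ℕ} (θ : Fin n → ℝ) (N H q : ℕ) (t : ℝ) : Finset (ℕ × (Fin n → ℤ)) :=
  (Finset.range N ×ˢ Box n H).filter (fun z => ∃ p : ℤ, |((z.1 : ℝ) + ∑ i, z.2 i * θ i) / N - p / q| ≤ t)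

open Classical in
theorem per_q {n : ℕ} {θ : Fin n → ℝ} (hpos : ∀ m : ℕ, 1 ≤ m → ∀ i, 0 < nn (m * θ i)) {N H q : ℕ}
    (hN : 1 ≤ N) (hq : 1 ≤ q) {t : ℝ} (ht : 0 < t) :
    ((BadQ θ N H q t).card : ℝ) ≤ 96 * (t * q * N) * (2 * H + 1) ^ n + 192 * (t * q * N) *
      ∑ h ∈ Finset.Icc 1 ⌊1 / (6 * (t * q * (N / Nat.gcd q N : ℕ)))⌋₊, PF θ (h * (q / Nat.gcd q N)) := by
  set g := Nat.gcd q N with hg
  have hg1 : 0 < g := Nat.gcd_pos_of_pos_left _ (by omega)
  obtain ⟨q', hq'⟩ : g ∣ q := Nat.gcd_dvd_left _ _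
  obtain ⟨N', hN'⟩ : g ∣ N := Nat.gcd_dvd_right _ _
  have eq1 : q / g = q' := by rw [hq']; exact Nat.mul_div_cancel_left _ hg1
  have eq2 : N / g = N' := by rw [hN']; exact Nat.mul_div_cancel_left _ hg1
  have hN'1 : 1 ≤ N' := by
    rcases Nat.eq_zero_or_pos N' with h | h
    · rw [h] at hN'; omega
    · exact h
  have hq'1 : 1 ≤ q' := by
    rcases Nat.eq_zero_or_pos q' with h | h
    · rw [h] at hq'; omega
    · exact h
  have hco : Nat.Coprime q' N' := by
    have := Nat.coprime_div_gcd_div_gcd (m := q) (n := N) hg1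
    rw [← hg, eq1, eq2] at this
    exact this
  rw [eq1, eq2]
  set δ : ℝ := t * q * N' with hδ
  have hgr : (0 : ℝ) < g := by exact_mod_cast hg1
  have hqr : (0 : ℝ) < q := by exact_mod_cast hq
  have hNr : (0 : ℝ) < N := by exact_mod_cast hN
  have hN'r : (1 : ℝ) ≤ N' := by exact_mod_cast hN'1
  have hδ0 : 0 < δ := by rw [hδ]; positivity
  have hqg : (q : ℝ) = g * q' := by rw [hq']; push_cast; ring
  have hNg : (N : ℝ) = g * N' := by rw [hN']; push_cast; ring
  have hgδ : (g : ℝ) * δ = t * q * N := by rw [hδ, hNg]; ring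
  -- fibres
  have hfib : ∀ x ∈ Box n H, (((BadQ θ N H q t).filter (fun z => z.2 = x)).card : ℝ) ≤
      if nn (∑ i, x i * ((q' : ℝ) * θ i)) ≤ δ then (g : ℝ) * (2 * δ + 1) else 0 := by
    intro x _
    set y : ℝ := ∑ i, x i * θ i with hy
    have hy' : ∑ i, x i * ((q' : ℝ) * θ i) = q' * y := by
      rw [hy, Finset.mul_sum]
      exact Finset.sum_congr rfl fun i _ => by ring
    have hle : ((BadQ θ N H q t).filter (fun z => z.2 = x)).card ≤
        ((Finset.range N).filter (fun a : ℕ => ∃ p : ℤ, |q' * ((a : ℝ) + y) - p * N'| ≤ δ)).card := by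
      refine Finset.card_le_card_of_injOn (fun z => z.1) ?_ ?_
      · intro z hz
        rw [Finset.mem_coe, Finset.mem_filter] at hz
        obtain ⟨hz1, hz2⟩ := hz
        unfold BadQ at hz1
        rw [Finset.mem_filter, Finset.mem_product] at hz1
        obtain ⟨⟨hz3, hz4⟩, p, hp⟩ := hz1
        rw [Finset.mem_coe, Finset.mem_filter]
        refine ⟨hz3, p, ?_⟩
        rw [hz2, ← hy] at hp
        have h1 : q' * ((z.1 : ℝ) + y) - p * N' = q * N' * (((z.1 : ℝ) + y) / N - p / q) := by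
          rw [hqg, hNg]; field_simp
        rw [h1, abs_mul, abs_of_nonneg (by positivity : (0:ℝ) ≤ q * N')]
        calc (q : ℝ) * N' * |((z.1 : ℝ) + y) / N - p / q| ≤ q * N' * t := by gcongr
          _ = δ := by rw [hδ]; ring
      · intro a ha b hb hab
        have ha2 := (Finset.mem_filter.mp (Finset.mem_coe.mp ha)).2
        have hb2 := (Finset.mem_filter.mp (Finset.mem_coe.mp hb)).2
        exact Prod.ext hab (ha2.trans hb2.symm)
    have hle' : (((BadQ θ N H q t).filter (fun z => z.2 = x)).card : ℝ) ≤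
        (((Finset.range N).filter (fun a : ℕ => ∃ p : ℤ, |q' * ((a : ℝ) + y) - p * N'| ≤ δ)).card : ℝ) := by
      exact_mod_cast hle
    rw [hy']
    split_ifs with h
    · exact hle'.trans (card_one hN' hN'1 hco y δ hδ0.le)
    · rw [none_one y δ (not_le.mp h)] at hle'
      simpa using hle'
  have hmaps : ∀ z ∈ BadQ θ N H q t, z.2 ∈ Box n H := by
    intro z hz
    unfold BadQ at hz
    exact (Finset.mem_product.mp (Finset.mem_filter.mp hz).1).2
  have htot : ((BadQ θ N H q t).card : ℝ) ≤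
      (((Box n H).filter (fun x => nn (∑ i, x i * ((q' : ℝ) * θ i)) ≤ δ)).card : ℝ) * (g * (2 * δ + 1)) := by
    rw [Finset.card_eq_sum_card_fiberwise hmaps]
    push_cast
    refine (Finset.sum_le_sum hfib).trans (le_of_eq ?_)
    rw [← Finset.sum_filter, Finset.sum_const, nsmul_eq_mul]
  have hPF0 : 0 ≤ ∑ h ∈ Finset.Icc 1 ⌊1 / (6 * δ)⌋₊, PF θ (h * q') :=
    Finset.sum_nonneg fun h _ => PF_nonneg _ _
  rcases le_or_gt (1 / 6) δ with hcase | hcase
  · have h1 : (((Box n H).filter (fun x => nn (∑ i, x i * ((q' : ℝ) * θ i)) ≤ δ)).card : ℝ) ≤ (2 * H + 1) ^ n := by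
      have h2 := Finset.card_filter_le (Box n H) (fun x => nn (∑ i, x i * ((q' : ℝ) * θ i)) ≤ δ)
      rw [card_Box] at h2
      calc (((Box n H).filter (fun x => nn (∑ i, x i * ((q' : ℝ) * θ i)) ≤ δ)).card : ℝ)
          ≤ (((2 * H + 1) ^ n : ℕ) : ℝ) := by exact_mod_cast h2
        _ = _ := by push_cast; rfl
    calc ((BadQ θ N H q t).card : ℝ) ≤ (2 * H + 1) ^ n * (g * (2 * δ + 1)) :=
          htot.trans (mul_le_mul_of_nonneg_right h1 (by positivity))
      _ ≤ (2 * H + 1) ^ n * (g * (8 * δ)) := by gcongr; linarith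
      _ = 8 * (t * q * N) * (2 * H + 1) ^ n := by rw [← hgδ]; ring
      _ ≤ 96 * (t * q * N) * (2 * H + 1) ^ n := by gcongr; norm_num
      _ ≤ _ := by
        have : 0 ≤ 192 * (t * q * N) * ∑ h ∈ Finset.Icc 1 ⌊1 / (6 * δ)⌋₊, PF θ (h * q') := by positivity
        linarith
  · set K : ℕ := ⌊1 / (6 * δ)⌋₊ with hK
    have h6 : 1 ≤ 1 / (6 * δ) := by rw [le_div_iff₀ (by positivity)]; linarith
    have hK1 : 1 ≤ K := by rw [hK]; exact Nat.le_floor (by exact_mod_cast h6)
    have hKr : (1 : ℝ) ≤ K := by exact_mod_cast hK1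
    have hKle : (K : ℝ) ≤ 1 / (6 * δ) := Nat.floor_le (by positivity)
    have hKge : 1 / (6 * δ) < K + 1 := Nat.lt_floor_add_one _
    have hδK : δ ≤ 1 / (6 * K) := by
      rw [le_div_iff₀ (by positivity)] at hKle ⊢
      linarith
    have hKδ : 1 / (K : ℝ) ≤ 12 * δ := by
      rw [div_le_iff₀ (by linarith)]
      rw [div_lt_iff₀ (by positivity)] at hKge
      nlinarith
    have hcount := fejer_count (fun i => (q' : ℝ) * θ i) H K hK1 (by
      intro h hh _ i
      have := hpos (h * q') (Nat.mul_pos hh hq'1) i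
      have e : ((h * q' : ℕ) : ℝ) * θ i = h * (q' * θ i) := by push_cast; ring
      rw [e] at this
      exact this)
    have hsub : (((Box n H).filter (fun x => nn (∑ i, x i * ((q' : ℝ) * θ i)) ≤ δ)).card : ℝ) ≤
        (((Box n H).filter (fun x => nn (∑ i, x i * ((q' : ℝ) * θ i)) ≤ 1 / (6 * K))).card : ℝ) := by
      have : ((Box n H).filter (fun x => nn (∑ i, x i * ((q' : ℝ) * θ i)) ≤ δ)) ⊆
          ((Box n H).filter (fun x => nn (∑ i, x i * ((q' : ℝ) * θ i)) ≤ 1 / (6 * K))) :=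
        Finset.monotone_filter_right _ fun x _ hx => hx.trans hδK
      exact_mod_cast Finset.card_le_card this
    have hPFeq : ∑ h ∈ Finset.Ico 1 K, ∏ i, (nn (h * ((q' : ℝ) * θ i)))⁻¹ = ∑ h ∈ Finset.Ico 1 K, PF θ (h * q') := by
      refine Finset.sum_congr rfl fun h _ => ?_
      unfold PF
      refine Finset.prod_congr rfl fun i _ => ?_
      congr 2; push_cast; ring
    have hPFle : ∑ h ∈ Finset.Ico 1 K, PF θ (h * q') ≤ ∑ h ∈ Finset.Icc 1 K, PF θ (h * q') :=
      Finset.sum_le_sum_of_subset_of_nonneg Finset.Ico_subset_Icc_self fun h _ _ => PF_nonneg _ _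
    rw [hPFeq] at hcount
    have h7 : (((Box n H).filter (fun x => nn (∑ i, x i * ((q' : ℝ) * θ i)) ≤ δ)).card : ℝ) ≤
        48 * δ * ((2 * H + 1) ^ n + 2 * ∑ h ∈ Finset.Icc 1 K, PF θ (h * q')) := by
      refine hsub.trans (hcount.trans ?_)
      have h8 : 4 / (K : ℝ) ≤ 48 * δ := by
        have : 4 / (K : ℝ) = 4 * (1 / K) := by ring
        rw [this]; linarith
      refine mul_le_mul h8 (by linarith) ?_ (by positivity)
      have : 0 ≤ ∑ h ∈ Finset.Ico 1 K, PF θ (h * q') := Finset.sum_nonneg fun h _ => PF_nonneg _ _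
      positivity
    calc ((BadQ θ N H q t).card : ℝ)
        ≤ (48 * δ * ((2 * H + 1) ^ n + 2 * ∑ h ∈ Finset.Icc 1 K, PF θ (h * q'))) * (g * (2 * δ + 1)) :=
          htot.trans (mul_le_mul_of_nonneg_right h7 (by positivity))
      _ ≤ (48 * δ * ((2 * H + 1) ^ n + 2 * ∑ h ∈ Finset.Icc 1 K, PF θ (h * q'))) * (g * 2) := by
          refine mul_le_mul_of_nonneg_left ?_ (by positivity)
          exact mul_le_mul_of_nonneg_left (by linarith) hgr.le
      _ = 96 * (g * δ) * (2 * H + 1) ^ n + 192 * (g * δ) * ∑ h ∈ Finset.Icc 1 K, PF θ (h * q') := by ring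
      _ = _ := by rw [hgδ]

end Pool.Agent.Y22.LG
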