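import Mathlib
import Pool.Agent.TH286.GT.All
import Pool.Agent.Y22.LG1

set_option autoImplicit false

/-! Schmidt's theorem on products of distances to the nearest integer, from the subspace theorem
`Pool.Agent.TH286.GT.subspaceO`. -/

namespace Pool.Agent.Y22.LG

open Finset Filter Topology
open Pool.Agent.TH286.GT (SubOStmt DataO Lat bet SizeO SolO)
open scoped NumberField

/-- a ring of integers with multiples of the numbers `θ i` -/
lemma exists_ring {n : ℕ} (θ : Fin n → ℝ) (halg : ∀ i, IsAlgebraic ℚ (θ i)) :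
    ∃ (O : Type) (_ : CommRing O) (_ : IsDomain O) (_ : CharZero O) (_ : Module.Free ℤ O) (_ : Module.Finite ℤ O)
      (φ : O →+* ℂ) (D : Fin n → ℤ) (o : Fin n → O), (∀ i, D i ≠ 0) ∧ (∀ i, φ (o i) = ((D i * θ i : ℝ) : ℂ)) := by
  classical
  let K := IntermediateField.adjoin ℚ (Set.range θ)
  have hfd : FiniteDimensional ℚ K := by
    have : Finite (Set.range θ) := Set.finite_range θ |>.to_subtype
    refine IntermediateField.finiteDimensional_adjoin (S := Set.range θ) fun x hx => ?_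
    obtain ⟨i, rfl⟩ := hx
    exact (halg i).isIntegral
  have : NumberField K := { }
  have hmem : ∀ i, θ i ∈ K := fun i => IntermediateField.subset_adjoin ℚ _ ⟨i, rfl⟩
  have h1 : ∀ i, ∃ d : ℤ, d ≠ 0 ∧ IsIntegral ℤ (d • (⟨θ i, hmem i⟩ : K)) := by
    intro i
    have h2 : IsAlgebraic ℚ (⟨θ i, hmem i⟩ : K) := Algebra.IsAlgebraic.isAlgebraic _
    have h3 : IsAlgebraic ℤ (⟨θ i, hmem i⟩ : K) := (IsFractionRing.isAlgebraic_iff ℤ ℚ K).mpr h2
    obtain ⟨d, hd, hi⟩ := h3.exists_integral_multiple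
    exact ⟨d, hd, hi⟩
  choose D hD hint using h1
  have h2 : ∀ i, ∃ y : 𝓞 K, algebraMap (𝓞 K) K y = D i • (⟨θ i, hmem i⟩ : K) := fun i =>
    (IsIntegralClosure.isIntegral_iff (R := ℤ) (A := 𝓞 K) (B := K)).mp (hint i)
  choose o ho using h2
  refine ⟨𝓞 K, inferInstance, inferInstance, inferInstance, inferInstance, inferInstance,
    (algebraMap ℝ ℂ).comp ((algebraMap K ℝ).comp (algebraMap (𝓞 K) K)), D, o, hD, fun i => ?_⟩
  rw [RingHom.comp_apply, RingHom.comp_apply, ho]
  have h5 : algebraMap K ℝ (D i • (⟨θ i, hmem i⟩ : K)) = D i * θ i := by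
    rw [zsmul_eq_mul, map_mul, map_intCast]
    rfl
  rw [h5]
  simp

/-- the matrix of the forms -/
def MM {O : Type} [CommRing O] {n : ℕ} (D : Fin n → ℤ) (o : Fin n → O) : Matrix (Fin (n + 1)) (Fin (n + 1)) O :=
  Matrix.of fun l j => Fin.cases (if j = 0 then (1 : O) else 0)
    (fun i => if j = 0 then o i else if j = i.succ then -((D i : ℤ) : O) else 0) l

lemma MM_zero {O : Type} [CommRing O] {n : ℕ} (D : Fin n → ℤ) (o : Fin n → O) (j : Fin (n + 1)) :
    MM D o 0 j = if j = 0 then (1 : O) else 0 := rfl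

lemma MM_succ {O : Type} [CommRing O] {n : ℕ} (D : Fin n → ℤ) (o : Fin n → O) (i : Fin n) (j : Fin (n + 1)) :
    MM D o i.succ j = if j = 0 then o i else if j = i.succ then -((D i : ℤ) : O) else 0 := rfl

lemma MM_det {O : Type} [CommRing O] [IsDomain O] [CharZero O] {n : ℕ} (D : Fin n → ℤ) (hD : ∀ i, D i ≠ 0) (o : Fin n → O) :
    (MM D o).det ≠ 0 := by
  have htri : (MM D o).BlockTriangular OrderDual.toDual := by
    intro i j hij
    have hij' : i < j := hij
    refine Fin.cases ?_ (fun i => ?_) i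
      (motive := fun i => i < j → MM D o i j = 0) hij'
    · intro h
      rw [MM_zero, if_neg (ne_of_gt h)]
    · intro h
      have h0 : j ≠ 0 := by
        intro h0; rw [h0] at h; exact absurd h (Fin.not_lt_zero _)
      rw [MM_succ, if_neg h0, if_neg (ne_of_gt h)]
  rw [Matrix.det_of_isLowerTriangular _ htri, Fin.prod_univ_succ]
  refine mul_ne_zero ?_ (Finset.prod_ne_zero_iff.mpr fun i _ => ?_)
  · rw [MM_zero, if_pos rfl]; exact one_ne_zero
  · rw [MM_succ, if_neg (Fin.succ_ne_zero i), if_pos rfl]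
    exact neg_ne_zero.mpr (by exact_mod_cast hD i)

lemma MM_apply_zero {O : Type} [CommRing O] {n : ℕ} (D : Fin n → ℤ) (o : Fin n → O) (x : Fin (n + 1) → ℤ) :
    ∑ j, MM D o 0 j * ((x j : ℤ) : O) = ((x 0 : ℤ) : O) := by
  rw [Fin.sum_univ_succ]
  simp only [MM_zero, if_true, one_mul, Fin.succ_ne_zero, if_false, zero_mul, Finset.sum_const_zero, add_zero]

lemma MM_apply_succ {O : Type} [CommRing O] {n : ℕ} (D : Fin n → ℤ) (o : Fin n → O) (x : Fin (n + 1) → ℤ) (i : Fin n) :
    ∑ j, MM D o i.succ j * ((x j : ℤ) : O) = o i * ((x 0 : ℤ) : O) - ((D i : ℤ) : O) * ((x i.succ : ℤ) : O) := by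
  rw [Fin.sum_univ_succ]
  have h1 : ∑ j : Fin n, MM D o i.succ j.succ * ((x j.succ : ℤ) : O) = -((D i : ℤ) : O) * ((x i.succ : ℤ) : O) := by
    rw [Finset.sum_eq_single i]
    · rw [MM_succ, if_neg (Fin.succ_ne_zero i), if_pos rfl]
    · intro j _ hj
      rw [MM_succ, if_neg (Fin.succ_ne_zero j), if_neg (fun h => hj (Fin.succ_injective _ h)), zero_mul]
    · intro h; exact absurd (Finset.mem_univ i) h
  rw [h1, MM_succ, if_pos rfl]
  ring

theorem prod_lower {n : ℕ} (θ : Fin n → ℝ) (halg : ∀ i, IsAlgebraic ℚ (θ i))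
    (hind : ∀ y : Fin (n + 1) → ℤ, (y 0 : ℝ) + ∑ i : Fin n, y i.succ * θ i = 0 → y = 0) {τ : ℝ} (hτ : 0 < τ) :
    ∃ c : ℝ, PLow θ τ c := by
  classical
  have hpos : ∀ m : ℕ, 1 ≤ m → ∀ i, 0 < nn (m * θ i) := by
    intro m hm i
    rcases (nn_nonneg (m * θ i)).lt_or_eq with h | h
    · exact h
    · exfalso
      have h1 : (m : ℝ) * θ i - round ((m : ℝ) * θ i) = 0 := abs_eq_zero.mp h.symm
      have h2 := hind (Fin.cases (-round ((m : ℝ) * θ i)) (fun j => if j = i then (m : ℤ) else 0)) (by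
        simp only [Fin.cases_zero, Fin.cases_succ]
        rw [Finset.sum_eq_single i]
        · simp only [if_true]; push_cast; linarith
        · intro j _ hj; simp [hj]
        · intro h; exact absurd (Finset.mem_univ i) h)
      have h3 := congrFun h2 i.succ
      simp only [Fin.cases_succ, if_true, Pi.zero_apply] at h3
      omega
  by_contra hcon
  push Not at hcon
  -- infinitely many exceptions
  have hinf : ∀ T : ℕ, ∃ m : ℕ, T < m ∧ (m : ℝ) ^ (1 + τ) * ∏ i, nn (m * θ i) < 1 := by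
    intro T
    by_contra hT
    push Not at hT
    set F : ℕ → ℝ := fun m => (m : ℝ) ^ (1 + τ) * ∏ i, nn (m * θ i) with hF
    have hF0 : ∀ m : ℕ, 1 ≤ m → 0 < F m := by
      intro m hm
      have : (0 : ℝ) < m := by exact_mod_cast hm
      exact mul_pos (Real.rpow_pos_of_pos this _) (Finset.prod_pos fun i _ => hpos m hm i)
    have hex : ∃ c : ℝ, 0 < c ∧ ∀ m ∈ Finset.Icc 1 T, c ≤ F m := by
      rcases (Finset.Icc 1 T).eq_empty_or_nonempty with he | hne
      · exact ⟨1, one_pos, fun m hm => by rw [he] at hm; exact absurd hm (Finset.notMem_empty m)⟩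
      · refine ⟨(Finset.Icc 1 T).inf' hne F, ?_, fun m hm => Finset.inf'_le _ hm⟩
        rw [Finset.lt_inf'_iff]
        intro m hm
        exact hF0 m (Finset.mem_Icc.mp hm).1
    obtain ⟨c, hc, hcF⟩ := hex
    refine hcon (min c 1) ⟨lt_min hc one_pos, fun m hm => ?_⟩
    rcases le_or_gt m T with h | h
    · exact (min_le_left _ _).trans (hcF m (Finset.mem_Icc.mpr ⟨hm, h⟩))
    · exact (min_le_right _ _).trans (hT m h)
  obtain ⟨O, i1, i2, i3, i4, i5, φ, D, o, hD, ho⟩ := exists_ring θ halg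
  set LD : ℝ := ∑ i, Real.log |(D i : ℝ)| with hLD
  have hD1 : ∀ i, (1 : ℝ) ≤ |(D i : ℝ)| := by
    intro i
    have : (1 : ℤ) ≤ |D i| := Int.one_le_abs (hD i)
    exact_mod_cast this
  have hlogD : ∀ i, 0 ≤ Real.log |(D i : ℝ)| := fun i => Real.log_nonneg (hD1 i)
  have hLD0 : 0 ≤ LD := Finset.sum_nonneg fun i _ => hlogD i
  have hlogDle : ∀ i, Real.log |(D i : ℝ)| ≤ LD := fun i =>
    Finset.single_le_sum (f := fun i => Real.log |(D i : ℝ)|) (fun j _ => hlogD j) (Finset.mem_univ i)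
  set γ : ℝ := min τ 1 / 2 with hγ
  have hγ0 : 0 < γ := by rw [hγ]; have := lt_min hτ one_pos; linarith
  have hγτ : γ ≤ τ / 2 := by rw [hγ]; have := min_le_left τ 1; linarith
  have hγ1 : γ ≤ 1 / 2 := by rw [hγ]; have := min_le_right τ 1; linarith
  obtain ⟨T0, hT0⟩ := exists_nat_ge (Real.exp (LD / γ + 1))
  choose m hm1 hm2 using fun t : ℕ => hinf (t + 1 + T0)
  have hmr : ∀ t, (2 : ℝ) ≤ m t := fun t => by
    have := hm1 t
    have h2 : 2 ≤ m t := by omega
    exact_mod_cast h2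
  have hm0 : ∀ t, (0 : ℝ) < m t := fun t => by linarith [hmr t]
  have hmT : ∀ t, Real.exp (LD / γ + 1) ≤ m t := fun t => by
    refine hT0.trans ?_
    have := hm1 t
    exact_mod_cast (by omega : T0 ≤ m t)
  set N : ℕ → ℝ := fun t => Real.log (m t) with hN
  have hNge : ∀ t, LD / γ + 1 ≤ N t := fun t => by
    rw [hN]; exact (Real.le_log_iff_exp_le (hm0 t)).mpr (hmT t)
  have hNLD : ∀ t, LD ≤ γ * N t := fun t => by
    have := hNge t
    have h2 : LD / γ ≤ N t := by linarith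
    rw [div_le_iff₀ hγ0] at h2
    linarith
  have hN1 : ∀ t, 1 ≤ N t := fun t => by
    have := hNge t
    have h2 : 0 ≤ LD / γ := div_nonneg hLD0 hγ0.le
    linarith
  have hmtop : Tendsto (fun t => (m t : ℝ)) atTop atTop := by
    refine tendsto_atTop_mono (fun t => ?_) tendsto_natCast_atTop_atTop
    have := hm1 t
    exact_mod_cast (by omega : t ≤ m t)
  have hNtop : Tendsto N atTop atTop := Real.tendsto_log_atTop.comp hmtop
  set W : ℕ := n + 2 with hW
  set Bf : ℕ → Fin n → ℝ := fun t i => max (nn (m t * θ i)) ((m t : ℝ) ^ W)⁻¹ with hBf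
  have hB0 : ∀ t i, 0 < Bf t i := fun t i => lt_max_of_lt_right (by have := hm0 t; positivity)
  have hpw1 : ∀ t, ((m t : ℝ) ^ W)⁻¹ ≤ 1 := fun t => by
    apply inv_le_one_of_one_le₀
    exact one_le_pow₀ (by linarith [hmr t])
  have hB1 : ∀ t i, Bf t i ≤ 1 := fun t i => max_le ((nn_le_half _).trans (by norm_num)) (hpw1 t)
  have hlogW : ∀ t, Real.log ((m t : ℝ) ^ W)⁻¹ = -(W * N t) := fun t => by
    rw [Real.log_inv, Real.log_pow]
  have hlogB : ∀ t i, -(W * N t) ≤ Real.log (Bf t i) := fun t i => by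
    rw [← hlogW]
    exact Real.log_le_log (by have := hm0 t; positivity) (le_max_right _ _)
  have hlogB0 : ∀ t i, Real.log (Bf t i) ≤ 0 := fun t i => Real.log_nonpos (hB0 t i).le (hB1 t i)
  set A : ℕ → Fin (n + 1) → ℝ := fun t => Fin.cases (m t : ℝ) (fun i => |(D i : ℝ)| * Bf t i) with hA
  set x : ℕ → Fin (n + 1) → ℤ := fun t => Fin.cases (m t : ℤ) (fun i => round ((m t : ℝ) * θ i)) with hx
  have hx0 : ∀ t, x t 0 = (m t : ℤ) := fun t => rfl
  have hxs : ∀ t i, x t (Fin.succ i) = round ((m t : ℝ) * θ i) := fun t i => rfl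
  have hlogA : ∀ t (i : Fin n), Real.log (A t i.succ) = Real.log |(D i : ℝ)| + Real.log (Bf t i) := fun t i => by
    have : A t i.succ = |(D i : ℝ)| * Bf t i := rfl
    rw [this, Real.log_mul (by linarith [hD1 i]) (hB0 t i).ne']
  have hsumB : ∀ t, ∑ i, Real.log (Bf t i) ≤ -((1 + 2 * γ) * N t) := by
    intro t
    have hNt := hN1 t
    by_cases hall : ∀ i, ((m t : ℝ) ^ W)⁻¹ ≤ nn (m t * θ i)
    · have h1 : ∀ i, Bf t i = nn (m t * θ i) := fun i => max_eq_left (hall i)
      have h2 : ∑ i, Real.log (Bf t i) = Real.log (∏ i, nn (m t * θ i)) := by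
        rw [Real.log_prod (fun i _ => (hpos (m t) (by have := hm1 t; omega) i).ne')]
        exact Finset.sum_congr rfl fun i _ => by rw [h1]
      rw [h2]
      have h3 := hm2 t
      have h4 : 0 < ∏ i, nn (m t * θ i) := Finset.prod_pos fun i _ => hpos (m t) (by have := hm1 t; omega) i
      have h5 : Real.log ((m t : ℝ) ^ (1 + τ) * ∏ i, nn (m t * θ i)) ≤ 0 :=
        Real.log_nonpos (mul_pos (Real.rpow_pos_of_pos (hm0 t) _) h4).le h3.le
      rw [Real.log_mul (Real.rpow_pos_of_pos (hm0 t) _).ne' h4.ne', Real.log_rpow (hm0 t)] at h5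
      have h6 : (1 + 2 * γ) * N t ≤ (1 + τ) * N t := by
        refine mul_le_mul_of_nonneg_right ?_ (by linarith)
        linarith
      linarith
    · push Not at hall
      obtain ⟨i, hi⟩ := hall
      have h1 : Bf t i = ((m t : ℝ) ^ W)⁻¹ := max_eq_right hi.le
      have h2 : ∑ j, Real.log (Bf t j) ≤ Real.log (Bf t i) := by
        rw [← Finset.add_sum_erase _ _ (Finset.mem_univ i)]
        have : ∑ j ∈ Finset.univ.erase i, Real.log (Bf t j) ≤ 0 := Finset.sum_nonpos fun j _ => hlogB0 t j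
        linarith
      refine h2.trans ?_
      rw [h1, hlogW]
      have hWr : (2 : ℝ) ≤ W := by rw [hW]; push_cast; have : (0:ℝ) ≤ n := Nat.cast_nonneg n; linarith
      nlinarith
  have hsub := Pool.Agent.TH286.GT.subspaceO O φ
  have hreal : ∀ i j, (φ (MM D o i j)).im = 0 := by
    intro i j
    refine Fin.cases ?_ (fun i => ?_) i
    · rw [MM_zero]; split_ifs <;> simp
    · rw [MM_succ]
      split_ifs
      · rw [ho]; simp
      · simp
      · simp
  have hlat : ∀ t : ℕ, Lat (MM D o) (bet (fun v : Fin 0 => (Fin.elim0 v : Fin (n + 1) → O))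
      ((fun (_ : ℕ) (v : Fin 0) => (Fin.elim0 v : ℕ)) t)) ((fun _ : ℕ => (1 : Matrix (Fin (n + 1)) (Fin (n + 1)) ℤ)) t) := by
    intro t
    refine ⟨by simp, ?_⟩
    have h1 : bet (fun v : Fin 0 => (Fin.elim0 v : Fin (n + 1) → O)) (fun v : Fin 0 => (Fin.elim0 v : ℕ)) = fun _ => (1 : O) := by
      funext l
      unfold Pool.Agent.TH286.GT.bet
      simp
    rw [show (Matrix.diagonal (bet (fun v : Fin 0 => (Fin.elim0 v : Fin (n + 1) → O)) (fun v : Fin 0 => (Fin.elim0 v : ℕ)))) = (1 : Matrix (Fin (n+1)) (Fin (n+1)) O) from by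
      rw [h1]; exact Matrix.diagonal_one]
    simp
  have hsize : ∀ t : ℕ, SizeO (1 + W + LD) γ (N t) ((fun _ : ℕ => (1 : Matrix (Fin (n + 1)) (Fin (n + 1)) ℤ)) t) (A t) := by
    intro t
    have hNt := hN1 t
    have hNL := hNLD t
    have hW0 : (0:ℝ) ≤ W := Nat.cast_nonneg W
    refine ⟨?_, ?_, ?_, ?_⟩
    · simp only [Matrix.det_one, Int.cast_one, abs_one, Real.log_one]
      positivity
    · intro l
      refine Fin.cases (hm0 t) (fun i => ?_) l
      exact mul_pos (by linarith [hD1 i]) (hB0 t i)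
    · intro l
      refine Fin.cases ?_ (fun i => ?_) l
      · have : A t 0 = m t := rfl
        rw [this, abs_of_nonneg (by have := hN1 t; rw [hN] at this; linarith)]
        show N t ≤ _
        nlinarith [mul_nonneg hW0 (by linarith : 0 ≤ N t), mul_nonneg hLD0 (by linarith : 0 ≤ N t)]
      · rw [hlogA]
        have h1 := hlogB t i
        have h2 := hlogB0 t i
        have h3 := hlogD i
        have h4 := hlogDle i
        rw [abs_le]
        constructor
        · nlinarith [mul_nonneg hLD0 (by linarith : 0 ≤ N t)]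
        · nlinarith [mul_nonneg hLD0 (by linarith : 0 ≤ N t - 1), mul_nonneg hW0 (by linarith : 0 ≤ N t)]
    · simp only [Matrix.det_one, Int.cast_one, abs_one, Real.log_one]
      rw [Fin.sum_univ_succ]
      have h1 : Real.log (A t 0) = N t := rfl
      have h2 : ∑ i : Fin n, Real.log (A t i.succ) = LD + ∑ i, Real.log (Bf t i) := by
        simp only [hlogA]
        rw [Finset.sum_add_distrib]
      rw [h1, h2]
      have h3 := hsumB t
      nlinarith
  have hnz : ∀ t, x t ≠ 0 := by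
    intro t h
    have h1 := congrFun h 0
    rw [hx0] at h1
    have := hm1 t
    simp only [Pi.zero_apply] at h1
    omega
  have hsol : ∀ t : ℕ, SolO φ (MM D o) ((fun _ : ℕ => (1 : Matrix (Fin (n + 1)) (Fin (n + 1)) ℤ)) t) (A t) (x t) := by
    intro t
    refine ⟨fun l => ?_, ⟨x t, by simp⟩⟩
    refine Fin.cases ?_ (fun i => ?_) l
    · rw [MM_apply_zero, hx0]
      have : A t 0 = m t := rfl
      rw [this]
      simp
    · rw [MM_apply_succ, hx0, hxs]
      have : A t i.succ = |(D i : ℝ)| * Bf t i := rfl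
      rw [this, map_sub, map_mul, map_mul, ho, map_intCast, map_intCast, map_intCast]
      have h1 : ((D i * θ i : ℝ) : ℂ) * (((m t : ℤ)) : ℂ) - ((D i : ℤ) : ℂ) * ((round ((m t : ℝ) * θ i) : ℤ) : ℂ) =
          (((D i : ℝ) * ((m t : ℝ) * θ i - round ((m t : ℝ) * θ i)) : ℝ) : ℂ) := by
        push_cast; ring
      rw [h1, Complex.norm_real, Real.norm_eq_abs, abs_mul]
      refine mul_le_mul_of_nonneg_left ?_ (abs_nonneg _)
      exact le_max_left _ _
  obtain ⟨y, hy0, hy⟩ := hsub (n + 1) 0 (by omega) (MM D o) (MM D o) (fun v => Fin.elim0 v)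
    ⟨MM_det D hD o, hreal, MM_det D hD o, fun v => Fin.elim0 v⟩ (1 + W + LD) γ
    (by have : (0:ℝ) ≤ W := Nat.cast_nonneg W; linarith) hγ0 N hNtop
    (fun _ v => Fin.elim0 v) (fun _ => 1) hlat A hsize x hnz hsol
  have hκ : (y 0 : ℝ) + ∑ i : Fin n, y i.succ * θ i ≠ 0 := fun h => hy0 (hind y h)
  set κ : ℝ := (y 0 : ℝ) + ∑ i : Fin n, y i.succ * θ i with hκdef
  set Y : ℝ := ∑ i : Fin n, |(y i.succ : ℝ)| with hY
  have hev : ∀ᶠ t in atTop, Y / |κ| < m t := hmtop.eventually_gt_atTop _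
  obtain ⟨t, h1, h2⟩ := (hy.and_eventually hev).exists
  rw [Fin.sum_univ_succ] at h1
  have h3 : (y 0 : ℝ) * m t + ∑ i : Fin n, (y i.succ : ℝ) * (round ((m t : ℝ) * θ i) : ℝ) = 0 := by
    have : ((y 0 * x t 0 + ∑ i : Fin n, y i.succ * x t i.succ : ℤ) : ℝ) = 0 := by
      rw [h1]; simp
    push_cast at this
    simpa [hx0, hxs] using this
  have h4 : κ * m t = ∑ i : Fin n, (y i.succ : ℝ) * ((m t : ℝ) * θ i - round ((m t : ℝ) * θ i)) := by
    have h5 : ∑ i : Fin n, (y i.succ : ℝ) * ((m t : ℝ) * θ i - round ((m t : ℝ) * θ i)) =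
        (∑ i : Fin n, y i.succ * θ i) * m t - ∑ i : Fin n, (y i.succ : ℝ) * (round ((m t : ℝ) * θ i) : ℝ) := by
      rw [Finset.sum_mul, ← Finset.sum_sub_distrib]
      exact Finset.sum_congr rfl fun i _ => by ring
    rw [h5, hκdef]
    linarith
  have h6 : |κ| * m t ≤ Y := by
    have h7 : |κ * m t| ≤ Y := by
      rw [h4, hY]
      refine (Finset.abs_sum_le_sum_abs _ _).trans (Finset.sum_le_sum fun i _ => ?_)
      rw [abs_mul]
      have h8 : |(m t : ℝ) * θ i - round ((m t : ℝ) * θ i)| ≤ 1 := (abs_sub_round _).trans (by norm_num)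
      calc |(y i.succ : ℝ)| * |(m t : ℝ) * θ i - round ((m t : ℝ) * θ i)| ≤ |(y i.succ : ℝ)| * 1 := by gcongr
        _ = _ := mul_one _
    rwa [abs_mul, abs_of_pos (hm0 t)] at h7
  rw [div_lt_iff₀ (abs_pos.mpr hκ)] at h2
  linarith

end Pool.Agent.Y22.LG
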