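import Mathlib
import Pool.Agent.Y22.LG1

set_option autoImplicit false

/-! The sum over all `m ≤ M`. -/

namespace Pool.Agent.Y22.LG

open Finset

lemma exists_k {n : ℕ} {θ : Fin n → ℝ} {τ c : ℝ} (h : PLow θ τ c) :
    ∃ k : ℕ → Fin n → ℕ, ∀ m : ℕ, 1 ≤ m → ∀ i, (1 / 2 : ℝ) ^ (k m i + 1) < nn (m * θ i) ∧
      nn (m * θ i) ≤ (1 / 2 : ℝ) ^ (k m i) := by
  have h1 : ∀ m : ℕ, ∀ i : Fin n, ∃ k : ℕ, 1 ≤ m → (1 / 2 : ℝ) ^ (k + 1) < nn (m * θ i) ∧
      nn (m * θ i) ≤ (1 / 2 : ℝ) ^ k := by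
    intro m i
    by_cases hm : 1 ≤ m
    · have h2 := h.pos hm i
      have h3 := nn_le_half (m * θ i)
      obtain ⟨k, hk⟩ := exists_nat_pow_near_of_lt_one h2 (by linarith) (by norm_num : (0:ℝ) < 1 / 2) (by norm_num)
      exact ⟨k, fun _ => hk⟩
    · exact ⟨0, fun h => absurd h hm⟩
  choose k hk using h1
  exact ⟨k, fun m hm i => hk m i hm⟩

lemma prod_nn_le_one {n : ℕ} (θ : Fin n → ℝ) (m : ℕ) : ∏ i, nn (m * θ i) ≤ 1 :=
  Finset.prod_le_one (fun i _ => nn_nonneg _) fun i _ => (nn_le_half _).trans (by norm_num)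

lemma prod_nn_le {n : ℕ} (θ : Fin n → ℝ) (m : ℕ) (i : Fin n) : ∏ j, nn (m * θ j) ≤ nn (m * θ i) := by
  rw [← Finset.mul_prod_erase _ _ (Finset.mem_univ i)]
  calc nn (m * θ i) * ∏ j ∈ Finset.univ.erase i, nn (m * θ j) ≤ nn (m * θ i) * 1 := by
        refine mul_le_mul_of_nonneg_left ?_ (nn_nonneg _)
        exact Finset.prod_le_one (fun i _ => nn_nonneg _) fun i _ => (nn_le_half _).trans (by norm_num)
    _ = _ := mul_one _

theorem sum_PF {n : ℕ} {θ : Fin (n + 1) → ℝ} {τ c : ℝ} (hτ : 0 < τ) (h : PLow θ τ c) :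
    ∃ C : ℝ, 0 < C ∧ ∀ M : ℕ, 1 ≤ M → ∑ m ∈ Icc 1 M, PF θ m ≤ C * (M : ℝ) ^ (1 + 2 * τ) := by
  classical
  have hc := h.1
  obtain ⟨k, hk⟩ := exists_k h
  have hc1 : c ≤ 1 := by
    have h1 := h.2 1 le_rfl
    simp only [Nat.cast_one, Real.one_rpow, one_mul] at h1
    refine h1.trans ?_
    have := prod_nn_le_one θ 1
    simpa using this
  set s : ℝ := τ / ((1 + τ) * (n + 1)) with hs
  have hs0 : 0 < s := by positivity
  have hlog2 : 0 < Real.log 2 := Real.log_pos (by norm_num)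
  set A : ℝ := 1 + 1 / (s * Real.log 2) with hA
  have hA0 : 0 < A := by positivity
  refine ⟨A ^ (n + 1) * (1 / c) ^ (s * (n + 1)) * ((2 ^ (n + 1) + 2 ^ (n + 1) * 2 ^ (n + 2)) * c⁻¹), by positivity, fun M hM => ?_⟩
  have hMr : (1 : ℝ) ≤ M := by exact_mod_cast hM
  set x : ℝ := (M : ℝ) ^ (1 + τ) / c with hx
  have hx1 : 1 ≤ x := by
    rw [hx, le_div_iff₀ hc]
    have := Real.one_le_rpow hMr (by linarith : (0:ℝ) ≤ 1 + τ)
    linarith
  set K : ℕ := ⌊Real.logb 2 x⌋₊ + 1 with hK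
  have hkK : ∀ m ∈ Icc 1 M, k m ∈ Fintype.piFinset (fun _ : Fin (n + 1) => Finset.range K) := by
    intro m hm
    rw [Fintype.mem_piFinset]
    intro i
    rw [Finset.mem_range, hK, Nat.lt_succ_iff]
    obtain ⟨hm1, hmM⟩ := Finset.mem_Icc.mp hm
    have h1 := h.2 m hm1
    have h2 : (m : ℝ) ^ (1 + τ) ≤ (M : ℝ) ^ (1 + τ) :=
      Real.rpow_le_rpow (by positivity) (by exact_mod_cast hmM) (by linarith)
    have h3 : c ≤ (M : ℝ) ^ (1 + τ) * (1 / 2 : ℝ) ^ (k m i) := by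
      refine h1.trans (mul_le_mul h2 ((prod_nn_le θ m i).trans (hk m hm1 i).2)
        (Finset.prod_nonneg fun i _ => nn_nonneg _) (by positivity))
    have h4 : (2 : ℝ) ^ (k m i) ≤ x := by
      rw [hx, le_div_iff₀ hc]
      have h5 : (1 / 2 : ℝ) ^ (k m i) * 2 ^ (k m i) = 1 := by
        rw [← mul_pow]; norm_num
      calc (2 : ℝ) ^ (k m i) * c ≤ 2 ^ (k m i) * ((M : ℝ) ^ (1 + τ) * (1 / 2 : ℝ) ^ (k m i)) := by gcongr
        _ = (M : ℝ) ^ (1 + τ) * ((1 / 2 : ℝ) ^ (k m i) * 2 ^ (k m i)) := by ring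
        _ = _ := by rw [h5, mul_one]
    apply Nat.le_floor
    rw [Real.le_logb_iff_rpow_le (by norm_num) (by linarith), Real.rpow_natCast]
    exact h4
  rw [← Finset.sum_fiberwise_of_maps_to hkK]
  have hfib : ∀ κ ∈ Fintype.piFinset (fun _ : Fin (n + 1) => Finset.range K),
      ∑ m ∈ (Icc 1 M).filter (fun m => k m = κ), PF θ m ≤
        (2 ^ (n + 1) + 2 ^ (n + 1) * 2 ^ (n + 2)) * c⁻¹ * (M : ℝ) ^ (1 + τ) := by
    intro κ _
    set S := (Icc 1 M).filter (fun m => k m = κ) with hSdef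
    set PD : ℝ := ∏ i, (1 / 2 : ℝ) ^ (κ i) with hPD
    have hPD0 : 0 < PD := Finset.prod_pos fun i _ => by positivity
    have hSm : ∀ m ∈ S, 1 ≤ m ∧ m ≤ M ∧ k m = κ := by
      intro m hm
      rw [hSdef, Finset.mem_filter, Finset.mem_Icc] at hm
      exact ⟨hm.1.1, hm.1.2, hm.2⟩
    have hcard := card_class hτ h hM S (fun m hm => ⟨(hSm m hm).1, (hSm m hm).2.1⟩)
      (fun i => (1 / 2 : ℝ) ^ (κ i)) (fun i => by positivity) (fun m hm i => by
        have := (hk m (hSm m hm).1 i).2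
        rw [(hSm m hm).2.2] at this
        exact this)
    have hPF : ∀ m ∈ S, PF θ m ≤ 2 ^ (n + 1) / PD := by
      intro m hm
      unfold PF
      have h1 : ∏ i, (nn (m * θ i))⁻¹ ≤ ∏ i : Fin (n + 1), (2 * ((1 / 2 : ℝ) ^ (κ i))⁻¹) := by
        refine Finset.prod_le_prod (fun i _ => inv_nonneg.2 (nn_nonneg _)) fun i _ => ?_
        have h2 := (hk m (hSm m hm).1 i).1
        rw [(hSm m hm).2.2] at h2
        have h3 : (2 * ((1 / 2 : ℝ) ^ (κ i))⁻¹) = ((1 / 2 : ℝ) ^ (κ i + 1))⁻¹ := by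
          rw [pow_succ, mul_inv]; norm_num; ring
        rw [h3]
        exact inv_anti₀ (by positivity) h2.le
      refine h1.trans (le_of_eq ?_)
      rw [Finset.prod_mul_distrib, Finset.prod_const, Finset.card_univ, Fintype.card_fin,
        Finset.prod_inv_distrib, ← hPD]
      rfl
    by_cases hne : S.Nonempty
    · obtain ⟨m0, hm0⟩ := hne
      have h1 := h.2 m0 (hSm m0 hm0).1
      have h2 : (m0 : ℝ) ^ (1 + τ) ≤ (M : ℝ) ^ (1 + τ) :=
        Real.rpow_le_rpow (by positivity) (by exact_mod_cast (hSm m0 hm0).2.1) (by linarith)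
      have h3 : ∏ i, nn (m0 * θ i) ≤ PD := by
        refine Finset.prod_le_prod (fun i _ => nn_nonneg _) fun i _ => ?_
        have := (hk m0 (hSm m0 hm0).1 i).2
        rw [(hSm m0 hm0).2.2] at this
        exact this
      have h4 : c ≤ (M : ℝ) ^ (1 + τ) * PD :=
        h1.trans (mul_le_mul h2 h3 (Finset.prod_nonneg fun i _ => nn_nonneg _) (by positivity))
      have h5 : 1 / PD ≤ c⁻¹ * (M : ℝ) ^ (1 + τ) := by
        rw [div_le_iff₀ hPD0, mul_assoc, ← div_eq_inv_mul, le_div_iff₀ hc]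
        linarith
      calc ∑ m ∈ S, PF θ m ≤ ∑ m ∈ S, 2 ^ (n + 1) / PD := Finset.sum_le_sum hPF
        _ = S.card * (2 ^ (n + 1) / PD) := by rw [Finset.sum_const, nsmul_eq_mul]
        _ ≤ (1 + 2 ^ (n + 2) * c⁻¹ * PD * (M : ℝ) ^ (1 + τ)) * (2 ^ (n + 1) / PD) := by
          refine mul_le_mul_of_nonneg_right ?_ (by positivity)
          exact hcard
        _ = 2 ^ (n + 1) * (1 / PD) + 2 ^ (n + 1) * 2 ^ (n + 2) * c⁻¹ * (M : ℝ) ^ (1 + τ) := by
          field_simp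
        _ ≤ 2 ^ (n + 1) * (c⁻¹ * (M : ℝ) ^ (1 + τ)) + 2 ^ (n + 1) * 2 ^ (n + 2) * c⁻¹ * (M : ℝ) ^ (1 + τ) := by
          gcongr
        _ = _ := by ring
    · rw [Finset.not_nonempty_iff_eq_empty.mp hne, Finset.sum_empty]
      positivity
  refine (Finset.sum_le_sum hfib).trans ?_
  rw [Finset.sum_const, Fintype.card_piFinset_const, Finset.card_range, nsmul_eq_mul]
  have hKle : (K : ℝ) ≤ A * x ^ s := by
    have h1 : (⌊Real.logb 2 x⌋₊ : ℝ) ≤ Real.logb 2 x := Nat.floor_le (Real.logb_nonneg (by norm_num) hx1)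
    have h2 : Real.logb 2 x ≤ 1 / (s * Real.log 2) * x ^ s := by
      have h3 := Real.log_le_rpow_div (by linarith : 0 ≤ x) hs0
      rw [Real.logb, div_le_iff₀ hlog2]
      refine h3.trans (le_of_eq ?_)
      field_simp
    have h4 : 1 ≤ x ^ s := Real.one_le_rpow hx1 hs0.le
    rw [hK, hA]
    push_cast
    nlinarith
  have hKp : ((K : ℝ)) ^ (n + 1) ≤ A ^ (n + 1) * (1 / c) ^ (s * (n + 1)) * (M : ℝ) ^ τ := by
    have h1 : ((K : ℝ)) ^ (n + 1) ≤ (A * x ^ s) ^ (n + 1) := pow_le_pow_left₀ (by positivity) hKle _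
    refine h1.trans (le_of_eq ?_)
    rw [mul_pow, ← Real.rpow_natCast (x ^ s), ← Real.rpow_mul (by linarith), mul_assoc]
    congr 1
    have h2 : x = 1 / c * (M : ℝ) ^ (1 + τ) := by rw [hx]; ring
    rw [h2, Real.mul_rpow (by positivity) (by positivity), ← Real.rpow_mul (by positivity)]
    push_cast
    congr 2
    rw [hs]
    field_simp
  have hcast : (((K ^ (n + 1) : ℕ)) : ℝ) = (K : ℝ) ^ (n + 1) := by push_cast; ring
  rw [hcast]
  calc (K : ℝ) ^ (n + 1) * ((2 ^ (n + 1) + 2 ^ (n + 1) * 2 ^ (n + 2)) * c⁻¹ * (M : ℝ) ^ (1 + τ))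
      ≤ (A ^ (n + 1) * (1 / c) ^ (s * (n + 1)) * (M : ℝ) ^ τ) *
        ((2 ^ (n + 1) + 2 ^ (n + 1) * 2 ^ (n + 2)) * c⁻¹ * (M : ℝ) ^ (1 + τ)) := by
        gcongr
    _ = A ^ (n + 1) * (1 / c) ^ (s * (n + 1)) * ((2 ^ (n + 1) + 2 ^ (n + 1) * 2 ^ (n + 2)) * c⁻¹) *
        ((M : ℝ) ^ τ * (M : ℝ) ^ (1 + τ)) := by ring
    _ = _ := by
        rw [← Real.rpow_add (by linarith)]
        congr 2
        ring

end Pool.Agent.Y22.LG
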