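import Mathlib
import Pool.Agent.Y22.LG2
import Pool.Agent.H510R2.Div
import Pool.Agent.Results.MP_c307ca_nt.AlmostAllToHeight

set_option autoImplicit false

/-! The sum of the error terms over the denominators. -/

namespace Pool.Agent.Y22.LG

open Finset
open Pool.Agent.Results.MP_c307ca_nt.AlmostAllToHeight (w w_pos w_summable w_eq)

lemma Lq_bound {ε s : ℝ} (hε : 0 < ε) (hs : 0 < s) : ∃ C : ℝ, 0 < C ∧ ∀ q : ℕ, 2 ≤ q →
    Real.log q ^ (1 + ε) ≤ C * (q : ℝ) ^ s := by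
  set s' : ℝ := s / (1 + ε) with hs'
  have hs0 : 0 < s' := by positivity
  refine ⟨(1 / s') ^ (1 + ε), by positivity, fun q hq => ?_⟩
  have hqr : (2 : ℝ) ≤ q := by exact_mod_cast hq
  have h1 := Real.log_le_rpow_div (by linarith : (0:ℝ) ≤ q) hs0
  have h2 : 0 ≤ Real.log q := Real.log_nonneg (by linarith)
  calc Real.log q ^ (1 + ε) ≤ ((q : ℝ) ^ s' / s') ^ (1 + ε) := Real.rpow_le_rpow h2 h1 (by linarith)
    _ = (1 / s') ^ (1 + ε) * ((q : ℝ) ^ s') ^ (1 + ε) := by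
        rw [← Real.mul_rpow (by positivity) (by positivity)]; congr 1; ring
    _ = _ := by
        rw [← Real.rpow_mul (by linarith)]
        congr 2
        rw [hs']; field_simp

/-- regrouping according to `m = h (q / gcd q N)` -/
lemma regroup (a : ℕ → ℝ) (ha : ∀ m, 0 ≤ a m) {N Q M : ℕ} (hN : 1 ≤ N) (K : ℕ → ℕ)
    (hM : ∀ q ∈ Icc 2 Q, ∀ h ∈ Icc 1 (K q), h * (q / Nat.gcd q N) ≤ M) :
    ∑ q ∈ Icc 2 Q, ∑ h ∈ Icc 1 (K q), a (h * (q / Nat.gcd q N)) ≤
      ∑ m ∈ Icc 1 M, (m.divisors.card : ℝ) * N.divisors.card * a m := by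
  classical
  rw [Finset.sum_sigma']
  set P := (Icc 2 Q).sigma (fun q => Icc 1 (K q)) with hP
  set f : (Σ _ : ℕ, ℕ) → ℕ := fun z => z.2 * (z.1 / Nat.gcd z.1 N) with hf
  have hdiv : ∀ q, 2 ≤ q → 1 ≤ q / Nat.gcd q N := by
    intro q hq
    have hg : 0 < Nat.gcd q N := Nat.gcd_pos_of_pos_left _ (by omega)
    exact Nat.div_pos (Nat.le_of_dvd (by omega) (Nat.gcd_dvd_left _ _)) hg
  have hmaps : ∀ z ∈ P, f z ∈ Icc 1 M := by
    intro z hz
    rw [hP, Finset.mem_sigma] at hz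
    have h1 := Finset.mem_Icc.mp hz.1
    have h2 := Finset.mem_Icc.mp hz.2
    rw [Finset.mem_Icc]
    exact ⟨Nat.mul_pos h2.1 (hdiv _ h1.1), hM _ hz.1 _ hz.2⟩
  rw [← Finset.sum_fiberwise_of_maps_to hmaps]
  refine Finset.sum_le_sum fun m hm => ?_
  have hm1 := (Finset.mem_Icc.mp hm).1
  have h1 : ∑ z ∈ P.filter (fun z => f z = m), a (z.2 * (z.1 / Nat.gcd z.1 N)) = ((P.filter (fun z => f z = m)).card : ℝ) * a m := by
    rw [← nsmul_eq_mul, ← Finset.sum_const]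
    refine Finset.sum_congr rfl fun z hz => ?_
    have := (Finset.mem_filter.mp hz).2
    rw [← this]
  rw [h1]
  refine mul_le_mul_of_nonneg_right ?_ (ha m)
  have h2 : (P.filter (fun z => f z = m)).card ≤ (m.divisors ×ˢ N.divisors).card := by
    refine Finset.card_le_card_of_injOn (fun z => (z.1 / Nat.gcd z.1 N, Nat.gcd z.1 N)) ?_ ?_
    · intro z hz
      obtain ⟨hz1, hz2⟩ := Finset.mem_filter.mp (Finset.mem_coe.mp hz)
      rw [Finset.mem_coe, Finset.mem_product, Nat.mem_divisors, Nat.mem_divisors]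
      refine ⟨⟨⟨z.2, ?_⟩, by omega⟩, Nat.gcd_dvd_right _ _, by omega⟩
      rw [← hz2, hf]; ring
    · intro z hz z' hz' heq
      obtain ⟨hz1, hz2⟩ := Finset.mem_filter.mp (Finset.mem_coe.mp hz)
      obtain ⟨hz1', hz2'⟩ := Finset.mem_filter.mp (Finset.mem_coe.mp hz')
      simp only [Prod.mk.injEq] at heq
      obtain ⟨e1, e2⟩ := heq
      rw [hP, Finset.mem_sigma] at hz1 hz1'
      have hq := (Finset.mem_Icc.mp hz1.1).1
      have hq' := (Finset.mem_Icc.mp hz1'.1).1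
      have e3 : z.1 = z'.1 := by
        have a1 := Nat.div_mul_cancel (Nat.gcd_dvd_left z.1 N)
        have a2 := Nat.div_mul_cancel (Nat.gcd_dvd_left z'.1 N)
        rw [← a1, ← a2, e1, e2]
      have e4 : z.2 = z'.2 := by
        have a1 : z.2 * (z.1 / Nat.gcd z.1 N) = z'.2 * (z'.1 / Nat.gcd z'.1 N) := by
          have b1 : f z = f z' := by rw [hz2, hz2']
          exact b1
        rw [e1] at a1
        exact Nat.eq_of_mul_eq_mul_right (hdiv _ hq') a1
      obtain ⟨z1, z2⟩ := z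
      obtain ⟨z1', z2'⟩ := z'
      simp only at e3 e4
      subst e3; subst e4; rfl
  rw [Finset.card_product] at h2
  exact_mod_cast h2

/-- partial summation with the weight `1 / q` -/
lemma weighted (a : ℕ → ℝ) (ha : ∀ q, 0 ≤ a q) {C σ : ℝ} (hC : 0 ≤ C) (hσ : 0 < σ)
    (h : ∀ R : ℕ, 1 ≤ R → ∑ q ∈ Icc 2 R, a q ≤ C * (R : ℝ) ^ (2 + σ)) :
    ∀ Q : ℕ, ∑ q ∈ Icc 2 Q, a q / q ≤ 4 * C * (Q : ℝ) ^ (1 + σ) := by
  intro Q
  induction Q using Nat.strong_induction_on with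
  | _ Q ih =>
    rcases Nat.eq_zero_or_pos Q with h0 | h0
    · subst h0
      simp only [show Icc 2 0 = (∅ : Finset ℕ) from rfl, Finset.sum_empty]
      positivity
    · have hQr : (0 : ℝ) < Q := by exact_mod_cast h0
      have h1 := ih (Q / 2) (Nat.div_lt_self h0 (by norm_num))
      have hsplit : Icc 2 Q ⊆ Icc 2 (Q / 2) ∪ (Icc 2 Q).filter (fun q => Q / 2 < q) := by
        intro q hq
        rw [Finset.mem_union, Finset.mem_filter, Finset.mem_Icc]
        rw [Finset.mem_Icc] at hq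
        by_cases hq2 : q ≤ Q / 2
        · exact Or.inl ⟨hq.1, hq2⟩
        · exact Or.inr ⟨by rw [Finset.mem_Icc]; exact hq, by omega⟩
      have h2 : ∑ q ∈ (Icc 2 Q).filter (fun q => Q / 2 < q), a q / q ≤ 2 * C * (Q : ℝ) ^ (1 + σ) := by
        calc ∑ q ∈ (Icc 2 Q).filter (fun q => Q / 2 < q), a q / q
            ≤ ∑ q ∈ (Icc 2 Q).filter (fun q => Q / 2 < q), 2 / Q * a q := by
              refine Finset.sum_le_sum fun q hq => ?_
              obtain ⟨hq1, hq2⟩ := Finset.mem_filter.mp hq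
              have hq3 := (Finset.mem_Icc.mp hq1).1
              have hqr : (0 : ℝ) < q := by exact_mod_cast (by omega : 0 < q)
              have hq4 : Q ≤ 2 * q := by omega
              have hq5 : (Q : ℝ) ≤ 2 * q := by exact_mod_cast hq4
              rw [div_mul_eq_mul_div, div_le_div_iff₀ hqr hQr]
              nlinarith [ha q]
          _ ≤ ∑ q ∈ Icc 2 Q, 2 / Q * a q :=
              Finset.sum_le_sum_of_subset_of_nonneg (Finset.filter_subset _ _) fun q _ _ => by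
                have := ha q; positivity
          _ = 2 / Q * ∑ q ∈ Icc 2 Q, a q := by rw [Finset.mul_sum]
          _ ≤ 2 / Q * (C * (Q : ℝ) ^ (2 + σ)) := by
              have := h Q h0
              gcongr
          _ = 2 * C * (Q : ℝ) ^ (1 + σ) := by
              have : (Q : ℝ) ^ (2 + σ) = (Q : ℝ) ^ (1 + σ) * Q := by
                rw [show (2 : ℝ) + σ = (1 + σ) + 1 by ring, Real.rpow_add hQr, Real.rpow_one]
              rw [this]; field_simp
      have h3 : ((Q / 2 : ℕ) : ℝ) ^ (1 + σ) ≤ (Q : ℝ) ^ (1 + σ) / 2 := by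
        have h4 : ((Q / 2 : ℕ) : ℝ) ≤ (Q : ℝ) / 2 := Nat.cast_div_le
        calc ((Q / 2 : ℕ) : ℝ) ^ (1 + σ) ≤ ((Q : ℝ) / 2) ^ (1 + σ) :=
              Real.rpow_le_rpow (by positivity) h4 (by linarith)
          _ = (Q : ℝ) ^ (1 + σ) / 2 ^ (1 + σ) := by rw [Real.div_rpow hQr.le (by norm_num)]
          _ ≤ (Q : ℝ) ^ (1 + σ) / 2 := by
              have h5 : (2 : ℝ) ≤ 2 ^ (1 + σ) := by
                calc (2 : ℝ) = 2 ^ (1 : ℝ) := (Real.rpow_one 2).symm
                  _ ≤ _ := Real.rpow_le_rpow_of_exponent_le (by norm_num) (by linarith)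
              gcongr
      calc ∑ q ∈ Icc 2 Q, a q / q
          ≤ ∑ q ∈ Icc 2 (Q / 2) ∪ (Icc 2 Q).filter (fun q => Q / 2 < q), a q / q :=
            Finset.sum_le_sum_of_subset_of_nonneg hsplit fun q _ _ => by have := ha q; positivity
        _ ≤ ∑ q ∈ Icc 2 (Q / 2), a q / q + ∑ q ∈ (Icc 2 Q).filter (fun q => Q / 2 < q), a q / q := by
            rw [← Finset.sum_union_inter]
            have : 0 ≤ ∑ q ∈ Icc 2 (Q / 2) ∩ (Icc 2 Q).filter (fun q => Q / 2 < q), a q / q :=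
              Finset.sum_nonneg fun q _ => by have := ha q; positivity
            linarith
        _ ≤ 4 * C * ((Q : ℝ) ^ (1 + σ) / 2) + 2 * C * (Q : ℝ) ^ (1 + σ) := by
            have := mul_le_mul_of_nonneg_left h3 (by linarith : 0 ≤ 4 * C)
            linarith
        _ = _ := by ring

/-- the error term of one denominator -/
noncomputable def Er {n : ℕ} (θ : Fin n → ℝ) (ε c : ℝ) (N q : ℕ) : ℝ :=
  ∑ h ∈ Finset.Icc 1 ⌊1 / (6 * (c * w ε q * q * (N / Nat.gcd q N : ℕ)))⌋₊, PF θ (h * (q / Nat.gcd q N))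

lemma Er_nonneg {n : ℕ} (θ : Fin n → ℝ) (ε c : ℝ) (N q : ℕ) : 0 ≤ Er θ ε c N q :=
  Finset.sum_nonneg fun h _ => PF_nonneg _ _

theorem Er_sum {n : ℕ} {θ : Fin (n + 1) → ℝ} (hPL : ∀ τ : ℝ, 0 < τ → ∃ c, PLow θ τ c) {ε c σ : ℝ}
    (hε : 0 < ε) (hc : 0 < c) (hσ : 0 < σ) (hσ1 : σ ≤ 1) :
    ∃ C : ℝ, 0 < C ∧ ∀ N : ℕ, 1 ≤ N → ∀ R : ℕ, 1 ≤ R →
      ∑ q ∈ Icc 2 R, Er θ ε c N q ≤ C * (N : ℝ) ^ (σ - 1) * (R : ℝ) ^ (2 + σ) := by
  set s : ℝ := σ / 4 with hs
  set τ : ℝ := σ / 16 with hτ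
  have hs0 : 0 < s := by positivity
  have hτ0 : 0 < τ := by positivity
  obtain ⟨c1, hc1⟩ := hPL τ hτ0
  obtain ⟨C1, hC1, hsum⟩ := sum_PF hτ0 hc1
  obtain ⟨C2, hC2, hdiv⟩ := Pool.Agent.H510R2.divisor_bound τ hτ0
  obtain ⟨C3, hC3, hL⟩ := Lq_bound hε hs0
  set B : ℝ := C3 / (6 * c) with hB
  have hB0 : 0 < B := by positivity
  set e : ℝ := 1 + 3 * τ with he
  have he1 : 1 ≤ e := by rw [he]; linarith
  refine ⟨C2 * C2 * C1 * (B + 1) ^ e, by positivity, fun N hN R hR => ?_⟩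
  have hNr : (1 : ℝ) ≤ N := by exact_mod_cast hN
  have hRr : (1 : ℝ) ≤ R := by exact_mod_cast hR
  set Mr : ℝ := B * (R : ℝ) ^ (2 + s) / N with hMr
  have hMr0 : 0 < Mr := by positivity
  set M : ℕ := ⌊Mr⌋₊ with hM
  have hreg := regroup (fun m => PF θ m) (fun m => PF_nonneg θ m) (N := N) (Q := R) (M := M) hN
    (fun q => ⌊1 / (6 * (c * w ε q * q * (N / Nat.gcd q N : ℕ)))⌋₊) (by
      intro q hq h hh
      obtain ⟨hq1, hq2⟩ := Finset.mem_Icc.mp hq
      obtain ⟨hh1, hh2⟩ := Finset.mem_Icc.mp hh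
      have hqr : (2 : ℝ) ≤ q := by exact_mod_cast hq1
      have hqR : (q : ℝ) ≤ R := by exact_mod_cast hq2
      set g := Nat.gcd q N with hg
      have hg1 : 0 < g := Nat.gcd_pos_of_pos_left _ (by omega)
      have hN' : 1 ≤ N / g := Nat.div_pos (Nat.le_of_dvd hN (Nat.gcd_dvd_right _ _)) hg1
      have hN'r : (1 : ℝ) ≤ ((N / g : ℕ) : ℝ) := by exact_mod_cast hN'
      have hw := w_pos ε q
      have h1 : (h : ℝ) ≤ 1 / (6 * (c * w ε q * q * (N / g : ℕ))) := by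
        refine le_trans ?_ (Nat.floor_le (by positivity))
        exact_mod_cast hh2
      have h2 : w ε q = 1 / ((q : ℝ) ^ 2 * Real.log q ^ (1 + ε)) := by
        have := w_eq ε 1 q hq1
        rw [one_mul] at this
        exact this.symm
      have hlog : 0 < Real.log q := Real.log_pos (by linarith)
      have h3 : (h : ℝ) * (N / g : ℕ) ≤ B * (q : ℝ) ^ (1 + s) := by
        rw [le_div_iff₀ (by positivity), h2] at h1
        have h4 : (h : ℝ) * (N / g : ℕ) ≤ q * Real.log q ^ (1 + ε) / (6 * c) := by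
          rw [le_div_iff₀ (by positivity)]
          have h5 : (h : ℝ) * (6 * (c * (1 / ((q : ℝ) ^ 2 * Real.log q ^ (1 + ε))) * q * (N / g : ℕ))) =
              ((h : ℝ) * (N / g : ℕ) * (6 * c)) / (q * Real.log q ^ (1 + ε)) := by
            field_simp
          rw [h5, div_le_one (by positivity)] at h1
          exact h1
        refine h4.trans ?_
        have h6 := hL q hq1
        calc (q : ℝ) * Real.log q ^ (1 + ε) / (6 * c) ≤ q * (C3 * (q : ℝ) ^ s) / (6 * c) := by gcongr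
          _ = B * (q : ℝ) ^ (1 + s) := by
              rw [Real.rpow_add (by linarith), Real.rpow_one, hB]; ring
      apply Nat.le_floor
      rw [hMr, le_div_iff₀ (by linarith)]
      have h7 : h * (q / g) * N = q * (h * (N / g)) := by
        have a1 := Nat.div_mul_cancel (Nat.gcd_dvd_left q N)
        have a2 := Nat.div_mul_cancel (Nat.gcd_dvd_right q N)
        rw [← hg] at a1 a2
        calc h * (q / g) * N = h * (q / g) * (N / g * g) := by rw [a2]
          _ = (q / g * g) * (h * (N / g)) := by ring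
          _ = _ := by rw [a1]
      have h8 : ((h * (q / g) : ℕ) : ℝ) * N = q * (h * (N / g : ℕ)) := by exact_mod_cast h7
      rw [h8]
      calc (q : ℝ) * (h * (N / g : ℕ)) ≤ q * (B * (q : ℝ) ^ (1 + s)) := by gcongr
        _ = B * (q : ℝ) ^ (2 + s) := by
            have : (q : ℝ) ^ (2 + s) = q * (q : ℝ) ^ (1 + s) := by
              rw [show (2 : ℝ) + s = 1 + (1 + s) by ring, Real.rpow_add (by linarith), Real.rpow_one]
            rw [this]; ring
        _ ≤ B * (R : ℝ) ^ (2 + s) := by gcongr)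
  refine (show _ ≤ _ from hreg).trans ?_
  rcases Nat.eq_zero_or_pos M with hM0 | hM0
  · rw [hM0]
    simp only [show Icc 1 0 = (∅ : Finset ℕ) from rfl, Finset.sum_empty]
    positivity
  have hMr1 : (1 : ℝ) ≤ M := by exact_mod_cast hM0
  have hMMr : (M : ℝ) ≤ Mr := Nat.floor_le hMr0.le
  have h1 : ∑ m ∈ Icc 1 M, (m.divisors.card : ℝ) * N.divisors.card * PF θ m ≤
      (C2 * (M : ℝ) ^ τ) * (C2 * (N : ℝ) ^ τ) * ∑ m ∈ Icc 1 M, PF θ m := by
    rw [Finset.mul_sum]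
    refine Finset.sum_le_sum fun m hm => ?_
    obtain ⟨hm1, hm2⟩ := Finset.mem_Icc.mp hm
    refine mul_le_mul_of_nonneg_right ?_ (PF_nonneg _ _)
    refine mul_le_mul ?_ (hdiv N hN) (by positivity) (by positivity)
    refine (hdiv m hm1).trans ?_
    have : (m : ℝ) ≤ M := by exact_mod_cast hm2
    gcongr
  have h2 : (M : ℝ) ^ τ * (M : ℝ) ^ (1 + 2 * τ) ≤ (B + 1) ^ e * (R : ℝ) ^ (2 + σ) * (N : ℝ) ^ (-1 : ℝ) := by
    rw [← Real.rpow_add (by linarith)]
    have h3 : τ + (1 + 2 * τ) = e := by rw [he]; ring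
    rw [h3]
    calc (M : ℝ) ^ e ≤ Mr ^ e := Real.rpow_le_rpow (by linarith) hMMr (by linarith)
      _ = B ^ e * ((R : ℝ) ^ (2 + s)) ^ e / (N : ℝ) ^ e := by
          rw [hMr, Real.div_rpow (by positivity) (by positivity), Real.mul_rpow hB0.le (by positivity)]
      _ ≤ (B + 1) ^ e * (R : ℝ) ^ (2 + σ) * (N : ℝ) ^ (-1 : ℝ) := by
          rw [div_eq_mul_inv]
          have h4 : B ^ e ≤ (B + 1) ^ e := Real.rpow_le_rpow hB0.le (by linarith) (by linarith)
          have h5 : ((R : ℝ) ^ (2 + s)) ^ e ≤ (R : ℝ) ^ (2 + σ) := by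
            rw [← Real.rpow_mul (by linarith)]
            refine Real.rpow_le_rpow_of_exponent_le hRr ?_
            rw [he, hs, hτ]
            nlinarith
          have h6 : ((N : ℝ) ^ e)⁻¹ ≤ (N : ℝ) ^ (-1 : ℝ) := by
            rw [← Real.rpow_neg (by linarith)]
            exact Real.rpow_le_rpow_of_exponent_le hNr (by linarith)
          gcongr
  have h7 : (N : ℝ) ^ τ * (N : ℝ) ^ (-1 : ℝ) ≤ (N : ℝ) ^ (σ - 1) := by
    rw [← Real.rpow_add (by linarith)]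
    refine Real.rpow_le_rpow_of_exponent_le hNr ?_
    rw [hτ]; linarith
  calc ∑ m ∈ Icc 1 M, (m.divisors.card : ℝ) * N.divisors.card * PF θ m
      ≤ (C2 * (M : ℝ) ^ τ) * (C2 * (N : ℝ) ^ τ) * (C1 * (M : ℝ) ^ (1 + 2 * τ)) := by
        refine h1.trans (mul_le_mul_of_nonneg_left (hsum M hM0) (by positivity))
    _ = C2 * C2 * C1 * ((M : ℝ) ^ τ * (M : ℝ) ^ (1 + 2 * τ)) * (N : ℝ) ^ τ := by ring
    _ ≤ C2 * C2 * C1 * ((B + 1) ^ e * (R : ℝ) ^ (2 + σ) * (N : ℝ) ^ (-1 : ℝ)) * (N : ℝ) ^ τ := by gcongr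
    _ = C2 * C2 * C1 * (B + 1) ^ e * ((N : ℝ) ^ τ * (N : ℝ) ^ (-1 : ℝ)) * (R : ℝ) ^ (2 + σ) := by ring
    _ ≤ C2 * C2 * C1 * (B + 1) ^ e * (N : ℝ) ^ (σ - 1) * (R : ℝ) ^ (2 + σ) := by gcongr

end Pool.Agent.Y22.LG
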