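import Mathlib
import Pool.Agent.Y22.LG4
import Pool.Agent.Y22.LG5
import Pool.Agent.Y22.LG6

set_option autoImplicit false

/-! Lang's inequality for almost all elements of a real number field. -/

namespace Pool.Agent.Y22.LG

open Finset Filter
open Pool.Agent.Results.MP_c307ca_nt.AlmostAllToHeight (w w_pos w_summable w_eq)

/-- the condition of linear independence over the integers -/
def Ind {n : ℕ} (θ : Fin n → ℝ) : Prop :=
  ∀ y : Fin (n + 1) → ℤ, (y 0 : ℝ) + ∑ i : Fin n, y i.succ * θ i = 0 → y = 0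

lemma ind_of_linearIndependent {n : ℕ} {θ : Fin n → ℝ}
    (h : LinearIndependent ℚ (Fin.cons 1 θ : Fin (n + 1) → ℝ)) : Ind θ := by
  intro y hy
  rw [Fintype.linearIndependent_iff] at h
  have h1 := h (fun i => (y i : ℚ)) (by
    rw [Fin.sum_univ_succ]
    simp only [Fin.cons_zero, Fin.cons_succ, Rat.smul_def, Rat.cast_intCast, mul_one]
    exact hy)
  funext i
  have h2 := h1 i
  exact_mod_cast h2

/-- the number of the family is not rational -/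
lemma nn_family {n : ℕ} {θ : Fin n → ℝ} (hI : Ind θ) {N q : ℕ} (hN : 1 ≤ N) (hq : 1 ≤ q) (a : ℕ)
    (x : Fin n → ℤ) (hx : x ≠ 0) : 0 < nn (q * (((a : ℝ) + ∑ i, x i * θ i) / N)) := by
  rcases (nn_nonneg (q * (((a : ℝ) + ∑ i, x i * θ i) / N))).lt_or_eq with h | h
  · exact h
  · exfalso
    apply hx
    have h1 : (q * (((a : ℝ) + ∑ i, x i * θ i) / N)) - round (q * (((a : ℝ) + ∑ i, x i * θ i) / N)) = 0 :=
      abs_eq_zero.mp h.symm
    set k : ℤ := round (q * (((a : ℝ) + ∑ i, x i * θ i) / N)) with hk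
    have hNr : (0 : ℝ) < N := by exact_mod_cast hN
    have h2 : (q : ℝ) * ((a : ℝ) + ∑ i, x i * θ i) = k * N := by
      have h3 : (q * (((a : ℝ) + ∑ i, x i * θ i) / N)) = k := by linarith
      rw [← h3]; field_simp
    have h4 := hI (Fin.cases ((q : ℤ) * a - k * N) (fun i => (q : ℤ) * x i)) (by
      simp only [Fin.cases_zero, Fin.cases_succ]
      push_cast
      have h5 : ∑ i, (q : ℝ) * (x i : ℝ) * θ i = q * ∑ i, x i * θ i := by
        rw [Finset.mul_sum]; exact Finset.sum_congr rfl fun i _ => by ring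
      rw [h5]
      linarith)
    funext i
    have h6 := congrFun h4 i.succ
    simp only [Fin.cases_succ, Pi.zero_apply, mul_eq_zero] at h6
    rcases h6 with h6 | h6
    · omega
    · simpa using h6

open Classical in
/-- the exceptional elements of the family -/
noncomputable def Bad {n : ℕ} (θ : Fin n → ℝ) (κ ε c : ℝ) (N H : ℕ) : Finset (ℕ × (Fin n → ℤ)) :=
  (Finset.range N ×ˢ Box n H).filter (fun z => z.2 ≠ 0 ∧ ∃ (p : ℤ) (q : ℕ), 2 ≤ q ∧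
    (q : ℝ) ≤ ((N : ℝ) * (H : ℝ) ^ n) ^ κ ∧
    |((z.1 : ℝ) + ∑ i, z.2 i * θ i) / N - p / q| ≤ c / ((q : ℝ) ^ 2 * Real.log q ^ (1 + ε)))

lemma Bad_mono {n : ℕ} (θ : Fin n → ℝ) (κ ε : ℝ) {c c' : ℝ} (h : c ≤ c') (N H : ℕ) :
    Bad θ κ ε c N H ⊆ Bad θ κ ε c' N H := by
  classical
  intro z hz
  unfold Bad at hz ⊢
  rw [Finset.mem_filter] at hz ⊢
  obtain ⟨h1, h2, p, q, h3, h4, h5⟩ := hz
  refine ⟨h1, h2, p, q, h3, h4, h5.trans ?_⟩
  have : (2 : ℝ) ≤ q := by exact_mod_cast h3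
  have hlog : 0 < Real.log q := Real.log_pos (by linarith)
  gcongr

lemma qw_le {ε : ℝ} (hε : 0 < ε) {q : ℕ} (hq : 2 ≤ q) :
    w ε q * q ≤ (Real.log 2 ^ (1 + ε))⁻¹ * (1 / q) := by
  have hqr : (2 : ℝ) ≤ q := by exact_mod_cast hq
  have h2 : w ε q = 1 / ((q : ℝ) ^ 2 * Real.log q ^ (1 + ε)) := by
    have := w_eq ε 1 q hq
    rw [one_mul] at this
    exact this.symm
  have hlog2 : 0 < Real.log 2 := Real.log_pos (by norm_num)
  have hlog : Real.log 2 ≤ Real.log q := Real.log_le_log (by norm_num) hqr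
  have hlq : 0 < Real.log q := by linarith
  have h3 : Real.log 2 ^ (1 + ε) ≤ Real.log q ^ (1 + ε) := Real.rpow_le_rpow hlog2.le hlog (by linarith)
  have h4 : w ε q * q = (Real.log q ^ (1 + ε))⁻¹ * (1 / q) := by
    rw [h2]; field_simp
  rw [h4]
  refine mul_le_mul_of_nonneg_right ?_ (by positivity)
  exact inv_anti₀ (by positivity) h3

theorem large {n : ℕ} {θ : Fin (n + 1) → ℝ} (hPL : ∀ τ : ℝ, 0 < τ → ∃ c, PLow θ τ c) {κ ε η : ℝ}
    (hκ0 : 0 ≤ κ) (hκ : κ < 1) (hε : 0 < ε) (hη : 0 < η) :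
    ∃ c : ℝ, 0 < c ∧ ∃ X0 : ℝ, ∀ N H : ℕ, 1 ≤ N → 1 ≤ H → X0 ≤ (N : ℝ) * (H : ℝ) ^ (n + 1) →
      ((Bad θ κ ε c N H).card : ℝ) ≤ η * ((N : ℝ) * (H : ℝ) ^ (n + 1)) := by
  classical
  set Z : ℝ := ∑' q : ℕ, (q : ℝ) * w ε q with hZ
  have hZ0 : 0 ≤ Z := tsum_nonneg fun q => mul_nonneg (Nat.cast_nonneg q) (w_pos ε q).le
  set c : ℝ := η / (192 * 3 ^ (n + 1) * (Z + 1)) with hc
  have hc0 : 0 < c := by positivity
  set σ : ℝ := (1 - κ) / 4 with hσ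
  have hσ0 : 0 < σ := by rw [hσ]; linarith
  have hσ1 : σ ≤ 1 := by rw [hσ]; linarith
  obtain ⟨C, hC, hE⟩ := Er_sum hPL hε hc0 hσ0 hσ1
  obtain ⟨c1, hc1⟩ := hPL 1 one_pos
  have hpos : ∀ m : ℕ, 1 ≤ m → ∀ i, 0 < nn (m * θ i) := fun m hm i => hc1.pos hm i
  set ℓ : ℝ := (Real.log 2 ^ (1 + ε))⁻¹ with hℓ
  have hlog2 : 0 < Real.log 2 := Real.log_pos (by norm_num)
  have hℓ0 : 0 < ℓ := by positivity
  set C5 : ℝ := 192 * c * ℓ * (4 * C) with hC5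
  have hC50 : 0 < C5 := by positivity
  set ω : ℝ := (1 + κ) / 2 with hω
  have hω1 : 0 < 1 - ω := by rw [hω]; linarith
  refine ⟨c, hc0, max 1 ((2 * C5 / η) ^ (1 / (1 - ω))), fun N H hN hH hX => ?_⟩
  set X : ℝ := (N : ℝ) * (H : ℝ) ^ (n + 1) with hXdef
  have hX1 : 1 ≤ X := (le_max_left _ _).trans hX
  have hX2 : (2 * C5 / η) ^ (1 / (1 - ω)) ≤ X := (le_max_right _ _).trans hX
  have hNr : (1 : ℝ) ≤ N := by exact_mod_cast hN
  have hHr : (1 : ℝ) ≤ H := by exact_mod_cast hH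
  have hNX : (N : ℝ) ≤ X := by
    rw [hXdef]
    have : (1 : ℝ) ≤ (H : ℝ) ^ (n + 1) := one_le_pow₀ hHr
    nlinarith
  set Q : ℕ := ⌊X ^ κ⌋₊ with hQ
  have hXκ1 : 1 ≤ X ^ κ := Real.one_le_rpow hX1 hκ0
  have hQX : (Q : ℝ) ≤ X ^ κ := Nat.floor_le (by positivity)
  have hsub : Bad θ κ ε c N H ⊆ (Icc 2 Q).biUnion (fun q => BadQ θ N H q (c * w ε q)) := by
    intro z hz
    unfold Bad at hz
    rw [Finset.mem_filter] at hz
    obtain ⟨h1, h2, p, q, h3, h4, h5⟩ := hz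
    rw [Finset.mem_biUnion]
    refine ⟨q, Finset.mem_Icc.mpr ⟨h3, Nat.le_floor h4⟩, ?_⟩
    unfold BadQ
    rw [Finset.mem_filter]
    refine ⟨h1, p, ?_⟩
    rw [w_eq ε c q h3] at h5
    exact h5
  have h1 : ((Bad θ κ ε c N H).card : ℝ) ≤ ∑ q ∈ Icc 2 Q, ((BadQ θ N H q (c * w ε q)).card : ℝ) := by
    have := (Finset.card_le_card hsub).trans Finset.card_biUnion_le
    exact_mod_cast this
  have h2 : ∀ q ∈ Icc 2 Q, ((BadQ θ N H q (c * w ε q)).card : ℝ) ≤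
      96 * c * N * (2 * H + 1) ^ (n + 1) * (q * w ε q) + 192 * c * ℓ * N * (Er θ ε c N q / q) := by
    intro q hq
    obtain ⟨hq1, hq2⟩ := Finset.mem_Icc.mp hq
    have hw := w_pos ε q
    have h3 := per_q (θ := θ) hpos (N := N) (H := H) (q := q) hN (by omega) (t := c * w ε q) (by positivity)
    have h4 : ∑ h ∈ Finset.Icc 1 ⌊1 / (6 * (c * w ε q * q * (N / Nat.gcd q N : ℕ)))⌋₊, PF θ (h * (q / Nat.gcd q N)) = Er θ ε c N q := rfl
    rw [h4] at h3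
    refine h3.trans ?_
    have h5 := qw_le hε hq1
    have h6 := Er_nonneg θ ε c N q
    have h7 : 192 * (c * w ε q * q * N) * Er θ ε c N q ≤ 192 * c * ℓ * N * (Er θ ε c N q / q) := by
      calc 192 * (c * w ε q * q * N) * Er θ ε c N q = 192 * c * N * Er θ ε c N q * (w ε q * q) := by ring
        _ ≤ 192 * c * N * Er θ ε c N q * (ℓ * (1 / q)) := by gcongr
        _ = _ := by ring
    have h8 : 96 * (c * w ε q * q * N) * (2 * H + 1) ^ (n + 1) = 96 * c * N * (2 * H + 1) ^ (n + 1) * (q * w ε q) := by ring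
    linarith
  have h3 : ∑ q ∈ Icc 2 Q, (q : ℝ) * w ε q ≤ Z :=
    (w_summable ε hε).sum_le_tsum _ (fun q _ => mul_nonneg (Nat.cast_nonneg q) (w_pos ε q).le)
  have h4 := weighted (fun q => Er θ ε c N q) (fun q => Er_nonneg θ ε c N q) (C := C * (N : ℝ) ^ (σ - 1)) (σ := σ)
    (by positivity) hσ0 (fun R hR => hE N hN R hR) Q
  have h5 : (2 * (H : ℝ) + 1) ^ (n + 1) ≤ 3 ^ (n + 1) * (H : ℝ) ^ (n + 1) := by
    rw [← mul_pow]
    exact pow_le_pow_left₀ (by positivity) (by linarith) _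
  have hmain : 96 * c * N * (2 * H + 1) ^ (n + 1) * ∑ q ∈ Icc 2 Q, (q : ℝ) * w ε q ≤ η / 2 * X := by
    calc 96 * c * N * (2 * H + 1) ^ (n + 1) * ∑ q ∈ Icc 2 Q, (q : ℝ) * w ε q
        ≤ 96 * c * N * (3 ^ (n + 1) * (H : ℝ) ^ (n + 1)) * (Z + 1) := by
          have h0 : 0 ≤ ∑ q ∈ Icc 2 Q, (q : ℝ) * w ε q :=
            Finset.sum_nonneg fun q _ => mul_nonneg (Nat.cast_nonneg q) (w_pos ε q).le
          refine mul_le_mul ?_ (by linarith) h0 (by positivity)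
          gcongr
      _ = η / 2 * X := by
          rw [hc, hXdef]; field_simp; ring
  have herr : 192 * c * ℓ * N * (4 * (C * (N : ℝ) ^ (σ - 1)) * (Q : ℝ) ^ (1 + σ)) ≤ η / 2 * X := by
    have h6 : (N : ℝ) * (N : ℝ) ^ (σ - 1) = (N : ℝ) ^ σ := by
      have : (N : ℝ) ^ σ = (N : ℝ) ^ (1 + (σ - 1)) := by congr 1; ring
      rw [this, Real.rpow_add (by linarith), Real.rpow_one]
    have h7 : (N : ℝ) ^ σ ≤ X ^ σ := Real.rpow_le_rpow (by linarith) hNX hσ0.le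
    have h8 : (Q : ℝ) ^ (1 + σ) ≤ X ^ (κ * (1 + σ)) := by
      rw [Real.rpow_mul (by linarith)]
      exact Real.rpow_le_rpow (by positivity) hQX (by linarith)
    have h9 : X ^ σ * X ^ (κ * (1 + σ)) ≤ X ^ ω := by
      rw [← Real.rpow_add (by linarith)]
      refine Real.rpow_le_rpow_of_exponent_le hX1 ?_
      rw [hσ, hω]; nlinarith
    have h10 : C5 * X ^ ω ≤ η / 2 * X := by
      have h11 : 2 * C5 / η ≤ X ^ (1 - ω) := by
        have h12 : ((2 * C5 / η) ^ (1 / (1 - ω))) ^ (1 - ω) ≤ X ^ (1 - ω) :=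
          Real.rpow_le_rpow (by positivity) hX2 hω1.le
        rwa [← Real.rpow_mul (by positivity), one_div_mul_cancel hω1.ne', Real.rpow_one] at h12
      have h13 : X = X ^ (1 - ω) * X ^ ω := by
        rw [← Real.rpow_add (by linarith)]
        simp
      rw [div_le_iff₀ hη] at h11
      calc C5 * X ^ ω = (2 * C5) / 2 * X ^ ω := by ring
        _ ≤ (X ^ (1 - ω) * η) / 2 * X ^ ω := by gcongr
        _ = η / 2 * (X ^ (1 - ω) * X ^ ω) := by ring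
        _ = η / 2 * X := by rw [← h13]
    calc 192 * c * ℓ * N * (4 * (C * (N : ℝ) ^ (σ - 1)) * (Q : ℝ) ^ (1 + σ))
        = C5 * ((N : ℝ) * (N : ℝ) ^ (σ - 1)) * (Q : ℝ) ^ (1 + σ) := by rw [hC5]; ring
      _ = C5 * (N : ℝ) ^ σ * (Q : ℝ) ^ (1 + σ) := by rw [h6]
      _ ≤ C5 * X ^ σ * X ^ (κ * (1 + σ)) := by gcongr
      _ = C5 * (X ^ σ * X ^ (κ * (1 + σ))) := by ring
      _ ≤ C5 * X ^ ω := by gcongr
      _ ≤ _ := h10
  calc ((Bad θ κ ε c N H).card : ℝ)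
      ≤ ∑ q ∈ Icc 2 Q, (96 * c * N * (2 * H + 1) ^ (n + 1) * (q * w ε q) + 192 * c * ℓ * N * (Er θ ε c N q / q)) :=
        h1.trans (Finset.sum_le_sum h2)
    _ = 96 * c * N * (2 * H + 1) ^ (n + 1) * ∑ q ∈ Icc 2 Q, (q : ℝ) * w ε q +
        192 * c * ℓ * N * ∑ q ∈ Icc 2 Q, Er θ ε c N q / q := by
        rw [Finset.sum_add_distrib, Finset.mul_sum, Finset.mul_sum]
    _ ≤ 96 * c * N * (2 * H + 1) ^ (n + 1) * ∑ q ∈ Icc 2 Q, (q : ℝ) * w ε q +
        192 * c * ℓ * N * (4 * (C * (N : ℝ) ^ (σ - 1)) * (Q : ℝ) ^ (1 + σ)) := by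
        gcongr
    _ ≤ η / 2 * X + η / 2 * X := add_le_add hmain herr
    _ = η * X := by ring

theorem few {n : ℕ} {θ : Fin (n + 1) → ℝ} (hI : Ind θ) {κ ε : ℝ} (hκ : κ < 1) (X0 : ℝ) :
    ∃ c : ℝ, 0 < c ∧ ∀ N H : ℕ, 1 ≤ N → 1 ≤ H → (N : ℝ) * (H : ℝ) ^ (n + 1) < X0 → Bad θ κ ε c N H = ∅ := by
  classical
  obtain ⟨T, hT⟩ := exists_nat_ge X0
  set F : Finset (ℕ × ℕ × (Fin (n + 1) → ℤ) × ℕ) :=
    (Icc 1 T ×ˢ Finset.range T ×ˢ Box (n + 1) T ×ˢ Icc 2 T).filter (fun u => u.2.2.1 ≠ 0) with hF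
  set f : ℕ × ℕ × (Fin (n + 1) → ℤ) × ℕ → ℝ := fun u =>
    nn (u.2.2.2 * (((u.2.1 : ℝ) + ∑ i, u.2.2.1 i * θ i) / u.1)) * (u.2.2.2 * Real.log u.2.2.2 ^ (1 + ε)) with hf
  have hf0 : ∀ u ∈ F, 0 < f u := by
    intro u hu
    rw [hF, Finset.mem_filter, Finset.mem_product, Finset.mem_product, Finset.mem_product] at hu
    obtain ⟨⟨h1, h2, h3, h4⟩, h5⟩ := hu
    have h6 := (Finset.mem_Icc.mp h4).1
    have h7 : (2 : ℝ) ≤ u.2.2.2 := by exact_mod_cast h6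
    have h8 : 0 < Real.log u.2.2.2 := Real.log_pos (by linarith)
    exact mul_pos (nn_family hI (Finset.mem_Icc.mp h1).1 (by omega) _ _ h5) (by positivity)
  have hex : ∃ c : ℝ, 0 < c ∧ ∀ u ∈ F, c < f u := by
    rcases F.eq_empty_or_nonempty with he | hne
    · exact ⟨1, one_pos, fun u hu => by rw [he] at hu; exact absurd hu (Finset.notMem_empty u)⟩
    · have hpos : 0 < F.inf' hne f := by
        rw [Finset.lt_inf'_iff]; exact hf0
      exact ⟨F.inf' hne f / 2, by positivity, fun u hu => by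
        have := Finset.inf'_le f hu
        linarith⟩
  obtain ⟨c, hc, hcF⟩ := hex
  refine ⟨c, hc, fun N H hN hH hX => ?_⟩
  have hNr : (1 : ℝ) ≤ N := by exact_mod_cast hN
  have hHr : (1 : ℝ) ≤ H := by exact_mod_cast hH
  have hHp : (H : ℝ) ≤ (H : ℝ) ^ (n + 1) := by
    rw [pow_succ]
    have : (1 : ℝ) ≤ (H : ℝ) ^ n := one_le_pow₀ hHr
    nlinarith
  have hp1 : (1 : ℝ) ≤ (H : ℝ) ^ (n + 1) := one_le_pow₀ hHr
  have hX1 : (1 : ℝ) ≤ (N : ℝ) * (H : ℝ) ^ (n + 1) := by nlinarith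
  have hNT : N < T := by
    have : (N : ℝ) < T := by nlinarith
    exact_mod_cast this
  have hHT : H < T := by
    have : (H : ℝ) < T := by nlinarith
    exact_mod_cast this
  unfold Bad
  rw [Finset.filter_eq_empty_iff]
  rintro z hz ⟨h1, p, q, h2, h3, h4⟩
  rw [Finset.mem_product] at hz
  have hqT : q ≤ T := by
    have h5 : (q : ℝ) ≤ T := by
      refine h3.trans ?_
      calc ((N : ℝ) * (H : ℝ) ^ (n + 1)) ^ κ ≤ ((N : ℝ) * (H : ℝ) ^ (n + 1)) ^ (1 : ℝ) :=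
            Real.rpow_le_rpow_of_exponent_le hX1 hκ.le
        _ = (N : ℝ) * (H : ℝ) ^ (n + 1) := Real.rpow_one _
        _ ≤ T := by linarith
    exact_mod_cast h5
  have hu : (N, z.1, z.2, q) ∈ F := by
    rw [hF, Finset.mem_filter, Finset.mem_product, Finset.mem_product, Finset.mem_product]
    refine ⟨⟨Finset.mem_Icc.mpr ⟨hN, hNT.le⟩, ?_, ?_, Finset.mem_Icc.mpr ⟨h2, hqT⟩⟩, h1⟩
    · have := Finset.mem_range.mp hz.1
      rw [Finset.mem_range]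
      show z.1 < T
      omega
    · have h5 := hz.2
      unfold Box at h5 ⊢
      rw [Fintype.mem_piFinset] at h5 ⊢
      intro i
      have h6 := Finset.mem_Icc.mp (h5 i)
      rw [Finset.mem_Icc]
      show -(T : ℤ) ≤ z.2 i ∧ z.2 i ≤ T
      omega
  have h5 := hcF _ hu
  rw [hf] at h5
  simp only at h5
  have hqr : (2 : ℝ) ≤ q := by exact_mod_cast h2
  have hlog : 0 < Real.log q := Real.log_pos (by linarith)
  set ξ : ℝ := ((z.1 : ℝ) + ∑ i, z.2 i * θ i) / N with hξ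
  have h6 : nn (q * ξ) ≤ q * |ξ - p / q| := by
    refine (nn_le _ p).trans (le_of_eq ?_)
    have h7 : (q : ℝ) * ξ - p = q * (ξ - p / q) := by field_simp
    rw [h7, abs_mul, abs_of_pos (by linarith)]
  have h8 : nn (q * ξ) * (q * Real.log q ^ (1 + ε)) ≤ c := by
    calc nn (q * ξ) * (q * Real.log q ^ (1 + ε)) ≤ (q * |ξ - p / q|) * (q * Real.log q ^ (1 + ε)) := by gcongr
      _ ≤ (q * (c / ((q : ℝ) ^ 2 * Real.log q ^ (1 + ε)))) * (q * Real.log q ^ (1 + ε)) := by gcongr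
      _ = c := by field_simp
  linarith

theorem main {n : ℕ} {θ : Fin (n + 1) → ℝ} (halg : ∀ i, IsAlgebraic ℚ (θ i)) (hI : Ind θ) {κ ε η : ℝ}
    (hκ : κ < 1) (hε : 0 < ε) (hη : 0 < η) :
    ∃ c : ℝ, 0 < c ∧ ∀ N H : ℕ, 1 ≤ N → 1 ≤ H →
      ((Bad θ κ ε c N H).card : ℝ) ≤ η * ((N : ℝ) * (H : ℝ) ^ (n + 1)) := by
  classical
  set κ' : ℝ := max κ 0 with hκ'
  have hκ'0 : 0 ≤ κ' := le_max_right _ _
  have hκ'1 : κ' < 1 := max_lt hκ one_pos
  obtain ⟨c1, hc1, X0, hX0⟩ := large (θ := θ) (fun τ hτ => prod_lower θ halg hI hτ) hκ'0 hκ'1 hε hη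
  obtain ⟨c2, hc2, hfew⟩ := few (ε := ε) hI hκ'1 X0
  refine ⟨min c1 c2, lt_min hc1 hc2, fun N H hN hH => ?_⟩
  have hNr : (1 : ℝ) ≤ N := by exact_mod_cast hN
  have hHr : (1 : ℝ) ≤ H := by exact_mod_cast hH
  have hp1 : (1 : ℝ) ≤ (H : ℝ) ^ (n + 1) := one_le_pow₀ hHr
  have hX1 : (1 : ℝ) ≤ (N : ℝ) * (H : ℝ) ^ (n + 1) := by nlinarith
  have hmono : Bad θ κ ε (min c1 c2) N H ⊆ Bad θ κ' ε (min c1 c2) N H := by
    intro z hz
    unfold Bad at hz ⊢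
    rw [Finset.mem_filter] at hz ⊢
    obtain ⟨h1, h2, p, q, h3, h4, h5⟩ := hz
    exact ⟨h1, h2, p, q, h3, h4.trans (Real.rpow_le_rpow_of_exponent_le hX1 (le_max_left _ _)), h5⟩
  rcases lt_or_ge ((N : ℝ) * (H : ℝ) ^ (n + 1)) X0 with h | h
  · have h1 : Bad θ κ ε (min c1 c2) N H = ∅ := by
      rw [← Finset.subset_empty, ← hfew N H hN hH h]
      exact hmono.trans (Bad_mono θ κ' ε (min_le_right _ _) N H)
    rw [h1]
    simp only [Finset.card_empty, Nat.cast_zero]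
    positivity
  · have h1 : ((Bad θ κ ε (min c1 c2) N H).card : ℝ) ≤ ((Bad θ κ' ε c1 N H).card : ℝ) := by
      exact_mod_cast Finset.card_le_card (hmono.trans (Bad_mono θ κ' ε (min_le_left _ _) N H))
    exact h1.trans (hX0 N H hN hH h)

end Pool.Agent.Y22.LG
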