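import Mathlib

set_option autoImplicit false

/-! A pair of points symmetric about a vertical line: growth of the distance product along a ray. -/

namespace Pool.Agent.Y22.LM

open Set

noncomputable section

/-- product of the squared distances -/
def q (β x h : ℝ) : ℝ := ((h - β) ^ 2 + x ^ 2) * ((h + β) ^ 2 + x ^ 2)

/-- the loss -/
def loss (β x : ℝ) : ℝ := max 0 (1 / |x| - 1 / |β|)

lemma loss_nonneg (β x : ℝ) : 0 ≤ loss β x := le_max_left _ _

lemma q_nonneg (β x h : ℝ) : 0 ≤ q β x h := by unfold q; positivity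

lemma q_eq (β x h : ℝ) : q β x h = (h ^ 2 - β ^ 2) ^ 2 + 2 * x ^ 2 * (h ^ 2 + β ^ 2) + x ^ 4 := by
  unfold q; ring

lemma q_abs (β x h : ℝ) : q |β| x h = q β x h := by
  rw [q_eq, q_eq, sq_abs]

lemma q_mono {β x h1 h2 : ℝ} (h0 : 0 ≤ h1) (h12 : h1 ≤ h2) (hc : β ^ 2 ≤ x ^ 2 ∨ β ^ 2 ≤ h1 ^ 2) :
    q β x h1 ≤ q β x h2 := by
  rw [q_eq, q_eq]
  have h3 : h1 ^ 2 ≤ h2 ^ 2 := by gcongr
  have h4 : 0 ≤ h1 ^ 2 := by positivity
  rcases hc with hc | hc
  · nlinarith
  · have : 0 ≤ x ^ 2 := by positivity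
    nlinarith

lemma pair_ineq {β x h : ℝ} (hβ : 0 < β) (hx : x ≠ 0) (hh : 0 ≤ h) :
    -loss β x ≤ 2 * ((h - β) / ((h - β) ^ 2 + x ^ 2) + (h + β) / ((h + β) ^ 2 + x ^ 2)) := by
  have hx2 : 0 < x ^ 2 := by positivity
  have hD1 : 0 < (h - β) ^ 2 + x ^ 2 := by positivity
  have hD2 : 0 < (h + β) ^ 2 + x ^ 2 := by positivity
  have e : (h - β) / ((h - β) ^ 2 + x ^ 2) + (h + β) / ((h + β) ^ 2 + x ^ 2) =
      2 * h * (h ^ 2 - β ^ 2 + x ^ 2) / (((h - β) ^ 2 + x ^ 2) * ((h + β) ^ 2 + x ^ 2)) := by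
    field_simp
    ring
  by_cases hc : β ^ 2 ≤ h ^ 2 + x ^ 2
  · rw [e]
    have h1 : 0 ≤ 2 * h * (h ^ 2 - β ^ 2 + x ^ 2) / (((h - β) ^ 2 + x ^ 2) * ((h + β) ^ 2 + x ^ 2)) := by
      have : 0 ≤ h ^ 2 - β ^ 2 + x ^ 2 := by linarith
      positivity
    have := loss_nonneg β x
    linarith
  · push Not at hc
    set a := |x| with ha
    have ha0 : 0 < a := abs_pos.mpr hx
    have hax : x ^ 2 = a ^ 2 := (sq_abs x).symm
    rw [hax] at hc hD1 hD2 ⊢
    have haβ : a < β := by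
      have : a ^ 2 < β ^ 2 := by nlinarith [sq_nonneg h]
      exact lt_of_pow_lt_pow_left₀ 2 hβ.le this
    have hhβ : h < β := by
      have : h ^ 2 < β ^ 2 := by nlinarith [sq_nonneg a]
      exact lt_of_pow_lt_pow_left₀ 2 hβ.le this
    have hl : 1 / a - 1 / β ≤ loss β x := by
      unfold loss
      rw [← ha, abs_of_pos hβ]
      exact le_max_right _ _
    -- with s = β + h, t = β - h
    set s := β + h with hs
    set t := β - h with ht
    have ht0 : 0 < t := by rw [ht]; linarith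
    have hst : t ≤ s := by rw [hs, ht]; linarith
    have hs0 : 0 < s := by linarith
    have e1 : (h - β) / ((h - β) ^ 2 + a ^ 2) = -(t / (t ^ 2 + a ^ 2)) := by
      rw [ht]
      rw [show (h - β) ^ 2 = (β - h) ^ 2 by ring]
      rw [← neg_div]; congr 1; ring
    have e2 : (h + β) / ((h + β) ^ 2 + a ^ 2) = s / (s ^ 2 + a ^ 2) := by
      rw [hs, add_comm h β]
    rw [e1, e2]
    have h1 : 1 / (2 * a) - t / (t ^ 2 + a ^ 2) = (t - a) ^ 2 / (2 * a * (t ^ 2 + a ^ 2)) := by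
      field_simp
      ring
    have h2 : 1 / (2 * β) - s / (s ^ 2 + a ^ 2) = (a ^ 2 - s * t) / (2 * β * (s ^ 2 + a ^ 2)) := by
      have : 2 * β = s + t := by rw [hs, ht]; ring
      have hβ' : β = (s + t) / 2 := by linarith
      rw [hβ']
      have : 0 < s + t := by linarith
      field_simp
      ring
    have h3 : (a ^ 2 - s * t) / (2 * β * (s ^ 2 + a ^ 2)) ≤ (t - a) ^ 2 / (2 * a * (t ^ 2 + a ^ 2)) := by
      have h4 : a ^ 2 - s * t ≤ (t - a) ^ 2 := by
        have : 2 * a ≤ s + t := by rw [hs, ht]; linarith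
        nlinarith
      calc (a ^ 2 - s * t) / (2 * β * (s ^ 2 + a ^ 2)) ≤ (t - a) ^ 2 / (2 * β * (s ^ 2 + a ^ 2)) := by gcongr
        _ ≤ _ := by
          apply div_le_div_of_nonneg_left (sq_nonneg _) (by positivity)
          have h5 : t ^ 2 + a ^ 2 ≤ s ^ 2 + a ^ 2 := by gcongr
          calc 2 * a * (t ^ 2 + a ^ 2) ≤ 2 * β * (s ^ 2 + a ^ 2) := by gcongr
            _ = _ := rfl
    have h6 : 1 / (2 * a) = (1 / a) / 2 := by field_simp
    have h7 : 1 / (2 * β) = (1 / β) / 2 := by field_simp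
    rw [h6] at h1
    rw [h7] at h2
    linarith

lemma q_rate {β x h1 h2 : ℝ} (hβ : β ≠ 0) (hx : x ≠ 0) (h0 : 0 ≤ h1) (h12 : h1 ≤ h2) :
    q β x h1 * Real.exp (-(h2 - h1) * loss β x) ≤ q β x h2 := by
  have hl : loss |β| x = loss β x := by unfold loss; rw [abs_abs]
  rw [← q_abs β x h1, ← q_abs β x h2, ← hl]
  have hβ0 : 0 < |β| := abs_pos.mpr hβ
  generalize |β| = b at *
  have hx2 : 0 < x ^ 2 := by positivity
  have hqpos : ∀ h : ℝ, 0 < q b x h := fun h => by unfold q; positivity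
  have hd : ∀ h : ℝ, HasDerivAt (fun h : ℝ => Real.log (q b x h) + loss b x * h)
      (2 * ((h - b) / ((h - b) ^ 2 + x ^ 2) + (h + b) / ((h + b) ^ 2 + x ^ 2)) + loss b x) h := by
    intro h
    have e0 : HasDerivAt (fun h : ℝ => (h - b) ^ 2 + x ^ 2) (2 * (h - b)) h := by
      have := (((hasDerivAt_id h).sub_const b).pow 2).add_const (x ^ 2)
      simpa using this
    have e1 : HasDerivAt (fun h : ℝ => (h + b) ^ 2 + x ^ 2) (2 * (h + b)) h := by
      have := (((hasDerivAt_id h).add_const b).pow 2).add_const (x ^ 2)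
      simpa using this
    have e2 : HasDerivAt (fun h : ℝ => q b x h) (2 * (h - b) * ((h + b) ^ 2 + x ^ 2) + ((h - b) ^ 2 + x ^ 2) * (2 * (h + b))) h := by
      unfold q
      exact e0.mul e1
    have e3 := (e2.log (hqpos h).ne').add ((hasDerivAt_id h).const_mul (loss b x))
    refine e3.congr_deriv ?_
    have hD1 : 0 < (h - b) ^ 2 + x ^ 2 := by positivity
    have hD2 : 0 < (h + b) ^ 2 + x ^ 2 := by positivity
    unfold q
    field_simp
  have hmono : MonotoneOn (fun h : ℝ => Real.log (q b x h) + loss b x * h) (Set.Ici 0) := by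
    refine monotoneOn_of_deriv_nonneg (convex_Ici 0) (fun h _ => (hd h).continuousAt.continuousWithinAt)
      (fun h _ => (hd h).differentiableAt.differentiableWithinAt) fun h hh => ?_
    rw [interior_Ici] at hh
    rw [(hd h).deriv]
    have := pair_ineq (x := x) hβ0 hx (le_of_lt hh)
    linarith
  have h3 := hmono (Set.mem_Ici.mpr h0) (Set.mem_Ici.mpr (h0.trans h12)) h12
  simp only at h3
  have h4 : Real.log (q b x h1 * Real.exp (-(h2 - h1) * loss b x)) ≤ Real.log (q b x h2) := by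
    rw [Real.log_mul (hqpos _).ne' (Real.exp_pos _).ne', Real.log_exp]
    linarith
  exact (Real.log_le_log_iff (mul_pos (hqpos _) (Real.exp_pos _)) (hqpos _)).mp h4

end

end Pool.Agent.Y22.LM
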