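import Mathlib
import Pool.Agent.Y22.LM1

set_option autoImplicit false

/-! Growth along a horizontal ray of functions with zeros symmetric about the vertical axis. -/

namespace Pool.Agent.Y22.LM

open Set Polynomial Complex Filter Topology

noncomputable section

lemma norm_pair (b : ℂ) (h t : ℝ) :
    ‖(h + t * I : ℂ) - b‖ ^ 2 * ‖(-h + t * I : ℂ) - b‖ ^ 2 = q b.re (t - b.im) h := by
  rw [← Complex.normSq_eq_norm_sq, ← Complex.normSq_eq_norm_sq, Complex.normSq_apply, Complex.normSq_apply]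
  unfold q
  simp
  ring

lemma norm_eval_pow4 {p : ℂ[X]} {t : ℝ}
    (hsym : ∀ h : ℝ, ‖p.eval (-h + t * I : ℂ)‖ = ‖p.eval (h + t * I : ℂ)‖) (h : ℝ) :
    ‖p.eval (h + t * I : ℂ)‖ ^ 4 = ‖p.leadingCoeff‖ ^ 4 * (p.roots.map fun b => q b.re (t - b.im) h).prod := by
  have h1 : ∀ z : ℂ, ‖p.eval z‖ = ‖p.leadingCoeff‖ * (p.roots.map fun b => ‖z - b‖).prod := by
    intro z
    rw [(IsAlgClosed.splits p).eval_eq_prod_roots, norm_mul]
    congr 1
    have e := map_multiset_prod (normHom (α := ℂ)) (p.roots.map fun x => z - x)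
    rw [Multiset.map_map] at e
    exact e
  have h2 : ‖p.eval (h + t * I : ℂ)‖ ^ 4 = ‖p.eval (h + t * I : ℂ)‖ ^ 2 * ‖p.eval (-h + t * I : ℂ)‖ ^ 2 := by
    rw [hsym]; ring
  rw [h2, h1, h1, mul_pow, mul_pow]
  have h3 : (p.roots.map fun b => q b.re (t - b.im) h).prod =
      (p.roots.map fun b => ‖(h + t * I : ℂ) - b‖).prod ^ 2 * (p.roots.map fun b => ‖(-h + t * I : ℂ) - b‖).prod ^ 2 := by
    rw [← Multiset.prod_map_pow, ← Multiset.prod_map_pow, ← Multiset.prod_map_mul]
    refine congrArg _ (Multiset.map_congr rfl fun b _ => (norm_pair b h t).symm)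
  rw [h3]
  ring

lemma poly_ineq {p : ℂ[X]} {t h0 h1 h2 : ℝ}
    (hsym : ∀ h : ℝ, ‖p.eval (-h + t * I : ℂ)‖ = ‖p.eval (h + t * I : ℂ)‖)
    (h0n : 0 ≤ h0) (h01 : h0 ≤ h1) (h12 : h1 ≤ h2) (A : Finset ℂ) (m : ℂ → ℕ)
    (hA : ∀ b, b ∈ p.roots → |t - b.im| < |b.re| → h0 < |b.re| → b ∈ A)
    (hA2 : ∀ b ∈ A, b.re ≠ 0 ∧ t - b.im ≠ 0)
    (hm : ∀ b ∈ A, p.rootMultiplicity b ≤ m b) :
    ‖p.eval (h1 + t * I : ℂ)‖ * Real.exp (-(h2 - h1) * ((∑ b ∈ A, (m b : ℝ) * loss b.re (t - b.im)) / 4)) ≤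
      ‖p.eval (h2 + t * I : ℂ)‖ := by
  classical
  set S := ∑ b ∈ A, (m b : ℝ) * loss b.re (t - b.im) with hS
  have h4 : (‖p.eval (h1 + t * I : ℂ)‖ * Real.exp (-(h2 - h1) * (S / 4))) ^ 4 ≤ ‖p.eval (h2 + t * I : ℂ)‖ ^ 4 := by
    rw [mul_pow, norm_eval_pow4 hsym, norm_eval_pow4 hsym, ← Real.exp_nat_mul, mul_assoc]
    refine mul_le_mul_of_nonneg_left ?_ (by positivity)
    set c : ℂ → ℝ := fun b => if b ∈ A then loss b.re (t - b.im) else 0 with hc
    have hc0 : ∀ b, 0 ≤ c b := by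
      intro b
      simp only [hc]
      split_ifs
      · exact loss_nonneg _ _
      · exact le_rfl
    have e1 : (p.roots.map c).sum ≤ S := by
      rw [Finset.sum_multiset_map_count]
      have : ∀ b ∈ p.roots.toFinset, p.roots.count b • c b ≤ if b ∈ A then (m b : ℝ) * loss b.re (t - b.im) else 0 := by
        intro b _
        rw [Polynomial.count_roots]
        simp only [hc]
        split_ifs with hb
        · rw [nsmul_eq_mul]
          have := hm b hb
          exact mul_le_mul_of_nonneg_right (by exact_mod_cast this) (loss_nonneg _ _)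
        · simp
      refine (Finset.sum_le_sum this).trans ?_
      rw [← Finset.sum_filter, hS]
      refine Finset.sum_le_sum_of_subset_of_nonneg ?_ ?_
      · intro b hb
        exact (Finset.mem_filter.mp hb).2
      · intro b _ _
        exact mul_nonneg (Nat.cast_nonneg _) (loss_nonneg _ _)
    have e2 : Real.exp (((4 : ℕ) : ℝ) * (-(h2 - h1) * (S / 4))) ≤ (p.roots.map fun b => Real.exp (-(h2 - h1) * c b)).prod := by
      have e3 : (p.roots.map fun b => Real.exp (-(h2 - h1) * c b)).prod = Real.exp (-(h2 - h1) * (p.roots.map c).sum) := by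
        rw [← Multiset.sum_map_mul_left, Real.exp_multiset_sum, Multiset.map_map]
        rfl
      rw [e3]
      refine Real.exp_le_exp.mpr ?_
      push_cast
      have : (h2 - h1) * (p.roots.map c).sum ≤ (h2 - h1) * S := mul_le_mul_of_nonneg_left e1 (by linarith)
      linarith
    have e0 : 0 ≤ (p.roots.map fun b => q b.re (t - b.im) h1).prod :=
      Multiset.prod_nonneg (by
        intro a ha
        rw [Multiset.mem_map] at ha
        obtain ⟨b, _, rfl⟩ := ha
        exact q_nonneg _ _ _)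
    calc (p.roots.map fun b => q b.re (t - b.im) h1).prod * Real.exp (((4 : ℕ) : ℝ) * (-(h2 - h1) * (S / 4)))
        ≤ (p.roots.map fun b => q b.re (t - b.im) h1).prod * (p.roots.map fun b => Real.exp (-(h2 - h1) * c b)).prod :=
          mul_le_mul_of_nonneg_left e2 e0
      _ = (p.roots.map fun b => q b.re (t - b.im) h1 * Real.exp (-(h2 - h1) * c b)).prod := by
          rw [Multiset.prod_map_mul]
      _ ≤ (p.roots.map fun b => q b.re (t - b.im) h2).prod := by
          refine Multiset.prod_map_le_prod_map₀ _ _ (fun b _ => mul_nonneg (q_nonneg _ _ _) (Real.exp_pos _).le) fun b hb => ?_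
          by_cases hbA : b ∈ A
          · simp only [hc, if_pos hbA]
            exact q_rate (hA2 b hbA).1 (hA2 b hbA).2 (h0n.trans h01) h12
          · simp only [hc, if_neg hbA, mul_zero, Real.exp_zero, mul_one]
            refine q_mono (h0n.trans h01) h12 ?_
            by_contra hcon
            push Not at hcon
            apply hbA
            refine hA b hb ?_ ?_
            · rw [← sq_lt_sq]; exact hcon.1
            · refine lt_of_le_of_lt h01 ?_
              rw [← abs_of_nonneg (h0n.trans h01)]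
              exact sq_lt_sq.mp hcon.2
  exact le_of_pow_le_pow_left₀ (by norm_num) (norm_nonneg _) h4

lemma iter_lim {f : ℂ → ℂ} {p : ℕ → ℂ[X]}
    (hlim : TendstoLocallyUniformly (fun (N : ℕ) (z : ℂ) => (p N).eval z) f atTop) (n : ℕ) :
    TendstoLocallyUniformly (fun (N : ℕ) (z : ℂ) => (derivative^[n] (p N)).eval z) (iteratedDeriv n f) atTop := by
  induction n with
  | zero => simpa using hlim
  | succ n ih =>
    rw [← tendstoLocallyUniformlyOn_univ] at ih ⊢
    have h1 := ih.deriv (Eventually.of_forall fun N => by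
      apply Differentiable.differentiableOn
      exact Polynomial.differentiable _) isOpen_univ
    have h2 : (deriv ∘ fun (N : ℕ) (z : ℂ) => (derivative^[n] (p N)).eval z) =
        fun (N : ℕ) (z : ℂ) => (derivative^[n + 1] (p N)).eval z := by
      funext N z
      rw [Function.comp_apply, Polynomial.deriv, Function.iterate_succ_apply']
    rw [h2] at h1
    rwa [iteratedDeriv_succ]

lemma mult_le {f : ℂ → ℂ} {p : ℕ → ℂ[X]} (hf : Differentiable ℂ f)
    (hlim : TendstoLocallyUniformly (fun (N : ℕ) (z : ℂ) => (p N).eval z) f atTop) {b : ℂ}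
    (hb : analyticOrderAt f b ≠ ⊤) :
    ∀ᶠ N in atTop, (p N).rootMultiplicity b ≤ analyticOrderNatAt f b := by
  set m := analyticOrderNatAt f b with hm
  have h1 : analyticOrderAt f b = m := (Nat.cast_analyticOrderNatAt hb).symm
  have h2 := ((analyticOrderAt_eq_nat_iff_iteratedDeriv_eq_zero (hf.analyticAt b)).mp h1).2
  have h3 := (tendstoLocallyUniformlyOn_univ.mpr (iter_lim hlim m)).tendsto_at (Set.mem_univ b)
  filter_upwards [h3.eventually_ne h2] with N hN
  by_contra hcon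
  push Not at hcon
  exact hN (Polynomial.isRoot_iterate_derivative_of_lt_rootMultiplicity hcon)

theorem limit_ineq {f : ℂ → ℂ} {p : ℕ → ℂ[X]} (hf : Differentiable ℂ f)
    (hroots : ∀ (N : ℕ) (z : ℂ), (p N).eval z = 0 → f z = 0)
    (hlim : TendstoLocallyUniformly (fun (N : ℕ) (z : ℂ) => (p N).eval z) f atTop) {t : ℝ}
    (hsym : ∀ (N : ℕ) (h : ℝ), ‖(p N).eval (-h + t * I : ℂ)‖ = ‖(p N).eval (h + t * I : ℂ)‖)
    (htop : ∀ b, analyticOrderAt f b ≠ ⊤) {h0 h1 h2 : ℝ}
    (h0n : 0 ≤ h0) (h01 : h0 ≤ h1) (h12 : h1 ≤ h2) (A : Finset ℂ)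
    (hA : ∀ b, f b = 0 → |t - b.im| < |b.re| → h0 < |b.re| → b ∈ A)
    (hA2 : ∀ b ∈ A, b.re ≠ 0 ∧ t - b.im ≠ 0) :
    ‖f (h1 + t * I : ℂ)‖ * Real.exp (-(h2 - h1) * ((∑ b ∈ A, (analyticOrderNatAt f b : ℝ) * loss b.re (t - b.im)) / 4)) ≤
      ‖f (h2 + t * I : ℂ)‖ := by
  have hpt : ∀ z : ℂ, Tendsto (fun N => ‖(p N).eval z‖) atTop (𝓝 ‖f z‖) := fun z =>
    ((tendstoLocallyUniformlyOn_univ.mpr hlim).tendsto_at (Set.mem_univ z)).norm
  have hev : ∀ᶠ N in atTop, ∀ b ∈ A, (p N).rootMultiplicity b ≤ analyticOrderNatAt f b := by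
    rw [Filter.eventually_all_finset]
    intro b _
    exact mult_le hf hlim (htop b)
  refine le_of_tendsto_of_tendsto ((hpt _).mul_const _) (hpt _) ?_
  filter_upwards [hev] with N hN
  refine poly_ineq (hsym N) h0n h01 h12 A _ (fun b hb hb1 hb2 => ?_) hA2 hN
  exact hA b (hroots N b (Polynomial.isRoot_of_mem_roots hb)) hb1 hb2

end

end Pool.Agent.Y22.LM
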