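import Mathlib
import Pool.Agent.Y22.LM2
import Pool.Agent.H24R2.JP.Had

set_option autoImplicit false

/-! Strict growth of the modulus of a real even entire function of order less than two away from the
imaginary axis, on the horizontal lines which stay away from the zeros. -/

namespace Pool.Agent.Y22.RX

open Polynomial Complex Filter Topology
open Pool.Agent.H24R2.JP (SHad had)
open Pool.Agent.Y22.LM

noncomputable section

/-- `f z = F (z ^ 2)`, `F` real, entire of order less than one, `F 0 ≠ 0`, not constant -/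
structure Ev (f F : ℂ → ℂ) (K : ℝ) : Prop where
  diff : Differentiable ℂ F
  zero : F 0 ≠ 0
  conj : ∀ x, F ((starRingEnd ℂ) x) = (starRingEnd ℂ) (F x)
  grow : ∀ x, ‖F x‖ ≤ Real.exp (K * (1 + ‖x‖) ^ (3 / 4 : ℝ))
  sq : ∀ z, F (z ^ 2) = f z
  nonconst : ∃ z, f z ≠ f 0

variable {f F : ℂ → ℂ} {K : ℝ}

theorem Ev.approx (h : Ev f F K) : ∃ p : ℕ → ℂ[X], (∀ (N : ℕ) (z : ℂ), (p N).eval z = 0 → f z = 0) ∧
    TendstoLocallyUniformly (fun (N : ℕ) (z : ℂ) => (p N).eval z) f atTop ∧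
    ∀ (N : ℕ) (h t : ℝ), ‖(p N).eval (-h + t * I : ℂ)‖ = ‖(p N).eval (h + t * I : ℂ)‖ := by
  obtain ⟨P, hP1, hP2⟩ := had F K h.diff h.zero h.conj h.grow
  have hev : ∀ (N : ℕ) (z : ℂ), (((P N).map (algebraMap ℝ ℂ)).comp (X ^ 2)).eval z = aeval (z ^ 2) (P N) := by
    intro N z
    rw [Polynomial.eval_comp, Polynomial.eval_pow, Polynomial.eval_X, Polynomial.eval_map_algebraMap]
  refine ⟨fun N => ((P N).map (algebraMap ℝ ℂ)).comp (X ^ 2), fun N z hz => ?_, ?_, fun N x t => ?_⟩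
  · simp only [hev] at hz
    rw [← h.sq]
    exact hP1 N _ hz
  · simp only [hev]
    have h5 := hP2.comp (fun z : ℂ => z ^ 2) (by fun_prop)
    have h6 : (F ∘ fun z : ℂ => z ^ 2) = f := by
      funext z
      exact h.sq z
    rw [h6] at h5
    exact h5
  · simp only [hev]
    have h5 : (-x + t * I : ℂ) ^ 2 = (starRingEnd ℂ) ((x + t * I : ℂ) ^ 2) := by
      rw [map_pow, map_add, map_mul, Complex.conj_ofReal, Complex.conj_ofReal, Complex.conj_I]
      ring
    have h6 : aeval ((starRingEnd ℂ) ((x + t * I : ℂ) ^ 2)) (P N) = (starRingEnd ℂ) (aeval ((x + t * I : ℂ) ^ 2) (P N)) :=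
      Polynomial.aeval_conj _ _
    rw [h5, h6, Complex.norm_conj]

lemma Ev.fdiff (h : Ev f F K) : Differentiable ℂ f := by
  have : f = fun z => F (z ^ 2) := by
    funext z
    exact (h.sq z).symm
  rw [this]
  exact h.diff.comp (differentiable_id.pow 2)

lemma Ev.even (h : Ev f F K) (z : ℂ) : f (-z) = f z := by
  rw [← h.sq, ← h.sq, neg_sq]

lemma Ev.fconj (h : Ev f F K) (z : ℂ) : f ((starRingEnd ℂ) z) = (starRingEnd ℂ) (f z) := by
  rw [← h.sq, ← h.sq, ← map_pow, h.conj]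

lemma Ev.f0 (h : Ev f F K) : f 0 ≠ 0 := by
  rw [← h.sq]
  simpa using h.zero

lemma Ev.top (h : Ev f F K) (b : ℂ) : analyticOrderAt f b ≠ ⊤ := by
  intro h0
  rw [analyticOrderAt_eq_top] at h0
  have h1 : AnalyticOnNhd ℂ f Set.univ := fun z _ => h.fdiff.analyticAt z
  have h2 := h1.eqOn_zero_of_preconnected_of_eventuallyEq_zero isPreconnected_univ (Set.mem_univ b) h0
  exact h.f0 (h2 (Set.mem_univ 0))

lemma Ev.exists_zero (h : Ev f F K) : ∃ z, f z = 0 := by
  by_contra hcon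
  push Not at hcon
  obtain ⟨p, hp1, hp2, -⟩ := h.approx
  obtain ⟨w, hw⟩ := h.nonconst
  have hc : ∀ N, ∀ z, (p N).eval z = (p N).eval 0 := by
    intro N z
    have h1 : (p N).degree ≤ 0 := by
      by_contra hd
      push Not at hd
      obtain ⟨z, hz⟩ := IsAlgClosed.exists_root (p N) hd.ne'
      exact hcon z (hp1 N z hz)
    rw [Polynomial.eq_C_of_degree_le_zero h1]
    simp
  have hpt : ∀ z : ℂ, Tendsto (fun N => (p N).eval z) atTop (𝓝 (f z)) := fun z =>
    (tendstoLocallyUniformlyOn_univ.mpr hp2).tendsto_at (Set.mem_univ z)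
  have h2 := hpt w
  simp only [hc _ w] at h2
  exact hw (tendsto_nhds_unique h2 (hpt 0))

/-- strict growth on a ray -/
theorem Ev.strict (h : Ev f F K) {t h0 : ℝ} (h0n : 0 ≤ h0)
    (hZ : ∀ b : ℂ, f b = 0 → h0 < |b.re| → |b.re| ≤ |t - b.im|) :
    StrictMonoOn (fun x : ℝ => ‖f (x + t * I : ℂ)‖) (Set.Ici h0) := by
  obtain ⟨p, hp1, hp2, hp3⟩ := h.approx
  have hg : ∀ h1 h2 : ℝ, h0 ≤ h1 → h1 ≤ h2 → ‖f (h1 + t * I : ℂ)‖ ≤ ‖f (h2 + t * I : ℂ)‖ := by
    intro h1 h2 h01 h12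
    have h3 := limit_ineq h.fdiff hp1 hp2 (t := t) (fun N x => hp3 N x t) h.top h0n h01 h12 ∅
      (fun b hb h4 h5 => by
        have := hZ b hb h5
        linarith) (fun b hb => by simp at hb)
    simpa using h3
  have hne : ∀ x : ℝ, h0 < x → f (x + t * I : ℂ) ≠ 0 := by
    intro x hx h1
    have h2 := hZ _ h1 (by
      simp only [add_re, ofReal_re, mul_re, I_re, mul_zero, ofReal_im, I_im, mul_one, sub_self, add_zero]
      exact lt_of_lt_of_le hx (le_abs_self _))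
    simp only [add_re, ofReal_re, mul_re, I_re, mul_zero, ofReal_im, I_im, mul_one, sub_self, add_zero,
      add_im, mul_im, zero_add, abs_zero] at h2
    have h3 := abs_pos.mpr (ne_of_gt (lt_of_le_of_lt h0n hx))
    linarith
  intro h1 hh1 h2 hh2 h12
  rw [Set.mem_Ici] at hh1 hh2
  show ‖f (h1 + t * I : ℂ)‖ < ‖f (h2 + t * I : ℂ)‖
  by_contra hcon
  push Not at hcon
  have hconst : ∀ x ∈ Set.Ioo h1 h2, ‖f (x + t * I : ℂ)‖ = ‖f (h1 + t * I : ℂ)‖ := by
    intro x hh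
    have a1 := hg h1 x hh1 hh.1.le
    have a2 := hg x h2 (hh1.trans hh.1.le) hh.2.le
    linarith
  obtain ⟨G, hG⟩ : ∃ G : ℂ → ℂ, G = fun z => f (z + t * I) * f (-z + t * I) - ((‖f (h1 + t * I : ℂ)‖ : ℂ)) ^ 2 := ⟨_, rfl⟩
  have hGd : Differentiable ℂ G := by
    rw [hG]
    have e1 : Differentiable ℂ (fun z : ℂ => f (z + t * I)) := h.fdiff.comp (by fun_prop)
    have e2 : Differentiable ℂ (fun z : ℂ => f (-z + t * I)) := h.fdiff.comp (by fun_prop)
    exact (e1.mul e2).sub_const _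
  have hG0 : ∀ x ∈ Set.Ioo h1 h2, G x = 0 := by
    intro x hh
    rw [hG]
    simp only
    have e1 : (-x + t * I : ℂ) = -((starRingEnd ℂ) (x + t * I : ℂ)) := by
      rw [map_add, map_mul, Complex.conj_ofReal, Complex.conj_ofReal, Complex.conj_I]; ring
    rw [e1, h.even, h.fconj, Complex.mul_conj, Complex.normSq_eq_norm_sq, hconst x hh]
    push_cast
    ring
  have hGz : G = 0 := by
    have hm : (((h1 + h2) / 2 : ℝ) : ℂ) ∈ (Set.univ : Set ℂ) := Set.mem_univ _
    have hfreq : ∃ᶠ z in 𝓝[≠] (((h1 + h2) / 2 : ℝ) : ℂ), G z = 0 := by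
      have hmap : Tendsto (fun x : ℝ => (x : ℂ)) (𝓝[≠] ((h1 + h2) / 2)) (𝓝[≠] (((h1 + h2) / 2 : ℝ) : ℂ)) := by
        refine tendsto_nhdsWithin_iff.mpr ⟨(Complex.continuous_ofReal.tendsto _).mono_left nhdsWithin_le_nhds, ?_⟩
        filter_upwards [self_mem_nhdsWithin] with x hx
        rw [Set.mem_compl_singleton_iff] at hx ⊢
        exact fun h0 => hx (by exact_mod_cast h0)
      refine hmap.frequently (Eventually.frequently ?_)
      have : ∀ᶠ x : ℝ in 𝓝 ((h1 + h2) / 2), x ∈ Set.Ioo h1 h2 := isOpen_Ioo.mem_nhds ⟨by linarith, by linarith⟩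
      filter_upwards [this.filter_mono nhdsWithin_le_nhds] with x hx
      exact hG0 x hx
    have h3 := AnalyticOnNhd.eqOn_zero_of_preconnected_of_frequently_eq_zero (f := G) (U := Set.univ)
      (fun z _ => hGd.analyticAt z) isPreconnected_univ hm hfreq
    funext z
    exact h3 (Set.mem_univ z)
  obtain ⟨z0, hz0⟩ := h.exists_zero
  have h4 := congrFun hGz (z0 - t * I)
  rw [hG] at h4
  simp only [Pi.zero_apply, sub_add_cancel, hz0, zero_mul, zero_sub, neg_eq_zero] at h4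
  have h5 : ‖f (h1 + t * I : ℂ)‖ = 0 := by
    have := pow_eq_zero_iff (two_ne_zero) |>.mp h4
    exact_mod_cast this
  have hmid := hconst ((h1 + h2) / 2) ⟨by linarith, by linarith⟩
  have h6 := hne ((h1 + h2) / 2) (by linarith)
  rw [h5] at hmid
  exact h6 (norm_eq_zero.mp hmid)

end

end Pool.Agent.Y22.RX
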