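import Mathlib
import Pool.Agent.Y22.RX1

set_option autoImplicit false

/-! From a log-free density bound to the measure of the heights at which the growth fails. -/

namespace Pool.Agent.Y22.RX

open MeasureTheory Set Filter Complex

noncomputable section

/-- a sum of distances from the counting function -/
theorem sum_le {ι : Type*} (Z : Finset ι) (g : ι → ℝ) {h0 A a : ℝ} (ha : 0 < a) (h0n : 0 ≤ h0) (hA : 0 ≤ A)
    (hg : ∀ b ∈ Z, h0 ≤ g b)
    (hcount : ∀ u : ℝ, h0 ≤ u → ((Z.filter (fun b => u ≤ g b)).card : ℝ) ≤ A * Real.exp (-(a * u))) :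
    ∑ b ∈ Z, g b ≤ A * Real.exp (-(a * h0)) * (h0 + 1 / a) := by
  classical
  obtain ⟨M, hM0, hM⟩ : ∃ M : ℝ, h0 ≤ M ∧ ∀ b ∈ Z, g b ≤ M := by
    refine ⟨h0 + ∑ b ∈ Z, |g b|, ?_, fun b hb => ?_⟩
    · have : 0 ≤ ∑ b ∈ Z, |g b| := Finset.sum_nonneg fun _ _ => abs_nonneg _
      linarith
    · have h1 := Finset.single_le_sum (f := fun b => |g b|) (fun _ _ => abs_nonneg _) hb
      have h2 := le_abs_self (g b)
      linarith
  have hb : ∀ b ∈ Z, g b - h0 = ∫ u in h0..M, (Set.indicator {u : ℝ | u ≤ g b} (fun _ => (1 : ℝ)) u) := by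
    intro b hb
    rw [intervalIntegral.integral_indicator ⟨hg b hb, hM b hb⟩]
    simp
  have hint : ∀ b ∈ Z, IntervalIntegrable (fun u : ℝ => Set.indicator {u : ℝ | u ≤ g b} (fun _ => (1 : ℝ)) u) volume h0 M := by
    intro b _
    rw [intervalIntegrable_iff]
    refine Integrable.indicator ?_ measurableSet_Iic
    rw [← IntegrableOn, ← intervalIntegrable_iff]
    exact intervalIntegrable_const
  have hsum : ∑ b ∈ Z, (g b - h0) = ∫ u in h0..M, ∑ b ∈ Z, Set.indicator {u : ℝ | u ≤ g b} (fun _ => (1 : ℝ)) u := by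
    rw [intervalIntegral.integral_finsetSum hint]
    exact Finset.sum_congr rfl hb
  have hint2 : IntervalIntegrable (fun u : ℝ => A * Real.exp (-(a * u))) volume h0 M :=
    (by fun_prop : Continuous fun u : ℝ => A * Real.exp (-(a * u))).intervalIntegrable _ _
  have hle : ∑ b ∈ Z, (g b - h0) ≤ ∫ u in h0..M, A * Real.exp (-(a * u)) := by
    rw [hsum]
    refine intervalIntegral.integral_mono_on hM0 ?_ hint2 ?_
    · have := IntervalIntegrable.sum (s := Z) (f := fun b u => Set.indicator {u : ℝ | u ≤ g b} (fun _ => (1 : ℝ)) u) hint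
      simpa [Finset.sum_fn] using this
    · intro u hu
      refine le_trans (le_of_eq ?_) (hcount u hu.1)
      rw [Finset.card_filter]
      push_cast
      refine Finset.sum_congr rfl fun b _ => ?_
      rw [Set.indicator_apply]
      rfl
  have hI : ∫ u in h0..M, A * Real.exp (-(a * u)) ≤ A * Real.exp (-(a * h0)) / a := by
    have hd : ∀ u ∈ Set.uIcc h0 M, HasDerivAt (fun u : ℝ => -(A / a) * Real.exp (-(a * u))) (A * Real.exp (-(a * u))) u := by
      intro u _
      have h1 : HasDerivAt (fun u : ℝ => -(a * u)) (-(a * 1)) u := ((hasDerivAt_id u).const_mul a).neg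
      have h2 := (h1.exp).const_mul (-(A / a))
      refine h2.congr_deriv ?_
      field_simp
    rw [intervalIntegral.integral_eq_sub_of_hasDerivAt hd hint2]
    have h3 : 0 ≤ A / a * Real.exp (-(a * M)) := by positivity
    have h4 : A * Real.exp (-(a * h0)) / a = A / a * Real.exp (-(a * h0)) := by ring
    rw [h4]
    linarith
  have hcard : (Z.card : ℝ) ≤ A * Real.exp (-(a * h0)) := by
    have h1 := hcount h0 le_rfl
    rwa [Finset.filter_true_of_mem hg] at h1
  have hsplit : ∑ b ∈ Z, g b = ∑ b ∈ Z, (g b - h0) + Z.card * h0 := by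
    rw [Finset.sum_sub_distrib, Finset.sum_const, nsmul_eq_mul]
    ring
  rw [hsplit]
  have h5 := mul_le_mul_of_nonneg_right hcard h0n
  have h6 : A * Real.exp (-(a * h0)) * (h0 + 1 / a) =
      A * Real.exp (-(a * h0)) * h0 + A * Real.exp (-(a * h0)) / a := by ring
  rw [h6]
  linarith

/-- the zeros above the real line at distance at least `δ` from the imaginary axis -/
def S (f : ℂ → ℂ) (δ T : ℝ) : Set ℂ := {b | f b = 0 ∧ δ ≤ |b.re| ∧ 0 < b.im ∧ b.im ≤ T}

/-- the heights at which the growth fails -/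
def Bad (f : ℂ → ℂ) (h0 T : ℝ) : Set ℝ :=
  {t : ℝ | 0 ≤ t ∧ t ≤ T ∧ ¬ StrictMonoOn (fun x : ℝ => ‖f (x + t * I : ℂ)‖) (Set.Ici h0)}

variable {f F : ℂ → ℂ} {K : ℝ}

theorem Ev.bad_cover (h : Ev f F K) {D h0 T : ℝ} (hD : ∀ b, f b = 0 → |b.re| ≤ D) (hre : ∀ x : ℝ, f x ≠ 0)
    (h0n : 0 ≤ h0) {t : ℝ} (ht : t ∈ Bad f h0 T) :
    ∃ b ∈ S f h0 (T + D), t ∈ Set.Icc (b.im - |b.re|) (b.im + |b.re|) := by
  obtain ⟨ht0, htT, hbad⟩ := ht
  by_contra hcon
  apply hbad
  refine h.strict h0n fun b hb hb0 => ?_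
  by_contra hlt
  push Not at hlt
  apply hcon
  have hDb := hD b hb
  rcases lt_trichotomy b.im 0 with him | him | him
  · refine ⟨(starRingEnd ℂ) b, ⟨?_, ?_, ?_, ?_⟩, ?_⟩
    · rw [h.fconj, hb, map_zero]
    · rw [Complex.conj_re]; exact hb0.le
    · rw [Complex.conj_im]; linarith
    · rw [Complex.conj_im]
      rw [abs_lt] at hlt
      linarith
    · rw [Complex.conj_im, Complex.conj_re]
      rw [abs_lt] at hlt
      constructor <;> linarith
  · exfalso
    refine hre b.re ?_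
    have : ((b.re : ℝ) : ℂ) = b := by
      apply Complex.ext
      · simp
      · simp [him]
    rw [this]
    exact hb
  · refine ⟨b, ⟨hb, hb0.le, him, ?_⟩, ?_⟩
    · rw [abs_lt] at hlt
      linarith
    · rw [abs_lt] at hlt
      constructor <;> linarith

theorem Ev.bad_meas (h : Ev f F K) {D : ℝ} (hD : ∀ b, f b = 0 → |b.re| ≤ D) (hre : ∀ x : ℝ, f x ≠ 0)
    {c C : ℝ} (hc : 0 < c) (hC : 0 < C)
    (hcount : ∀ δ T : ℝ, 0 ≤ δ → 2 ≤ T → (S f δ T).Finite ∧
      ((S f δ T).ncard : ℝ) ≤ C * T ^ (1 - c * δ) * Real.log T) :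
    ∃ C' : ℝ, 0 < C' ∧ ∀ r T : ℝ, 0 ≤ r → 2 ≤ T →
      volume (Bad f (r / Real.log T) T) ≤ ENNReal.ofReal (C' * (1 + r) * Real.exp (-(c * r)) * T) := by
  classical
  obtain ⟨D', hD1, hD'⟩ : ∃ D' : ℝ, 1 ≤ D' ∧ ∀ b, f b = 0 → |b.re| ≤ D' :=
    ⟨max D 1, le_max_right _ _, fun b hb => (hD b hb).trans (le_max_left _ _)⟩
  have hl2 : 0 < Real.log 2 := Real.log_pos (by norm_num)
  have hlD : 0 ≤ Real.log (1 + D') := Real.log_nonneg (by linarith)
  obtain ⟨E, hE⟩ : ∃ E : ℝ, E = 1 + Real.log (1 + D') / Real.log 2 := ⟨_, rfl⟩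
  have hE1 : 1 ≤ E := by
    rw [hE]
    have : 0 ≤ Real.log (1 + D') / Real.log 2 := by positivity
    linarith
  refine ⟨2 * C * (1 + D') * E * (1 + 1 / c), by positivity, fun r T hr hT => ?_⟩
  have hT0 : 0 < T := by linarith
  set L := Real.log T with hL
  have hL2 : Real.log 2 ≤ L := Real.log_le_log (by norm_num) hT
  have hL0 : 0 < L := lt_of_lt_of_le hl2 hL2
  set h0 := r / L with hh0
  have h0n : 0 ≤ h0 := by positivity
  set T' := (1 + D') * T with hT'
  have hT'2 : 2 ≤ T' := by rw [hT']; nlinarith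
  have hT'0 : 0 < T' := by linarith
  have hTD : T + D' ≤ T' := by rw [hT']; nlinarith
  have hTT' : T ≤ T' := by linarith
  have hlogT' : Real.log T' = Real.log (1 + D') + L := by
    rw [hT', Real.log_mul (by linarith) hT0.ne']
  have hlogT'1 : Real.log T' ≤ E * L := by
    rw [hlogT', hE]
    have h1 : Real.log (1 + D') ≤ Real.log (1 + D') / Real.log 2 * L := by
      rw [div_mul_eq_mul_div, le_div_iff₀ hl2]
      exact mul_le_mul_of_nonneg_left hL2 hlD
    linarith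
  have hlogT'2 : L ≤ Real.log T' := by rw [hlogT']; linarith
  have hfin := (hcount h0 T' h0n hT'2).1
  set Z := hfin.toFinset with hZ
  have hmem : ∀ b, b ∈ Z ↔ b ∈ S f h0 T' := fun b => by rw [hZ, Set.Finite.mem_toFinset]
  -- counting
  have hcnt : ∀ u : ℝ, h0 ≤ u → ((Z.filter (fun b => u ≤ |b.re|)).card : ℝ) ≤
      (C * (1 + D') * E * T * L) * Real.exp (-((c * L) * u)) := by
    intro u hu
    have hu0 : 0 ≤ u := h0n.trans hu
    obtain ⟨hf1, hf2⟩ := hcount u T' hu0 hT'2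
    have h1 : (Z.filter (fun b => u ≤ |b.re|)).card ≤ (S f u T').ncard := by
      rw [← Set.ncard_coe_finset]
      refine Set.ncard_le_ncard ?_ hf1
      intro b hb
      rw [Finset.mem_coe, Finset.mem_filter, hmem] at hb
      exact ⟨hb.1.1, hb.2, hb.1.2.2.1, hb.1.2.2.2⟩
    have h2 : (((Z.filter (fun b => u ≤ |b.re|)).card : ℕ) : ℝ) ≤ ((S f u T').ncard : ℝ) := by exact_mod_cast h1
    refine h2.trans (hf2.trans ?_)
    have h3 : T' ^ (1 - c * u) = T' * Real.exp (-(c * u * Real.log T')) := by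
      rw [Real.rpow_def_of_pos hT'0]
      have : Real.log T' * (1 - c * u) = Real.log T' + -(c * u * Real.log T') := by ring
      rw [this, Real.exp_add, Real.exp_log hT'0]
    have h4 : Real.exp (-(c * u * Real.log T')) ≤ Real.exp (-((c * L) * u)) := by
      apply Real.exp_le_exp.mpr
      have := mul_le_mul_of_nonneg_left hlogT'2 (mul_nonneg hc.le hu0)
      linarith
    have hlogn : 0 ≤ Real.log T' := hL0.le.trans hlogT'2
    calc C * T' ^ (1 - c * u) * Real.log T'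
        = C * (T' * Real.exp (-(c * u * Real.log T'))) * Real.log T' := by rw [h3]
      _ ≤ C * (T' * Real.exp (-((c * L) * u))) * (E * L) := by
          gcongr
      _ = (C * (1 + D') * E * T * L) * Real.exp (-((c * L) * u)) := by rw [hT']; ring
  have hsum := sum_le Z (fun b => |b.re|) (h0 := h0) (A := C * (1 + D') * E * T * L) (a := c * L)
    (by positivity) h0n (by positivity) (fun b hb => ((hmem b).mp hb).2.1) hcnt
  -- cover
  have hsub : Bad f h0 T ⊆ ⋃ b ∈ Z, Set.Icc (b.im - |b.re|) (b.im + |b.re|) := by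
    intro t ht
    obtain ⟨b, hb, htb⟩ := h.bad_cover hD' hre h0n ht
    refine Set.mem_biUnion (x := b) ?_ htb
    rw [Finset.mem_coe, hmem]
    exact ⟨hb.1, hb.2.1, hb.2.2.1, hb.2.2.2.trans hTD⟩
  refine (measure_mono hsub).trans ((measure_biUnion_finset_le Z _).trans ?_)
  have h5 : ∑ b ∈ Z, volume (Set.Icc (b.im - |b.re|) (b.im + |b.re|)) = ENNReal.ofReal (2 * ∑ b ∈ Z, |b.re|) := by
    rw [Finset.mul_sum, ENNReal.ofReal_sum_of_nonneg (fun b _ => by positivity)]
    refine Finset.sum_congr rfl fun b _ => ?_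
    rw [Real.volume_Icc]
    congr 1
    ring
  rw [h5]
  refine ENNReal.ofReal_le_ofReal ?_
  have h6 : (c * L) * h0 = c * r := by
    rw [hh0]; field_simp
  rw [h6] at hsum
  have h7 : (C * (1 + D') * E * T * L) * Real.exp (-(c * r)) * (h0 + 1 / (c * L)) =
      C * (1 + D') * E * T * Real.exp (-(c * r)) * (r + 1 / c) := by
    rw [hh0]; field_simp
  rw [h7] at hsum
  have h8 : r + 1 / c ≤ (1 + 1 / c) * (1 + r) := by
    have : 0 ≤ 1 / c := by positivity
    nlinarith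
  have h9 : C * (1 + D') * E * T * Real.exp (-(c * r)) * (r + 1 / c) ≤
      C * (1 + D') * E * T * Real.exp (-(c * r)) * ((1 + 1 / c) * (1 + r)) :=
    mul_le_mul_of_nonneg_left h8 (by positivity)
  calc 2 * ∑ b ∈ Z, |b.re| ≤ 2 * (C * (1 + D') * E * T * Real.exp (-(c * r)) * ((1 + 1 / c) * (1 + r))) := by linarith
    _ = 2 * C * (1 + D') * E * (1 + 1 / c) * (1 + r) * Real.exp (-(c * r)) * T := by ring

/-- the final form -/
theorem Ev.bad_all (h : Ev f F K) {D : ℝ} (hD : ∀ b, f b = 0 → |b.re| ≤ D) (hre : ∀ x : ℝ, f x ≠ 0)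
    (hcount : ∀ c : ℝ, c < 1 → ∃ C : ℝ, 0 < C ∧ ∀ δ T : ℝ, 0 ≤ δ → 2 ≤ T → (S f δ T).Finite ∧
      ((S f δ T).ncard : ℝ) ≤ C * T ^ (1 - c * δ) * Real.log T) {c : ℝ} (hc : c < 1) :
    ∃ C' : ℝ, 0 < C' ∧ ∀ r T : ℝ, 0 ≤ r → 2 ≤ T →
      volume (Bad f (r / Real.log T) T) ≤ ENNReal.ofReal (C' * Real.exp (-(c * r)) * T) := by
  obtain ⟨c1, hc1, hcc1, hc11⟩ : ∃ c1 : ℝ, 0 < c1 ∧ c < c1 ∧ c1 < 1 := by
    refine ⟨max ((c + 1) / 2) (1 / 2), ?_, ?_, ?_⟩
    · exact lt_of_lt_of_le (by norm_num) (le_max_right _ _)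
    · exact lt_of_lt_of_le (by linarith) (le_max_left _ _)
    · exact max_lt (by linarith) (by norm_num)
  obtain ⟨C, hC, h1⟩ := hcount c1 hc11
  obtain ⟨C1, hC1, h2⟩ := h.bad_meas hD hre hc1 hC h1
  have hd : 0 < c1 - c := by linarith
  refine ⟨C1 * max 1 (1 / (c1 - c)), by positivity, fun r T hr hT => (h2 r T hr hT).trans ?_⟩
  refine ENNReal.ofReal_le_ofReal ?_
  have h3 : 1 + r ≤ max 1 (1 / (c1 - c)) * Real.exp ((c1 - c) * r) := by
    have h4 : 1 + (c1 - c) * r ≤ Real.exp ((c1 - c) * r) := by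
      have := Real.add_one_le_exp ((c1 - c) * r)
      linarith
    have h5 : 1 + r ≤ max 1 (1 / (c1 - c)) * (1 + (c1 - c) * r) := by
      have h6 : 1 ≤ max 1 (1 / (c1 - c)) := le_max_left _ _
      have h7 : 1 ≤ max 1 (1 / (c1 - c)) * (c1 - c) := by
        have := mul_le_mul_of_nonneg_right (le_max_right 1 (1 / (c1 - c))) hd.le
        rwa [one_div_mul_cancel hd.ne'] at this
      nlinarith [mul_le_mul_of_nonneg_right h7 hr]
    exact h5.trans (mul_le_mul_of_nonneg_left h4 (by positivity))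
  have h8 : Real.exp ((c1 - c) * r) * Real.exp (-(c1 * r)) = Real.exp (-(c * r)) := by
    rw [← Real.exp_add]
    congr 1
    ring
  have hT0 : 0 < T := by linarith
  calc C1 * (1 + r) * Real.exp (-(c1 * r)) * T
      ≤ C1 * (max 1 (1 / (c1 - c)) * Real.exp ((c1 - c) * r)) * Real.exp (-(c1 * r)) * T := by gcongr
    _ = C1 * max 1 (1 / (c1 - c)) * (Real.exp ((c1 - c) * r) * Real.exp (-(c1 * r))) * T := by ring
    _ = C1 * max 1 (1 / (c1 - c)) * Real.exp (-(c * r)) * T := by rw [h8]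

end

end Pool.Agent.Y22.RX
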