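import Mathlib
import Pool.Agent.Y22.RX2
import Pool.Agent.H128R3.GJB
import Pool.Agent.H128R3.JD.DelHk

set_option autoImplicit false

/-! Hecke series with a positive kernel: the completed function satisfies the hypotheses of `Ev`. -/

namespace Pool.Agent.Y22.RX

open Complex Filter Topology
open Pool.Agent.H471R3.GJ
open Pool.Agent.H128R3.GJB (X1)

noncomputable section

/-- the kernel is positive -/
lemma gam_pos {H : Hk} (h : IsHk H) (he : H.ε = 1) (hφ : ∀ y, 0 < y → 0 < H.φ y) : ∀ k, 0 < gam (dat H) k := by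
  obtain ⟨hxx, -, -, hL⟩ := Pool.Agent.H128R3.GJA.isHk_isL H h
  refine gamPos (dat H) hL fun t => ?_
  show 0 < PhiH H t
  unfold PhiH
  rw [if_pos he]
  unfold Phi0
  have := Pool.Agent.H128R3.GJB.kp_pos h
  have h2 := hφ (Real.exp (t / kp H)) (Real.exp_pos _)
  positivity

theorem ev_hecke {H : Hk} (h : IsHk H) (he : H.ε = 1) (hφ : ∀ y, 0 < y → 0 < H.φ y) :
    ∃ (F : ℂ → ℂ) (K : ℝ), Ev (X1 H) F K := by
  obtain ⟨hxx, -, -, hL⟩ := Pool.Agent.H128R3.GJA.isHk_isL H h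
  have hb := b1 (dat H) hL
  obtain ⟨K, hK⟩ := grow (dat H) hL hb
  have hgam := gam_pos h he hφ
  obtain ⟨hF, hX, hconj, hder⟩ := hb
  have hk1 := Pool.Agent.H128R3.GJB.kp_one h
  have hk0 := Pool.Agent.H128R3.GJB.kp_pos h
  have hkne := Pool.Agent.H128R3.GJB.kp_ne h
  have hx1 : ∀ z, FF (dat H) (z ^ 2 / ((kp H : ℂ)) ^ 2) = X1 H z := by
    intro z
    rw [← div_pow, hX, Pool.Agent.H128R3.GJB.X1_eq h, if_pos he, one_mul]
  refine ⟨fun x => FF (dat H) (x / ((kp H : ℂ)) ^ 2), max K 0, ?_, ?_, ?_, ?_, hx1, ?_⟩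
  · exact hF.comp (differentiable_id.div_const _)
  · have h1 := hder 0
    rw [iteratedDeriv_zero] at h1
    simp only [zero_div]
    rw [h1]
    exact_mod_cast (hgam 0).ne'
  · intro x
    have h1 : (starRingEnd ℂ) x / ((kp H : ℂ)) ^ 2 = (starRingEnd ℂ) (x / ((kp H : ℂ)) ^ 2) := by
      rw [map_div₀, map_pow, Complex.conj_ofReal]
    rw [h1, hconj]
  · intro x
    refine (hK _).trans (Real.exp_le_exp.mpr ?_)
    have h1 : ‖x / ((kp H : ℂ)) ^ 2‖ ≤ ‖x‖ := by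
      rw [norm_div, norm_pow, Complex.norm_real, Real.norm_eq_abs, abs_of_pos hk0]
      exact div_le_self (norm_nonneg _) (one_le_pow₀ hk1)
    have h2 : (1 + ‖x / ((kp H : ℂ)) ^ 2‖) ^ (3 / 4 : ℝ) ≤ (1 + ‖x‖) ^ (3 / 4 : ℝ) :=
      Real.rpow_le_rpow (by positivity) (by linarith) (by norm_num)
    calc K * (1 + ‖x / ((kp H : ℂ)) ^ 2‖) ^ (3 / 4 : ℝ)
        ≤ max K 0 * (1 + ‖x / ((kp H : ℂ)) ^ 2‖) ^ (3 / 4 : ℝ) :=
          mul_le_mul_of_nonneg_right (le_max_left _ _) (by positivity)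
      _ ≤ max K 0 * (1 + ‖x‖) ^ (3 / 4 : ℝ) := mul_le_mul_of_nonneg_left h2 (le_max_right _ _)
  · by_contra hcon
    push Not at hcon
    have h1 : FF (dat H) = fun _ => X1 H 0 := by
      funext x
      obtain ⟨z, hz⟩ := IsAlgClosed.exists_pow_nat_eq (x * ((kp H : ℂ)) ^ 2) (n := 2) (by norm_num)
      rw [← hcon z, ← hx1 z, hz, mul_div_cancel_right₀ _ (pow_ne_zero 2 hkne)]
    have h2 := hder 1
    rw [h1, iteratedDeriv_one, deriv_const] at h2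
    have h3 : gam (dat H) 1 = 0 := by exact_mod_cast h2.symm
    exact (hgam 1).ne' h3

/-- the zeros are in a strip -/
lemma zeros_strip {H : Hk} (h : IsHk H) (he : H.ε = 1) : ∀ b : ℂ, X1 H b = 0 → |b.re| ≤ kp H / 2 := by
  intro b hb
  obtain ⟨hxx, -, -, hL⟩ := Pool.Agent.H128R3.GJA.isHk_isL H h
  have hk0 := Pool.Agent.H128R3.GJB.kp_pos h
  rw [Pool.Agent.H128R3.GJB.X1_eq h, if_pos he, one_mul] at hb
  have h1 := hL.XX_zero _ hb
  rw [Complex.div_ofReal_re, abs_div, abs_of_pos hk0, div_le_iff₀ hk0] at h1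
  linarith

/-- no real zeros -/
lemma real_ne {H : Hk} (h : IsHk H) (he : H.ε = 1) (hφ : ∀ y, 0 < y → 0 < H.φ y) (x : ℝ) : X1 H x ≠ 0 := by
  obtain ⟨hxx, -, -, hL⟩ := Pool.Agent.H128R3.GJA.isHk_isL H h
  have hk0 := Pool.Agent.H128R3.GJB.kp_pos h
  have hgam := gam_pos h he hφ
  intro hb
  rw [Pool.Agent.H128R3.GJB.X1_eq h, if_pos he, one_mul] at hb
  have h1 := B1h.hasSum_XX (dat H) hL ((x : ℂ) / kp H)
  rw [hb] at h1
  have h2 := Complex.hasSum_re h1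
  have h3 : ∀ k : ℕ, (((gam (dat H) k : ℝ) : ℂ) / (k.factorial : ℂ) * (((x : ℂ) / kp H) ^ 2) ^ k).re =
      gam (dat H) k / (k.factorial : ℝ) * ((x / kp H) ^ 2) ^ k := by
    intro k
    have : (((gam (dat H) k : ℝ) : ℂ) / (k.factorial : ℂ) * (((x : ℂ) / kp H) ^ 2) ^ k) =
        ((gam (dat H) k / (k.factorial : ℝ) * ((x / kp H) ^ 2) ^ k : ℝ) : ℂ) := by push_cast; ring
    rw [this, Complex.ofReal_re]
  simp only [h3, Complex.zero_re] at h2
  have h4 : ∀ k : ℕ, 0 ≤ gam (dat H) k / (k.factorial : ℝ) * ((x / kp H) ^ 2) ^ k := by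
    intro k
    have := hgam k
    positivity
  have h5 := le_hasSum h2 0 (fun k _ => h4 k)
  have h6 := hgam 0
  simp at h5
  linarith

/-- the discriminant -/
theorem ev_delta : ∃ (B : ℝ) (F : ℂ → ℂ) (K : ℝ), IsHk (Pool.Agent.H128R3.JD.DelHk.hk B) ∧
    Ev (X1 (Pool.Agent.H128R3.JD.DelHk.hk B)) F K := by
  obtain ⟨B, hB⟩ := Pool.Agent.H128R3.JD.DelHk.isHk
  obtain ⟨F, K, h⟩ := ev_hecke hB rfl (fun y hy => Pool.Agent.H128R3.JD.DelK.Dl_pos hy)
  exact ⟨B, F, K, hB, h⟩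

end

end Pool.Agent.Y22.RX
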