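import Mathlib
import Pool.Agent.Y22.RX3

set_option autoImplicit false

/-! The growth theorem for the discriminant, from the density theorem. -/

namespace Pool.Agent.Y22.RX

open Complex Filter Topology MeasureTheory
open Pool.Agent.H128R3.GJB (X1)

noncomputable section

/-- the zeros of `G` to the right of the imaginary axis at distance at least `δ` from the real line -/
def Off (G : ℂ → ℂ) (δ T : ℝ) : Set ℂ := {z | G z = 0 ∧ δ ≤ |z.im| ∧ 0 < z.re ∧ z.re ≤ T}

theorem Ev.transfer {f F : ℂ → ℂ} {K : ℝ} (h : Ev f F K) {G : ℂ → ℂ} (hG : ∀ z, G z = f (I * z)) {δ T B : ℝ}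
    (h1 : (Off G δ T).Finite) (h2 : ((∑ᶠ z ∈ Off G δ T, analyticOrderNatAt G z : ℕ) : ℝ) ≤ B) :
    (S f δ T).Finite ∧ ((S f δ T).ncard : ℝ) ≤ B := by
  classical
  have himg : S f δ T = (fun z : ℂ => I * z) '' (Off G δ T) := by
    ext b
    constructor
    · rintro ⟨hb1, hb2, hb3, hb4⟩
      have e : I * (-I * b) = b := by
        have := Complex.I_mul_I
        linear_combination (-b) * this
      refine ⟨-I * b, ⟨?_, ?_, ?_, ?_⟩, e⟩
      · rw [hG, e]; exact hb1
      · simpa using hb2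
      · simpa using hb3
      · simpa using hb4
    · rintro ⟨z, ⟨hz1, hz2, hz3, hz4⟩, rfl⟩
      refine ⟨?_, ?_, ?_, ?_⟩
      · rw [← hG]; exact hz1
      · simpa using hz2
      · simpa using hz3
      · simpa using hz4
  refine ⟨by rw [himg]; exact h1.image _, ?_⟩
  have hGd : Differentiable ℂ G := by
    have : G = fun z => f (I * z) := funext hG
    rw [this]
    exact h.fdiff.comp (by fun_prop)
  have hGtop : ∀ z, analyticOrderAt G z ≠ ⊤ := by
    intro z hz
    rw [analyticOrderAt_eq_top] at hz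
    have h3 : AnalyticOnNhd ℂ G Set.univ := fun z _ => hGd.analyticAt z
    have h4 := h3.eqOn_zero_of_preconnected_of_eventuallyEq_zero isPreconnected_univ (Set.mem_univ z) hz
    have h5 := h4 (Set.mem_univ 0)
    rw [hG, mul_zero] at h5
    exact h.f0 h5
  have hle : (S f δ T).ncard ≤ ∑ᶠ z ∈ Off G δ T, analyticOrderNatAt G z := by
    rw [himg]
    refine (Set.ncard_image_le h1).trans ?_
    rw [finsum_mem_eq_finite_toFinset_sum _ h1, Set.ncard_eq_toFinset_card _ h1, Finset.card_eq_sum_ones]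
    refine Finset.sum_le_sum fun z hz => ?_
    rw [Set.Finite.mem_toFinset] at hz
    by_contra hlt
    push Not at hlt
    have h6 : analyticOrderNatAt G z = 0 := by omega
    have h7 : analyticOrderAt G z = 0 := by
      rw [← Nat.cast_analyticOrderNatAt (hGtop z), h6]
      rfl
    exact ((hGd.analyticAt z).analyticOrderAt_eq_zero.mp h7) hz.1
  exact le_trans (by exact_mod_cast hle) h2

/-- the growth theorem for the discriminant, from the density theorem -/
theorem delta_of {G : ℂ → ℂ} (hG : ∀ z, G z = mellin (fun y : ℝ => ((Pool.Agent.H128R3.JD.DelK.Dl y : ℝ) : ℂ)) (6 + I * z))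
    (hdens : ∀ c : ℝ, c < 1 → ∃ C : ℝ, 0 < C ∧ ∀ δ T : ℝ, 0 ≤ δ → 2 ≤ T → (Off G δ T).Finite ∧
      ((∑ᶠ z ∈ Off G δ T, analyticOrderNatAt G z : ℕ) : ℝ) ≤ C * T ^ (1 - c * δ) * Real.log T) {c : ℝ} (hc : c < 1) :
    ∃ C : ℝ, 0 < C ∧ ∀ r T : ℝ, 0 ≤ r → 2 ≤ T →
      volume {x : ℝ | 0 ≤ x ∧ x ≤ T ∧ ¬ StrictMonoOn (fun y : ℝ => ‖G (x + y * I : ℂ)‖) (Set.Ici (r / Real.log T))} ≤
        ENNReal.ofReal (C * Real.exp (-(c * r)) * T) := by
  obtain ⟨B, F, K, hB, h⟩ := ev_delta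
  have hGf : ∀ z, G z = X1 (Pool.Agent.H128R3.JD.DelHk.hk B) (I * z) := by
    intro z
    rw [hG]
    show _ = mellin (fun y : ℝ => ((Pool.Agent.H128R3.JD.DelK.Dl y : ℝ) : ℂ)) ((((12 : ℝ) / 2 : ℝ) : ℂ) + I * z)
    have h6 : (((12 : ℝ) / 2 : ℝ) : ℂ) = 6 := by
      push_cast
      norm_num
    rw [h6]
  obtain ⟨C, hC, h1⟩ := h.bad_all (zeros_strip hB rfl)
    (real_ne hB rfl (fun y hy => Pool.Agent.H128R3.JD.DelK.Dl_pos hy))
    (fun c hc => by
      obtain ⟨C, hC, h2⟩ := hdens c hc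
      exact ⟨C, hC, fun δ T hδ hT => h.transfer hGf (h2 δ T hδ hT).1 (h2 δ T hδ hT).2⟩) hc
  refine ⟨C, hC, fun r T hr hT => ?_⟩
  have hset : {x : ℝ | 0 ≤ x ∧ x ≤ T ∧ ¬ StrictMonoOn (fun y : ℝ => ‖G (x + y * I : ℂ)‖) (Set.Ici (r / Real.log T))} =
      Bad (X1 (Pool.Agent.H128R3.JD.DelHk.hk B)) (r / Real.log T) T := by
    have hn : ∀ x y : ℝ, ‖G (x + y * I : ℂ)‖ = ‖X1 (Pool.Agent.H128R3.JD.DelHk.hk B) (y + x * I : ℂ)‖ := by
      intro x y
      rw [hGf]
      have e : I * (x + y * I : ℂ) = -((starRingEnd ℂ) (y + x * I : ℂ)) := by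
        rw [map_add, map_mul, Complex.conj_ofReal, Complex.conj_ofReal, Complex.conj_I]
        have := Complex.I_mul_I
        linear_combination (y : ℂ) * this
      rw [e, h.even, h.fconj, Complex.norm_conj]
    unfold Bad
    simp only [hn]
  rw [hset]
  exact h1 r T hr hT

end

end Pool.Agent.Y22.RX
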