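import Mathlib
import Pool.Agent.H451R3.Main

/-!
Closed infinite-dimensional spaces of smooth functions all of whose nonzero members have
derivatives of a prescribed size at every point (the construction of `H451R3`, with frequencies
chosen after the prescribed sequence).
-/

set_option autoImplicit false

open Filter Topology Finset

namespace Pool.Agent.Y22.PSG

open Pool.Agent.H451R3.PS

variable {𝕜 : Type*} [RCLike 𝕜]

/-- the function with coefficients `c` and frequencies chosen after `M` -/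
noncomputable def LM (M : ℕ → ℝ) (c : ℕ → 𝕜) (y : ℝ) : 𝕜 := BB c y + TT M (fun k => c (JJ k)) 0 y

lemma norm_TT_zero_le (M : ℕ → ℝ) {c : ℕ → 𝕜} {C : ℝ} (hc : ∀ i, ‖c i‖ ≤ C) (y : ℝ) :
    ‖TT M (fun k => c (JJ k)) 0 y‖ ≤ C / 4 := by
  have hC : 0 ≤ C := (norm_nonneg _).trans (hc 0)
  have h4 : ∑' i : ℕ, (C / 8) * ((1 : ℝ) / 2) ^ i = C / 4 := by
    rw [tsum_mul_left, tsum_geometric_of_lt_one (by norm_num) (by norm_num)]
    ring
  rw [← h4]
  unfold TT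
  apply tsum_of_norm_bounded ((summable_half.mul_left (C / 8)).hasSum)
  intro i
  refine (norm_term_le M (fun k => hc (JJ k)) i 0 y).trans ?_
  have := bb_small M i 0 (by omega)
  calc bb M i 0 * C ≤ ((1 / 8) * (1 / 2) ^ i) * C := mul_le_mul_of_nonneg_right this hC
    _ = _ := by ring

lemma norm_LM_le (M : ℕ → ℝ) {c : ℕ → 𝕜} {C : ℝ} (hc : ∀ i, ‖c i‖ ≤ C) (y : ℝ) :
    ‖LM M c y‖ ≤ 2 * C := by
  have hC : 0 ≤ C := (norm_nonneg _).trans (hc 0)
  unfold LM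
  refine (norm_add_le _ _).trans ?_
  have h1 := norm_BB_le hc y
  have h2 := norm_TT_zero_le M hc y
  linarith

lemma coeff_le (M : ℕ → ℝ) {c : ℕ → 𝕜} {C : ℝ} (hc : ∀ i, ‖c i‖ ≤ C) {D : ℝ}
    (hD : ∀ y ∈ I, ‖LM M c y‖ ≤ D) (j : ℕ) : ‖c j‖ ≤ 2 * D := by
  have hbdd : BddAbove (Set.range fun i => ‖c i‖) := ⟨C, by rintro _ ⟨i, rfl⟩; exact hc i⟩
  set S := ⨆ i, ‖c i‖ with hS
  have hcS : ∀ i, ‖c i‖ ≤ S := fun i => le_ciSup hbdd i
  have hD0 : 0 ≤ D := (norm_nonneg _).trans (hD 0 (by norm_num))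
  have h1 : ∀ i, ‖c i‖ ≤ D + S / 4 := by
    intro i
    have h2 : c i = LM M c (3 * (1 / 2 : ℝ) ^ (i + 2)) -
        TT M (fun k => c (JJ k)) 0 (3 * (1 / 2 : ℝ) ^ (i + 2)) := by
      unfold LM
      rw [BB_center]
      ring
    rw [h2]
    exact (norm_sub_le _ _).trans (add_le_add (hD _ (center_mem i)) (norm_TT_zero_le M hcS _))
  have h3 : S ≤ D + S / 4 := ciSup_le h1
  have := hcS j
  linarith

/-- the operator as a linear map -/
noncomputable def LO (M : ℕ → ℝ) : Bd 𝕜 →ₗ[𝕜] (I → 𝕜) where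
  toFun c x := LM M (c : ℕ → 𝕜) x
  map_add' c d := by
    funext x
    simp only [LM, BB, TT, Pi.add_apply, BoundedContinuousFunction.coe_add]
    have h1 : ∑' j, (vv j (x : ℝ)) • (c j + d j) =
        ∑' j, (vv j (x : ℝ)) • c j + ∑' j, (vv j (x : ℝ)) • d j := by
      rw [← (summable_BB (c : ℕ → 𝕜) x).tsum_add (summable_BB (d : ℕ → 𝕜) x)]
      congr 1
      funext j
      rw [smul_add]
    have h2 : ∑' i, ww M i 0 (x : ℝ) • (c (JJ i) + d (JJ i)) =
        ∑' i, ww M i 0 (x : ℝ) • c (JJ i) + ∑' i, ww M i 0 (x : ℝ) • d (JJ i) := by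
      rw [← (summable_term M (fun k => Bd_le c (JJ k)) 0 x).tsum_add
        (summable_term M (fun k => Bd_le d (JJ k)) 0 x)]
      congr 1
      funext j
      rw [smul_add]
    rw [h1, h2]
    ring
  map_smul' a c := by
    funext x
    simp only [LM, BB, TT, RingHom.id_apply, Pi.smul_apply, BoundedContinuousFunction.coe_smul,
      smul_eq_mul]
    have h1 : ∑' j, (vv j (x : ℝ)) • (a * c j) = a * ∑' j, (vv j (x : ℝ)) • c j := by
      rw [← tsum_mul_left]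
      congr 1
      funext j
      rw [mul_smul_comm]
    have h2 : ∑' i, ww M i 0 (x : ℝ) • (a * c (JJ i)) = a * ∑' i, ww M i 0 (x : ℝ) • c (JJ i) := by
      rw [← tsum_mul_left]
      congr 1
      funext j
      rw [mul_smul_comm]
    rw [h1, h2]
    ring

lemma LO_apply (M : ℕ → ℝ) (c : Bd 𝕜) (x : I) : LO M c x = LM M (c : ℕ → 𝕜) x := rfl

lemma norm_le_of_LO (M : ℕ → ℝ) (c : Bd 𝕜) {D : ℝ} (hD : ∀ x : I, ‖LO M c x‖ ≤ D) :
    ‖c‖ ≤ 2 * D := by
  have hD0 : 0 ≤ D := (norm_nonneg _).trans (hD ⟨0, by norm_num⟩)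
  rw [BoundedContinuousFunction.norm_le (by linarith)]
  exact coeff_le M (Bd_le c) (fun y hy => hD ⟨y, hy⟩)

variable (𝕜) in
/-- the continuous functions in the range of the operator -/
def KS (M : ℕ → ℝ) : Set C(I, 𝕜) := {g | ∃ c : Bd 𝕜, LO M c = g}

lemma isClosed_KS (M : ℕ → ℝ) : IsClosed (KS 𝕜 M) := by
  apply IsSeqClosed.isClosed
  intro g G hg hG
  choose c hc using hg
  have hcd : ∀ m l, dist (c m) (c l) ≤ 2 * dist (g m) (g l) := by
    intro m l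
    rw [dist_eq_norm]
    apply norm_le_of_LO M
    intro x
    rw [map_sub, Pi.sub_apply, hc m, hc l, ← dist_eq_norm]
    exact ContinuousMap.dist_apply_le_dist x
  have hcau : CauchySeq c := by
    have hg2 := hG.cauchySeq
    rw [Metric.cauchySeq_iff] at hg2 ⊢
    intro ε hε
    obtain ⟨N, hN⟩ := hg2 (ε / 2) (by linarith)
    refine ⟨N, fun m hm l hl => ?_⟩
    have h1 := hN m hm l hl
    have h2 := hcd m l
    linarith
  obtain ⟨C, hC⟩ := cauchySeq_tendsto_of_complete hcau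
  refine ⟨C, ?_⟩
  funext x
  have h1 : Tendsto (fun m => LO M (c m) x) atTop (𝓝 (LO M C x)) := by
    rw [tendsto_iff_dist_tendsto_zero]
    have h2 : Tendsto (fun m => 2 * dist (c m) C) atTop (𝓝 0) := by
      have := (tendsto_iff_dist_tendsto_zero.1 hC).const_mul 2
      simpa using this
    refine squeeze_zero (fun _ => dist_nonneg) (fun m => ?_) h2
    rw [dist_eq_norm, ← Pi.sub_apply, ← map_sub, LO_apply, dist_eq_norm]
    exact norm_LM_le M (Bd_le (c m - C)) x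
  have h3 : Tendsto (fun m => g m x) atTop (𝓝 (G x)) :=
    ((continuous_eval_const x).tendsto G).comp hG
  have h4 : (fun m => LO M (c m) x) = fun m => g m x := by
    funext m
    rw [hc m]
  rw [h4] at h1
  exact tendsto_nhds_unique h1 h3

/-- the subspace -/
noncomputable def VM (M : ℕ → ℝ) : Submodule 𝕜 (CInf 𝕜) :=
  (LinearMap.range (LO (𝕜 := 𝕜) M)).comap (CInf 𝕜).subtype

lemma mem_VM (M : ℕ → ℝ) (f : CInf 𝕜) : f ∈ VM M ↔ ∃ c : Bd 𝕜, LO M c = f.1 := Iff.rfl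

lemma isClosed_VM (M : ℕ → ℝ) : @IsClosed _ (frechet 𝕜) (VM (𝕜 := 𝕜) M : Set (CInf 𝕜)) := by
  have h1 : (VM (𝕜 := 𝕜) M : Set (CInf 𝕜)) = (fun f => deriv' 0 f) ⁻¹' (KS 𝕜 M) := by
    ext f
    change f ∈ VM M ↔ ∃ c : Bd 𝕜, LO M c = deriv' 0 f
    rw [Pool.Agent.H451R3.PS.deriv_zero]
    exact mem_VM M f
  rw [h1]
  have h2 : @Continuous _ _ (frechet 𝕜) _ (fun f : CInf 𝕜 => deriv' 0 f) := by
    have h3 : @Continuous _ _ (frechet 𝕜) _ (fun (f : CInf 𝕜) (n : ℕ) => deriv' n f) :=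
      continuous_induced_dom
    exact @Continuous.comp _ _ _ (frechet 𝕜) _ _ _ _ (continuous_apply 0) h3
  exact @IsClosed.preimage _ _ (frechet 𝕜) _ _ h2 _ (isClosed_KS M)

lemma deriv_split (M : ℕ → ℝ) (f : CInf 𝕜) (c : Bd 𝕜) (hc : LO M c = f.1) :
    ContDiffOn ℝ (⊤ : ℕ∞) (BB (c : ℕ → 𝕜)) I ∧ ∀ (n : ℕ) (x : I),
      deriv' n f x = iteratedDerivWithin n (BB (c : ℕ → 𝕜)) I x + TT M (fun k => c (JJ k)) n x := by
  have hT := contDiff_TT M (c := fun k => c (JJ k)) (fun k => Bd_le c (JJ k))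
  have hEq : Set.EqOn (ext f.1) (BB (c : ℕ → 𝕜) + TT M (fun k => c (JJ k)) 0) I := by
    intro x hx
    rw [ext_apply _ hx]
    exact (congrFun hc ⟨x, hx⟩).symm
  have hB : ContDiffOn ℝ (⊤ : ℕ∞) (BB (c : ℕ → 𝕜)) I := by
    refine (ContDiffOn.sub f.2 hT.contDiffOn).congr fun x hx => ?_
    rw [hEq hx]
    simp
  refine ⟨hB, fun n x => ?_⟩
  change iteratedDerivWithin n (ext f.1) I x = _
  rw [iteratedDerivWithin_congr hEq x.2, iteratedDerivWithin_add x.2 uI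
    ((hB x x.2).of_le (by exact_mod_cast le_top))
    (hT.contDiffAt.contDiffWithinAt.of_le (by exact_mod_cast le_top)),
    iteratedDerivWithin_eq_iteratedDeriv uI (hT.contDiffAt.of_le (by exact_mod_cast le_top)) x.2,
    iteratedDeriv_TT M (fun k => Bd_le c (JJ k))]

/-- the majorants after which the frequencies are chosen -/
noncomputable def maj (W : ℕ → ℝ) (k : ℕ) : ℝ := MM k + ∑ n ∈ range (2 * k + 4), |W n|

/-- at every point infinitely many derivatives exceed the prescribed ones by any given factor -/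
lemma growth (W : ℕ → ℝ) (f : CInf 𝕜) (hf : f ∈ VM (maj W)) (hf0 : f ≠ 0) (x : I) :
    ∃ δ : ℝ, 0 < δ ∧ ∀ N : ℕ, ∃ n ≥ N, δ * (|W n| + ((n.factorial : ℝ)) ^ 2) ≤ ‖deriv' n f x‖ := by
  set M := maj W with hMdef
  obtain ⟨c, hc⟩ := (mem_VM M f).1 hf
  obtain ⟨hB, hd⟩ := deriv_split M f c hc
  have hc0 : ∃ j, c j ≠ 0 := by
    by_contra hcon
    push Not at hcon
    apply hf0
    have : c = 0 := by
      ext j
      exact hcon j
    rw [this, map_zero] at hc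
    apply Subtype.ext
    ext x
    exact (congrFun hc x).symm
  obtain ⟨j, hj⟩ := hc0
  have hδ : 0 < ‖c j‖ := norm_pos_iff.2 hj
  obtain ⟨J, hJ⟩ := BB_deriv (Bd_le c) hB x.2
  set C := ‖c‖ with hC
  have hC0 : 0 ≤ C := norm_nonneg c
  refine ⟨‖c j‖ / 2, by linarith, ?_⟩
  intro N
  obtain ⟨N1, hN1⟩ := exists_nat_ge (5 * C / ‖c j‖)
  obtain ⟨k, hk, hJk⟩ := JJ_inf j (max N (max N1 J))
  have hkN : N ≤ k := (le_max_left _ _).trans hk
  have hkN1 : N1 ≤ k := ((le_max_left _ _).trans (le_max_right _ _)).trans hk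
  have hkJ : J ≤ k := ((le_max_right _ _).trans (le_max_right _ _)).trans hk
  obtain ⟨n, hn, hlarge⟩ := main_large M k x
  have hn3 : n ≤ 2 * k + 3 := by omega
  refine ⟨n, by omega, ?_⟩
  have h1 := TT_lower M (c := fun k => c (JJ k)) (fun k => Bd_le c (JJ k)) k n hn3 x
  rw [hJk] at h1
  have hMM0 : 0 ≤ MM k := by
    unfold MM
    exact sum_nonneg fun _ _ => sum_nonneg fun _ _ => KK_nonneg _ _
  set Q := ∑ n ∈ range (2 * k + 4), |W n| with hQ
  have hQ0' : 0 ≤ Q := sum_nonneg fun _ _ => abs_nonneg _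
  have hWn : |W n| ≤ Q :=
    single_le_sum (f := fun n => |W n|) (fun i _ => abs_nonneg _) (mem_range.2 (by omega))
  have hMk : M k = MM k + Q := rfl
  have h2 : ‖iteratedDerivWithin n (BB (c : ℕ → 𝕜)) I x‖ ≤ C * MM k :=
    (hJ n).trans (mul_le_mul_of_nonneg_left (sum_KK_le hkJ hn3) hC0)
  have h3 : ‖TT M (fun k => c (JJ k)) n x‖ ≤ ‖deriv' n f x‖ +
      ‖iteratedDerivWithin n (BB (c : ℕ → 𝕜)) I x‖ := by
    rw [hd n x]
    have := norm_sub_le (iteratedDerivWithin n (BB (c : ℕ → 𝕜)) I x + TT M (fun k => c (JJ k)) n x)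
      (iteratedDerivWithin n (BB (c : ℕ → 𝕜)) I x)
    rwa [add_sub_cancel_left] at this
  have h4 := lam_ge' M k
  rw [hMk] at h4
  have hk1 : (0 : ℝ) < (k : ℝ) + 1 := by positivity
  have hfac : ((n.factorial : ℝ)) ^ 2 ≤ ((2 * k + 3).factorial : ℝ) ^ 2 := by
    have : (n.factorial : ℝ) ≤ ((2 * k + 3).factorial : ℝ) := by
      exact_mod_cast Nat.factorial_le hn3
    have h0 : (0 : ℝ) ≤ (n.factorial : ℝ) := Nat.cast_nonneg _
    nlinarith
  set A := ∑ i ∈ range k, (lam M i) ^ (2 * k + 3) with hA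
  set P := ((2 * k + 3).factorial : ℝ) ^ 2 with hP
  have hP0 : 0 ≤ P := by positivity
  have h5 : 5 * C ≤ ‖c j‖ * (k + 1) := by
    rw [div_le_iff₀ hδ] at hN1
    have : (N1 : ℝ) ≤ k := by exact_mod_cast hkN1
    nlinarith
  have h6 : 7 / 10 * lam M k * ‖c j‖ ≤ |ww M k n x| * ‖c j‖ :=
    mul_le_mul_of_nonneg_right hlarge hδ.le
  have hl := lam_pos M k
  have hA0 : 0 ≤ A := sum_nonneg fun i _ => pow_nonneg (lam_pos M i).le _
  have hQ0 : 0 ≤ A + (MM k + Q) + 2 + P := by linarith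
  have h7 : C * (A + (MM k + Q) + 2 + P) ≤ ‖c j‖ / 5 * lam M k := by
    calc C * (A + (MM k + Q) + 2 + P) ≤ (‖c j‖ * (k + 1) / 5) * (A + (MM k + Q) + 2 + P) :=
          mul_le_mul_of_nonneg_right (by linarith) hQ0
      _ = ‖c j‖ / 5 * ((k + 1) * (A + (MM k + Q) + 2 + P)) := by ring
      _ ≤ _ := mul_le_mul_of_nonneg_left h4 (by positivity)
  have h8 : Q + P ≤ lam M k := by
    have : A + (MM k + Q) + 2 + P ≤ (k + 1) * (A + (MM k + Q) + 2 + P) := by
      have : (0 : ℝ) ≤ (k : ℝ) * (A + (MM k + Q) + 2 + P) := by positivity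
      linarith
    linarith
  have h9 : C * (A + 2) + C * MM k ≤ C * (A + (MM k + Q) + 2 + P) := by
    have : 0 ≤ C * P := mul_nonneg hC0 hP0
    have : 0 ≤ C * Q := mul_nonneg hC0 hQ0'
    linarith
  have h10 : ‖c j‖ / 2 * (Q + P) ≤ ‖c j‖ / 2 * lam M k :=
    mul_le_mul_of_nonneg_left h8 (by linarith)
  have h11 : ‖c j‖ / 2 * (|W n| + (n.factorial : ℝ) ^ 2) ≤ ‖c j‖ / 2 * (Q + P) :=
    mul_le_mul_of_nonneg_left (by linarith) (by linarith)
  linarith

lemma smooth_ee (M : ℕ → ℝ) (j : ℕ) : ContDiff ℝ (⊤ : ℕ∞) (LM M ((ee j : Bd 𝕜) : ℕ → 𝕜)) := by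
  have h1 : BB ((ee j : Bd 𝕜) : ℕ → 𝕜) = fun y => (vv j y) • (1 : 𝕜) := by
    funext y
    unfold BB
    rw [tsum_eq_single j]
    · rw [ee_apply, if_pos rfl]
    · intro i hi
      rw [ee_apply, if_neg hi, smul_zero]
  have h2 : ContDiff ℝ (⊤ : ℕ∞) (BB ((ee j : Bd 𝕜) : ℕ → 𝕜)) := by
    rw [h1]
    exact (vv j).contDiff.smul contDiff_const
  exact h2.add (contDiff_TT M (c := fun k => (ee j : Bd 𝕜) (JJ k)) (fun k => Bd_le _ (JJ k)))

/-- the generators of the subspace -/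
noncomputable def gM (M : ℕ → ℝ) (j : ℕ) : CInf 𝕜 :=
  ⟨fun x => LM M ((ee j : Bd 𝕜) : ℕ → 𝕜) x, by
    change ContDiffOn ℝ (⊤ : ℕ∞) (ext _) I
    refine (smooth_ee (𝕜 := 𝕜) M j).contDiffOn.congr fun x hx => ?_
    rw [ext_apply _ hx]⟩

lemma gM_mem (M : ℕ → ℝ) (j : ℕ) : (gM M j : CInf 𝕜) ∈ VM M := (mem_VM M _).2 ⟨ee j, rfl⟩

lemma LO_ee_indep (M : ℕ → ℝ) : LinearIndependent 𝕜 (fun j => LO M (ee j : Bd 𝕜)) := by
  rw [linearIndependent_iff']
  intro s g hg i hi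
  have h0 : LO M (∑ j ∈ s, g j • (ee j : Bd 𝕜)) = 0 := by
    rw [← hg, map_sum]
    exact sum_congr rfl fun j _ => (LO M).map_smul (g j) (ee j)
  have h1 : (∑ j ∈ s, g j • (ee j : Bd 𝕜)) = 0 := by
    have h3 := norm_le_of_LO M (∑ j ∈ s, g j • (ee j : Bd 𝕜)) (D := 0) (fun x => by rw [h0]; simp)
    rw [mul_zero] at h3
    exact norm_le_zero_iff.1 h3
  have h2 := congrArg (fun c : Bd 𝕜 => c i) h1
  simp only [BoundedContinuousFunction.coe_sum, Finset.sum_apply, BoundedContinuousFunction.coe_smul,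
    BoundedContinuousFunction.coe_zero, Pi.zero_apply, ee_apply, smul_eq_mul, mul_ite, mul_one,
    mul_zero] at h2
  rwa [sum_ite_eq, if_pos hi] at h2

/-- the inclusion into the space of all functions -/
noncomputable def inc (M : ℕ → ℝ) : (VM M : Submodule 𝕜 (CInf 𝕜)) →ₗ[𝕜] (I → 𝕜) :=
  (CInf 𝕜).subtype.comp (VM (𝕜 := 𝕜) M).subtype

lemma gM_indep (M : ℕ → ℝ) : LinearIndependent 𝕜
    (fun j => (⟨gM M j, gM_mem M j⟩ : (VM M : Submodule 𝕜 (CInf 𝕜)))) := by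
  have h1 := LO_ee_indep (𝕜 := 𝕜) M
  have h2 : (inc M ∘ fun j => (⟨gM M j, gM_mem M j⟩ : (VM M : Submodule 𝕜 (CInf 𝕜)))) =
      fun j => LO M (ee j : Bd 𝕜) := rfl
  exact LinearIndependent.of_comp (inc M) (by rw [h2]; exact h1)

lemma not_fin (M : ℕ → ℝ) : ¬ FiniteDimensional 𝕜 (VM M : Submodule 𝕜 (CInf 𝕜)) := by
  intro h
  have := (gM_indep (𝕜 := 𝕜) M).finite
  exact not_finite ℕ

/-- the final form: the derivatives are infinitely often larger than any multiple of the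
prescribed numbers, at every point -/
theorem main (𝕜 : Type*) [RCLike 𝕜] (W : ℕ → ℝ) :
    ∃ V : Submodule 𝕜 (CInf 𝕜), @IsClosed (CInf 𝕜) (frechet 𝕜) (V : Set (CInf 𝕜)) ∧
      ¬ FiniteDimensional 𝕜 V ∧ ∀ f ∈ V, f ≠ 0 → ∀ x : I,
        rho f x = 0 ∧ ∀ C : ℝ, ∃ᶠ n in atTop, C * W n < ‖deriv' n f x‖ := by
  refine ⟨VM (maj fun n => (n + 1) * |W n| + 1), isClosed_VM _, not_fin _, fun f hf hf0 x => ?_⟩
  obtain ⟨δ, hδ, h⟩ := growth _ f hf hf0 x
  constructor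
  · unfold rho
    refine radius_zero _ δ hδ fun N => ?_
    obtain ⟨n, hn, h1⟩ := h N
    refine ⟨n, hn, le_trans (mul_le_mul_of_nonneg_left ?_ hδ.le) h1⟩
    have := abs_nonneg ((n + 1) * |W n| + 1 : ℝ)
    linarith
  · intro C
    rw [frequently_atTop]
    intro N
    obtain ⟨K, hK⟩ := exists_nat_ge (|C| / δ)
    obtain ⟨n, hn, h1⟩ := h (max N K)
    have hnN : N ≤ n := (le_max_left _ _).trans hn
    have hnK : K ≤ n := (le_max_right _ _).trans hn
    refine ⟨n, hnN, ?_⟩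
    have hW := abs_nonneg (W n)
    have h2 : |((n : ℝ) + 1) * |W n| + 1| = (n + 1) * |W n| + 1 := abs_of_nonneg (by positivity)
    simp only [h2] at h1
    have h3 : |C| ≤ δ * (n + 1) := by
      have h4 : |C| ≤ K * δ := by
        rw [div_le_iff₀ hδ] at hK
        exact hK
      have h5 : (K : ℝ) ≤ n := by exact_mod_cast hnK
      nlinarith
    have h6 : C * W n ≤ |C| * |W n| := by
      rw [← abs_mul]
      exact le_abs_self _
    have h7 : |C| * |W n| ≤ δ * (n + 1) * |W n| := mul_le_mul_of_nonneg_right h3 hW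
    have h8 : 0 < δ * (1 + (n.factorial : ℝ) ^ 2) := by positivity
    nlinarith

end Pool.Agent.Y22.PSG
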