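import Pool.Agent.Y22.SCD2

set_option autoImplicit false

namespace Pool.Agent.Y22.SCD

/-- the stages of the construction -/
noncomputable def stage (t : ℕ → List Bool) : ℕ → List Bool → ℝ
  | 0 => fun _ => 0
  | n + 1 => by
      classical
      exact if 1 / 2 ≤ -xv (stage t n) (t (n + 1)) then stage t n
        else fun u => stage t n u - bump (t n).length (t (n + 1)) u

theorem stage_succ_pos {t : ℕ → List Bool} {n : ℕ} (h : 1 / 2 ≤ -xv (stage t n) (t (n + 1))) :
    stage t (n + 1) = stage t n := by
  show (if _ then _ else _) = _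
  rw [if_pos h]

theorem stage_succ_neg {t : ℕ → List Bool} {n : ℕ} (h : ¬ 1 / 2 ≤ -xv (stage t n) (t (n + 1))) :
    stage t (n + 1) = fun u => stage t n u - bump (t n).length (t (n + 1)) u := by
  show (if _ then _ else _) = _
  rw [if_neg h]

theorem length_mono {t : ℕ → List Bool} (ht : ∀ n, (t n).length + 2 ^ (n + 3) ≤ (t (n + 1)).length) :
    StrictMono (fun n => (t n).length) := by
  apply strictMono_nat_of_lt_succ
  intro n
  have := ht n
  have h2 : 0 < 2 ^ (n + 3) := by positivity
  show (t n).length < (t (n + 1)).length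
  omega

theorem stage_vanish {t : ℕ → List Bool} (ht : ∀ n, (t n).length + 2 ^ (n + 3) ≤ (t (n + 1)).length) :
    ∀ n, ∀ u : List Bool, (t n).length ≤ u.length → stage t n u = 0
  | 0, _, _ => rfl
  | n + 1, u, hu => by
      have hlt : (t n).length < (t (n + 1)).length := length_mono ht (Nat.lt_succ_self n)
      have h0 : stage t n u = 0 := stage_vanish ht n u (by omega)
      by_cases h : 1 / 2 ≤ -xv (stage t n) (t (n + 1))
      · rw [stage_succ_pos h]; exact h0
      · rw [stage_succ_neg h]
        show stage t n u - bump _ _ u = 0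
        rw [h0, bump_of_ge hu]; ring

theorem stage_agree_succ {t : ℕ → List Bool} (n : ℕ) (u : List Bool) (hu : u.length < (t n).length) :
    stage t (n + 1) u = stage t n u := by
  by_cases h : 1 / 2 ≤ -xv (stage t n) (t (n + 1))
  · rw [stage_succ_pos h]
  · rw [stage_succ_neg h]
    show stage t n u - bump _ _ u = _
    rw [bump_of_lt hu]; ring

theorem stage_agree {t : ℕ → List Bool} (ht : ∀ n, (t n).length + 2 ^ (n + 3) ≤ (t (n + 1)).length)
    {n m : ℕ} (hnm : n ≤ m) (u : List Bool) (hu : u.length < (t n).length) :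
    stage t m u = stage t n u := by
  induction m, hnm using Nat.le_induction with
  | base => rfl
  | succ m hm ih =>
      rw [stage_agree_succ m u (lt_of_lt_of_le hu ((length_mono ht).monotone hm)), ih]

theorem stage_invariants {t : ℕ → List Bool}
    (ht : ∀ n, (t n).length + 2 ^ (n + 3) ≤ (t (n + 1)).length) :
    ∀ n, (∀ s, wv (stage t n) s ≤ -xv (stage t n) s + (1 / 2 - (1 / 2) ^ (n + 1))) ∧
      (∀ s, -xv (stage t n) s ≤ 3 / 2)
  | 0 => by
      have h4 : ∀ s : List Bool, xv (stage t 0) s = 0 := by
        intro s; induction s with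
        | nil => rfl
        | cons a s ih => show xv _ s + sg a * 0 = 0; rw [ih]; ring
      have h5 : ∀ s : List Bool, wv (stage t 0) s = 0 := by
        intro s; induction s with
        | nil => rfl
        | cons a s ih => show wv _ s + |(0:ℝ)| = 0; rw [ih]; simp
      constructor
      · intro s; rw [h4, h5]; norm_num
      · intro s; rw [h4]; norm_num
  | n + 1 => by
      obtain ⟨i1, i2⟩ := stage_invariants ht n
      have hlt : (t n).length < (t (n + 1)).length := length_mono ht (Nat.lt_succ_self n)
      by_cases h : 1 / 2 ≤ -xv (stage t n) (t (n + 1))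
      · rw [stage_succ_pos h]
        refine ⟨fun s => (i1 s).trans ?_, i2⟩
        have : (1 / 2 : ℝ) ^ (n + 1 + 1) ≤ (1 / 2) ^ (n + 1) := by
          rw [pow_succ (1/2:ℝ) (n+1)]
          have : (0:ℝ) < (1/2) ^ (n + 1) := by positivity
          linarith
        linarith
      · rw [stage_succ_neg h]
        have hK : (2:ℝ) ^ (n + 3) ≤ ((t (n + 1)).length : ℝ) - (t n).length := by
          have := ht n
          have h2 : (((t n).length + 2 ^ (n + 3) : ℕ) : ℝ) ≤ ((t (n + 1)).length : ℝ) := by
            exact_mod_cast this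
          push_cast at h2
          linarith
        have hKinv : (((t (n + 1)).length : ℝ) - (t n).length)⁻¹ ≤ (1 / 2) ^ (n + 3) := by
          have h2 : (0:ℝ) < 2 ^ (n + 3) := by positivity
          calc (((t (n + 1)).length : ℝ) - (t n).length)⁻¹ ≤ ((2:ℝ) ^ (n + 3))⁻¹ :=
                inv_anti₀ h2 hK
            _ = (1 / 2) ^ (n + 3) := by rw [one_div, inv_pow]
        constructor
        · intro s
          obtain ⟨b1, -⟩ := bump_main hlt s
          have h1 := wv_sub_le (stage t n) (bump (t n).length (t (n + 1))) s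
          rw [xv_sub]
          have h3 := i1 s
          have e1 : (1 / 2 : ℝ) ^ (n + 3) = (1 / 2) ^ (n + 1) / 4 := by
            rw [pow_add (1/2:ℝ) n 3, pow_add (1/2:ℝ) n 1]; ring
          have e2 : (1 / 2 : ℝ) ^ (n + 1 + 1) = (1 / 2) ^ (n + 1) / 2 := by
            rw [pow_succ (1/2:ℝ) (n+1)]; ring
          rw [e2]
          rw [e1] at hKinv
          linarith
        · intro s
          rw [xv_sub]
          obtain ⟨-, b2⟩ := bump_main hlt s
          by_cases hz : xv (bump (t n).length (t (n + 1))) s = 0
          · rw [hz]; have := i2 s; linarith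
          · have hsup := bump_support hlt.le s hz
            have hulen : (t n).length ≤ ((t (n + 1)).drop ((t (n + 1)).length - (t n).length)).length := by
              rw [List.length_drop]; omega
            have f1 := xv_frozen (stage_vanish ht n) hulen s hsup
            have f2 := xv_frozen (stage_vanish ht n) hulen (t (n + 1)) (List.drop_suffix _ _)
            rw [f1, ← f2]
            push Not at h
            linarith

theorem stage_hit {t : ℕ → List Bool}
    (ht : ∀ n, (t n).length + 2 ^ (n + 3) ≤ (t (n + 1)).length) (n : ℕ) :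
    1 / 2 ≤ -xv (stage t (n + 1)) (t (n + 1)) := by
  have hlt : (t n).length < (t (n + 1)).length := length_mono ht (Nat.lt_succ_self n)
  by_cases h : 1 / 2 ≤ -xv (stage t n) (t (n + 1))
  · rw [stage_succ_pos h]; exact h
  · rw [stage_succ_neg h, xv_sub]
    obtain ⟨j1, -⟩ := xv_bump_suffix (m := (t n).length) (t (n + 1)) (List.suffix_refl _) hlt.le
    have hK : (0:ℝ) < ((t (n + 1)).length : ℝ) - (t n).length := by
      have : ((t n).length : ℝ) < (t (n + 1)).length := by exact_mod_cast hlt
      linarith
    rw [j1, mul_inv_cancel₀ hK.ne']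
    obtain ⟨i1, -⟩ := stage_invariants ht n
    have h1 := i1 (t (n + 1))
    have h2 := wv_nonneg (stage t n) (t (n + 1))
    have h3 : (0:ℝ) < (1 / 2) ^ (n + 1) := by positivity
    linarith

/-- **Key combinatorial lemma.** -/
theorem exists_functional {t : ℕ → List Bool}
    (ht : ∀ n, (t n).length + 2 ^ (n + 3) ≤ (t (n + 1)).length) :
    ∃ y : List Bool → ℝ, (∀ s, wv y s ≤ 2) ∧ ∀ n, xv y (t (n + 1)) ≤ -(1 / 2) := by
  have hlen : ∀ n, n ≤ (t n).length := (length_mono ht).id_le
  set y : List Bool → ℝ := fun u => stage t (u.length + 1) u with hy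
  have hagree : ∀ n, ∀ u : List Bool, u.length < (t n).length → y u = stage t n u := by
    intro n u hu
    have hu' : u.length < (t (u.length + 1)).length := by
      have := hlen (u.length + 1); omega
    rcases le_total n (u.length + 1) with h | h
    · exact stage_agree ht h u hu
    · exact (stage_agree ht h u hu').symm
  refine ⟨y, ?_, ?_⟩
  · intro s
    have h1 : wv y s = wv (stage t s.length) s := by
      apply wv_congr
      intro u hu
      exact hagree _ u (lt_of_lt_of_le hu (hlen _))
    rw [h1]
    obtain ⟨i1, i2⟩ := stage_invariants ht s.length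
    have h3 : (0:ℝ) < (1 / 2) ^ (s.length + 1) := by positivity
    have := i1 s
    have := i2 s
    linarith
  · intro n
    have h1 : xv y (t (n + 1)) = xv (stage t (n + 1)) (t (n + 1)) := by
      apply xv_congr
      intro u hu
      exact hagree _ u hu
    rw [h1]
    have := stage_hit ht n
    linarith

/-- choice of long nodes -/
theorem exists_nodes (Q : ℕ → List Bool → Prop) (h1 : ∀ n, ∃ s, Q n s)
    (h2 : ∀ n s, Q n s → ∃ b : Bool, Q n (b :: s)) :
    ∃ t : ℕ → List Bool, (∀ n, Q n (t (n + 1))) ∧
      ∀ n, (t n).length + 2 ^ (n + 3) ≤ (t (n + 1)).length := by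
  have hlong : ∀ n m, ∃ s, Q n s ∧ m ≤ s.length := by
    intro n m
    induction m with
    | zero => obtain ⟨s, hs⟩ := h1 n; exact ⟨s, hs, Nat.zero_le _⟩
    | succ m ih =>
        obtain ⟨s, hs, hm⟩ := ih
        obtain ⟨b, hb⟩ := h2 n s hs
        exact ⟨b :: s, hb, by simp; omega⟩
  choose F hF1 hF2 using hlong
  refine ⟨fun n => Nat.rec [] (fun n s => F n (s.length + 2 ^ (n + 3))) n, ?_, ?_⟩
  · intro n; exact hF1 n _
  · intro n; exact hF2 n _

end Pool.Agent.Y22.SCD
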