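import Pool.Agent.Y22.SCD1
import Pool.Agent.Y22.SCD3

set_option autoImplicit false

/-! The stopping-time type space over the dyadic tree: norm dual to chain variation. -/

namespace Pool.Agent.Y22.SCD

open Set Filter Topology BoundedContinuousFunction

/-- coefficient families of variation at most one along every branch -/
def KK : Type := {k : List Bool → ℝ // ∀ s, wv k s ≤ 1}

instance : TopologicalSpace KK := ⊥
instance : DiscreteTopology KK := ⟨rfl⟩

/-- the ambient space of bounded functions on `KK` -/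
abbrev Amb : Type := BoundedContinuousFunction KK ℝ

theorem abs_coeff_le (k : KK) (s : List Bool) : |k.1 s| ≤ 1 := by
  have h := k.2 (true :: s)
  have h2 := wv_nonneg k.1 s
  have h3 : wv k.1 (true :: s) = wv k.1 s + |k.1 s| := rfl
  linarith

/-- unit vectors -/
noncomputable def ev (s : List Bool) : Amb :=
  BoundedContinuousFunction.ofNormedAddCommGroupDiscrete (fun k => k.1 s) 1
    (fun k => by rw [Real.norm_eq_abs]; exact abs_coeff_le k s)

@[simp] theorem ev_apply (s : List Bool) (k : KK) : ev s k = k.1 s := rfl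

/-- the space, as a closed subspace of `Amb` -/
noncomputable def EE : Submodule ℝ Amb := (Submodule.span ℝ (range ev)).topologicalClosure

theorem isClosed_EE : IsClosed (EE : Set Amb) := Submodule.isClosed_topologicalClosure _

theorem isSeparable_EE : TopologicalSpace.IsSeparable (EE : Set Amb) := by
  have h1 : TopologicalSpace.IsSeparable (range ev) := (countable_range ev).isSeparable
  have h2 := h1.span (R := ℝ)
  have h3 : (EE : Set Amb) = closure ((Submodule.span ℝ (range ev) : Submodule ℝ Amb) : Set Amb) := rfl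
  rw [h3, TopologicalSpace.isSeparable_closure]
  exact h2

/-- the Banach space -/
def XX : Type := ↥EE

noncomputable instance instNACG : NormedAddCommGroup XX := Submodule.normedAddCommGroup EE

noncomputable instance instNS : NormedSpace ℝ XX := Submodule.normedSpace EE

instance instComplete : CompleteSpace XX := isClosed_EE.completeSpace_coe

instance instSep : TopologicalSpace.SeparableSpace XX := isSeparable_EE.separableSpace

/-- the isometric inclusion -/
noncomputable def io : XX →L[ℝ] Amb := EE.subtypeL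

theorem io_injective : Function.Injective io := Subtype.val_injective

theorem norm_io (x : XX) : ‖io x‖ = ‖x‖ := rfl

theorem io_mem (x : XX) : io x ∈ (EE : Set Amb) := x.2

/-- unit vectors in the space -/
noncomputable def e (s : List Bool) : XX :=
  ⟨ev s, Submodule.le_topologicalClosure _ (Submodule.subset_span ⟨s, rfl⟩)⟩

theorem io_e (s : List Bool) : io (e s) = ev s := rfl

/-- evaluation functionals -/
noncomputable def evalE (k : KK) : XX →L[ℝ] ℝ :=
  (BoundedContinuousFunction.evalCLM ℝ k).comp io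

theorem evalE_apply (k : KK) (x : XX) : evalE k x = io x k := rfl

theorem evalE_e (k : KK) (s : List Bool) : evalE k (e s) = k.1 s := rfl

open Classical in
/-- masking a coefficient family -/
noncomputable def mask (F : Finset (List Bool)) (k : KK) : KK :=
  ⟨fun u => if u ∈ F then k.1 u else 0, by
    intro s
    refine le_trans ?_ (k.2 s)
    induction s with
    | nil => exact le_refl _
    | cons b s ih =>
        show wv _ s + |if s ∈ F then k.1 s else 0| ≤ wv k.1 s + |k.1 s|
        have : |if s ∈ F then k.1 s else 0| ≤ |k.1 s| := by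
          split_ifs
          · exact le_refl _
          · simp
        linarith⟩

open Classical in
/-- the point mass coefficient family -/
noncomputable def dl (s : List Bool) : KK :=
  ⟨fun u => if u = s then 1 else 0, by
    -- variation at most one: only one node of each branch is `s`
    have key : ∀ v : List Bool, (v.length ≤ s.length → wv (fun u => if u = s then (1:ℝ) else 0) v = 0) ∧
        wv (fun u => if u = s then (1:ℝ) else 0) v ≤ 1 := by
      intro v
      induction v with
      | nil => simp [wv]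
      | cons b v ih =>
          obtain ⟨i1, i2⟩ := ih
          have e1 : wv (fun u => if u = s then (1:ℝ) else 0) (b :: v)
              = wv (fun u => if u = s then (1:ℝ) else 0) v + |if v = s then (1:ℝ) else 0| := rfl
          constructor
          · intro hv
            have hl : v.length < s.length := by simp at hv; omega
            have hne : v ≠ s := by rintro rfl; omega
            rw [e1, i1 hl.le, if_neg hne]; simp
          · by_cases hvs : v = s
            · rw [e1, i1 (by rw [hvs]), if_pos hvs]; simp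
            · rw [e1, if_neg hvs]; simpa using i2
    intro v
    exact (key v).2⟩

theorem dl_apply (s u : List Bool) : (dl s).1 u = if u = s then 1 else 0 := by
  simp [dl]

theorem mask_apply (F : Finset (List Bool)) (k : KK) (u : List Bool) :
    (mask F k).1 u = if u ∈ F then k.1 u else 0 := by
  simp [mask]

/-- coordinate projections -/
noncomputable def PP (F : Finset (List Bool)) : XX →L[ℝ] XX :=
  ∑ s ∈ F, (evalE (dl s)).smulRight (e s)

theorem PP_apply (F : Finset (List Bool)) (x : XX) : PP F x = ∑ s ∈ F, (evalE (dl s) x) • e s := by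
  simp [PP]

/-- evaluation formula for the projections -/
theorem PP_eval (F : Finset (List Bool)) (k : KK) (x : XX) :
    evalE k (PP F x) = evalE (mask F k) x := by
  -- both sides are continuous linear functionals of x agreeing on the span
  set L1 : Amb →L[ℝ] ℝ := ∑ s ∈ F, (k.1 s) • BoundedContinuousFunction.evalCLM ℝ (dl s) with hL1
  set L2 : Amb →L[ℝ] ℝ := BoundedContinuousFunction.evalCLM ℝ (mask F k) with hL2
  have h1 : ∀ y ∈ (EE : Set Amb), L1 y = L2 y := by
    have hcl : IsClosed {y : Amb | L1 y = L2 y} := isClosed_eq L1.continuous L2.continuous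
    have hspan : ((Submodule.span ℝ (range ev) : Submodule ℝ Amb) : Set Amb) ⊆ {y : Amb | L1 y = L2 y} := by
      intro y hy
      have : Submodule.span ℝ (range ev) ≤ LinearMap.eqLocus (L1 : Amb →ₗ[ℝ] ℝ) (L2 : Amb →ₗ[ℝ] ℝ) := by
        rw [Submodule.span_le]
        rintro _ ⟨u, rfl⟩
        show L1 (ev u) = L2 (ev u)
        simp only [hL1, hL2, _root_.sum_apply, _root_.smul_apply,
          BoundedContinuousFunction.evalCLM_apply, ev_apply, dl_apply, mask_apply, smul_eq_mul]
        simp
      exact this hy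
    intro y hy
    exact closure_minimal hspan hcl hy
  have h2 := h1 (io x) (io_mem x)
  have h3 : evalE k (PP F x) = L1 (io x) := by
    rw [PP_apply, map_sum]
    simp only [hL1, _root_.sum_apply, _root_.smul_apply,
          BoundedContinuousFunction.evalCLM_apply, smul_eq_mul]
    apply Finset.sum_congr rfl
    intro s _
    rw [map_smul, evalE_e, evalE_apply, smul_eq_mul, mul_comm]
  rw [h3, h2]; rfl

theorem abs_evalE_le (k : KK) (x : XX) : |evalE k x| ≤ ‖x‖ := by
  rw [← norm_io, ← Real.norm_eq_abs]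
  exact BoundedContinuousFunction.norm_coe_le_norm (io x) k

theorem norm_le_of_eval {x : XX} {C : ℝ} (hC : 0 ≤ C) (h : ∀ k, |evalE k x| ≤ C) : ‖x‖ ≤ C := by
  rw [← norm_io, BoundedContinuousFunction.norm_le hC]
  intro k
  rw [Real.norm_eq_abs]
  exact h k

theorem norm_PP_le (F : Finset (List Bool)) (x : XX) : ‖PP F x‖ ≤ ‖x‖ := by
  apply norm_le_of_eval (norm_nonneg _)
  intro k
  rw [PP_eval]
  exact abs_evalE_le _ _

theorem PP_sdiff {F G : Finset (List Bool)} [DecidableEq (List Bool)] (h : F ⊆ G) (x : XX) :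
    PP G x - PP F x = PP (G \ F) x := by
  have h1 := Finset.sum_sdiff (f := fun s => (evalE (dl s) x) • e s) h
  rw [PP_apply, PP_apply, PP_apply, ← h1]
  abel

theorem tendsto_PP (x : XX) : Tendsto (fun F : Finset (List Bool) => PP F x) atTop (𝓝 x) := by
  rw [tendsto_iff_norm_sub_tendsto_zero, Metric.tendsto_atTop]
  intro ε hε
  -- approximate by z in the span
  have hx : io x ∈ closure ((Submodule.span ℝ (range ev) : Submodule ℝ Amb) : Set Amb) := io_mem x
  rw [Metric.mem_closure_iff] at hx
  obtain ⟨z, hz, hxz⟩ := hx (ε / 2) (by positivity)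
  have hfin : ∀ z ∈ Submodule.span ℝ (range ev), ∃ F0 : Finset (List Bool), ∀ F, F0 ⊆ F →
      ∀ k : KK, z (mask F k) = z k := by
    intro z hz
    induction hz using Submodule.span_induction with
    | mem y hy =>
        obtain ⟨u, rfl⟩ := hy
        refine ⟨{u}, fun F hF k => ?_⟩
        have : u ∈ F := hF (by simp)
        simp [mask_apply, this]
    | zero => exact ⟨∅, fun F _ k => rfl⟩
    | add y1 y2 _ _ h1 h2 =>
        classical
        obtain ⟨F1, h1⟩ := h1
        obtain ⟨F2, h2⟩ := h2
        refine ⟨F1 ∪ F2, fun F hF k => ?_⟩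
        rw [BoundedContinuousFunction.add_apply, BoundedContinuousFunction.add_apply,
          h1 F (Finset.subset_union_left.trans hF) k, h2 F (Finset.subset_union_right.trans hF) k]
    | smul a y _ h1 =>
        obtain ⟨F1, h1⟩ := h1
        refine ⟨F1, fun F hF k => ?_⟩
        rw [BoundedContinuousFunction.smul_apply, BoundedContinuousFunction.smul_apply, h1 F hF k]
  obtain ⟨F0, hF0⟩ := hfin z hz
  refine ⟨F0, fun F hF => ?_⟩
  rw [Real.dist_eq, sub_zero, abs_of_nonneg (norm_nonneg _)]
  have hz' : z ∈ EE := Submodule.le_topologicalClosure _ hz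
  set zE : XX := ⟨z, hz'⟩ with hzE
  have hioz : io zE = z := rfl
  have h1 : PP F zE = zE := by
    apply io_injective
    ext k
    have a1 : io (PP F zE) k = evalE k (PP F zE) := rfl
    rw [a1, PP_eval, evalE_apply, hioz]
    exact hF0 F hF k
  have h2 : PP F x - x = PP F (x - zE) - (x - zE) := by
    rw [map_sub, h1]; abel
  have h3 : ‖x - zE‖ < ε / 2 := by
    rw [← norm_io, map_sub, hioz, ← dist_eq_norm]; exact hxz
  calc ‖PP F x - x‖ = ‖PP F (x - zE) - (x - zE)‖ := by rw [h2]
    _ ≤ ‖PP F (x - zE)‖ + ‖x - zE‖ := norm_sub_le _ _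
    _ ≤ ‖x - zE‖ + ‖x - zE‖ := by have := norm_PP_le F (x - zE); linarith
    _ < ε := by linarith

/-- signed branch vectors -/
noncomputable def xs : List Bool → XX
  | [] => 0
  | b :: s => xs s + sg b • e s

theorem xs_eval (k : KK) : ∀ s, evalE k (xs s) = xv k.1 s
  | [] => map_zero _
  | b :: s => by
      have h := xs_eval k s
      show evalE k (xs s + sg b • e s) = xv k.1 s + sg b * k.1 s
      rw [map_add, map_smul, evalE_e, h, smul_eq_mul]

theorem norm_xs_le (s : List Bool) : ‖xs s‖ ≤ 1 := by
  apply norm_le_of_eval zero_le_one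
  intro k
  rw [xs_eval]
  exact (abs_xv_le k.1 s).trans (k.2 s)

/-- The set is not slicely countably determined. -/
theorem not_SCD : ¬ (∃ (f : ℕ → (XX →L[ℝ] ℝ)) (c : ℕ → ℝ),
    (∀ n, ∃ x ∈ convexHull ℝ (range xs), c n < f n x) ∧
    ∀ y : ℕ → XX, (∀ n, y n ∈ convexHull ℝ (range xs) ∧ c n < f n (y n)) →
      convexHull ℝ (range xs) ⊆ closure (convexHull ℝ (Set.range y))) := by
  rintro ⟨f, c, h1, h2⟩
  have hQ1 : ∀ n, ∃ s, c n < f n (xs s) := by
    intro n
    by_contra hc
    push Not at hc
    obtain ⟨x, hx, hx'⟩ := h1 n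
    have hconv : Convex ℝ {x : XX | f n x ≤ c n} := convex_halfSpace_le (f n).toLinearMap.isLinear _
    have hsub : range xs ⊆ {x : XX | f n x ≤ c n} := by
      rintro _ ⟨s, rfl⟩; exact hc s
    have := convexHull_min hsub hconv hx
    exact absurd hx' (not_lt.mpr this)
  have hQ2 : ∀ n s, c n < f n (xs s) → ∃ b : Bool, c n < f n (xs (b :: s)) := by
    intro n s hs
    have e1 : f n (xs (true :: s)) = f n (xs s) + f n (e s) := by
      show f n (xs s + sg true • e s) = _
      rw [map_add, map_smul]; simp [sg]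
    have e2 : f n (xs (false :: s)) = f n (xs s) - f n (e s) := by
      show f n (xs s + sg false • e s) = _
      rw [map_add, map_smul]; simp [sg]; ring
    rcases le_total 0 (f n (e s)) with h | h
    · exact ⟨true, by rw [e1]; linarith⟩
    · exact ⟨false, by rw [e2]; linarith⟩
  obtain ⟨t, ht1, ht2⟩ := exists_nodes (fun n s => c n < f n (xs s)) hQ1 hQ2
  obtain ⟨y, hy1, hy2⟩ := exists_functional ht2
  -- the functional
  have hkk : ∀ s, wv (fun u => y u / 2) s ≤ 1 := by
    intro s
    have : wv (fun u => y u / 2) s = wv y s / 2 := by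
      induction s with
      | nil => simp [wv]
      | cons b s ih =>
          show wv (fun u => y u / 2) s + |y s / 2| = (wv y s + |y s|) / 2
          rw [ih, abs_div, abs_two]; ring
    rw [this]
    have := hy1 s
    linarith
  set k : KK := ⟨fun u => y u / 2, hkk⟩ with hk
  have hxk : ∀ s, evalE k (xs s) = xv y s / 2 := by
    intro s
    rw [xs_eval]
    induction s with
    | nil => simp [xv]
    | cons b s ih =>
        show xv k.1 s + sg b * (y s / 2) = (xv y s + sg b * y s) / 2
        rw [ih]; ring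
  have h3 := h2 (fun n => xs (t (n + 1))) (fun n => ⟨subset_convexHull ℝ _ ⟨_, rfl⟩, ht1 n⟩)
  have h4 : (0 : XX) ∈ convexHull ℝ (range xs) := subset_convexHull ℝ _ ⟨[], rfl⟩
  have h5 := h3 h4
  have hclosed : IsClosed {x : XX | evalE k x ≤ -(1 / 4)} := isClosed_le (evalE k).continuous continuous_const
  have hconv : Convex ℝ {x : XX | evalE k x ≤ -(1 / 4)} := convex_halfSpace_le (evalE k).toLinearMap.isLinear _
  have hsub : range (fun n => xs (t (n + 1))) ⊆ {x : XX | evalE k x ≤ -(1 / 4)} := by
    rintro _ ⟨n, rfl⟩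
    show evalE k (xs (t (n + 1))) ≤ -(1 / 4)
    rw [hxk]
    have := hy2 n
    linarith
  have h6 := closure_minimal (convexHull_min hsub hconv) hclosed h5
  have h7 : evalE k (0 : XX) = 0 := map_zero _
  have h8 : evalE k (0 : XX) ≤ -(1 / 4) := h6
  rw [h7] at h8
  norm_num at h8

/-- no isomorphic copy satisfies the rank-one Daugavet equation -/
theorem not_Daugavet (Y : Type) [NormedAddCommGroup Y] [NormedSpace ℝ Y] (Φ : XX ≃L[ℝ] Y) :
    ¬ RankOneDE Y := by
  intro hY
  classical
  set T : Finset (List Bool) → (Y →L[ℝ] Y) := fun F =>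
    (Φ : XX →L[ℝ] Y).comp ((PP F).comp (Φ.symm : Y →L[ℝ] XX)) with hT
  have hTval : ∀ F y, T F y = Φ (PP F (Φ.symm y)) := fun F y => rfl
  set C : ℝ := ‖(Φ : XX →L[ℝ] Y)‖ * ‖(Φ.symm : Y →L[ℝ] XX)‖ with hC
  have hTb : ∀ F, ‖T F‖ ≤ C := by
    intro F
    apply ContinuousLinearMap.opNorm_le_bound _ (by positivity)
    intro y
    rw [hTval]
    calc ‖Φ (PP F (Φ.symm y))‖ ≤ ‖(Φ : XX →L[ℝ] Y)‖ * ‖PP F (Φ.symm y)‖ :=
          (Φ : XX →L[ℝ] Y).le_opNorm _
      _ ≤ ‖(Φ : XX →L[ℝ] Y)‖ * ‖Φ.symm y‖ := by gcongr; exact norm_PP_le _ _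
      _ ≤ ‖(Φ : XX →L[ℝ] Y)‖ * (‖(Φ.symm : Y →L[ℝ] XX)‖ * ‖y‖) := by
          gcongr; exact (Φ.symm : Y →L[ℝ] XX).le_opNorm _
      _ = C * ‖y‖ := by rw [hC]; ring
  have hbdd : BddAbove (range fun F => ‖T F‖) := by
    refine ⟨C, ?_⟩
    rintro _ ⟨F, rfl⟩
    exact hTb F
  set α : ℝ := ⨆ F, ‖T F‖ with hα
  have hleα : ∀ F, ‖T F‖ ≤ α := fun F => le_ciSup hbdd F
  -- complement bound
  have hcomp : ∀ F, ‖ContinuousLinearMap.id ℝ Y + (-(T F))‖ ≤ α := by
    intro F
    have hα0 : 0 ≤ α := (norm_nonneg _).trans (hleα ∅)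
    apply ContinuousLinearMap.opNorm_le_bound _ hα0
    intro y
    have hval : (ContinuousLinearMap.id ℝ Y + (-(T F))) y = y - T F y := by
      simp [sub_eq_add_neg]
    rw [hval]
    have hlim : Tendsto (fun G : Finset (List Bool) => ‖T G y - T F y‖) atTop (𝓝 ‖y - T F y‖) := by
      have h1 : Tendsto (fun G : Finset (List Bool) => T G y) atTop (𝓝 (Φ (Φ.symm y))) :=
        (Φ.continuous.tendsto _).comp (tendsto_PP (Φ.symm y))
      rw [Φ.apply_symm_apply] at h1
      exact (h1.sub_const _).norm
    apply le_of_tendsto hlim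
    filter_upwards [eventually_ge_atTop F] with G hG
    have h2 : T G y - T F y = T (G \ F) y := by
      rw [hTval, hTval, hTval, ← map_sub, PP_sdiff hG]
    rw [h2]
    calc ‖T (G \ F) y‖ ≤ ‖T (G \ F)‖ * ‖y‖ := ContinuousLinearMap.le_opNorm _ _
      _ ≤ α * ‖y‖ := by gcongr; exact hleα _
  -- α is positive
  have hTne : ∃ F, 0 < ‖T F‖ := by
    refine ⟨{[]}, ?_⟩
    rw [norm_pos_iff]
    intro h0
    have h1 : T {[]} (Φ (e [])) = 0 := by rw [h0]; simp
    rw [hTval, Φ.symm_apply_apply] at h1
    have h2 : PP {[]} (e []) = 0 := by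
      have := congrArg Φ.symm h1
      simpa using this
    have h3 : evalE (dl []) (PP {[]} (e [])) = 0 := by rw [h2, map_zero]
    rw [PP_eval] at h3
    have h4 : evalE (mask {[]} (dl [])) (e ([] : List Bool)) = 1 := by
      rw [evalE_e, mask_apply]; simp [dl_apply]
    rw [h4] at h3
    norm_num at h3
  obtain ⟨F1, hF1⟩ := hTne
  have hαpos : 0 < α := lt_of_lt_of_le hF1 (hleα F1)
  obtain ⟨F, hF⟩ : ∃ F, max (α - 1) 0 < ‖T F‖ := exists_lt_of_lt_ciSup (max_lt (by linarith) hαpos)
  have hF0 : 0 < ‖T F‖ := lt_of_le_of_lt (le_max_right _ _) hF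
  have hFα : α - 1 < ‖T F‖ := lt_of_le_of_lt (le_max_left _ _) hF
  -- factorization of -(T F)
  set R : Y →L[ℝ] EuclideanSpace ℝ F :=
    ((EuclideanSpace.equiv F ℝ).symm : (F → ℝ) →L[ℝ] EuclideanSpace ℝ F).comp
      (ContinuousLinearMap.pi (fun s : F => (evalE (dl s.1)).comp (Φ.symm : Y →L[ℝ] XX))) with hR
  set V : EuclideanSpace ℝ F →L[ℝ] Y :=
    -∑ s : F, (EuclideanSpace.proj s : EuclideanSpace ℝ F →L[ℝ] ℝ).smulRight (Φ (e s.1)) with hV
  have hVR : V.comp R = -(T F) := by
    ext y
    have h1 : (V.comp R) y = -∑ s : F, (R y) s • Φ (e s.1) := by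
      simp [hV]
    have h2 : ∀ s : F, (R y) s = evalE (dl s.1) (Φ.symm y) := by
      intro s; rfl
    rw [h1]
    show _ = -(T F y)
    rw [hTval, PP_apply, map_sum]
    congr 1
    rw [← Finset.sum_coe_sort F (fun s => Φ (evalE (dl s) (Φ.symm y) • e s))]
    apply Finset.sum_congr rfl
    intro s _
    rw [h2, map_smul]
  have hDE := factor_DE hY R V (by rw [hVR, norm_neg]; exact hF0)
  rw [hVR, norm_neg] at hDE
  have := hcomp F
  linarith

end Pool.Agent.Y22.SCD
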