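import Mathlib

set_option autoImplicit false

/-! The Daugavet equation for operators that factor through an inner product space,
in a real normed space where all rank-one operators satisfy it. -/

namespace Pool.Agent.Y22.SCD

open Set

/-- rank-one Daugavet equation, for all rank-one operators -/
def RankOneDE (Y : Type) [NormedAddCommGroup Y] [NormedSpace ℝ Y] : Prop :=
  ∀ (f : Y →L[ℝ] ℝ) (v : Y),
    ‖ContinuousLinearMap.id ℝ Y + f.smulRight v‖ = 1 + ‖f.smulRight v‖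

variable {Y : Type} [NormedAddCommGroup Y] [NormedSpace ℝ Y]

/-- Step 1: points of the unit ball in a slice and almost `ℓ₁`-orthogonal to `x`. -/
theorem exists_slice_far (hY : RankOneDE Y) (f : Y →L[ℝ] ℝ) (hf : f ≠ 0) (x : Y) (hx : x ≠ 0)
    {η : ℝ} (hη : 0 < η) :
    ∃ y : Y, ‖y‖ ≤ 1 ∧ ‖f‖ - η < f y ∧ 1 + ‖x‖ - η < ‖y + x‖ := by
  have hfn : 0 < ‖f‖ := norm_pos_iff.mpr hf
  have hxn : 0 < ‖x‖ := norm_pos_iff.mpr hx
  set f1 : Y →L[ℝ] ℝ := (‖f‖⁻¹) • f with hf1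
  have hf1n : ‖f1‖ = 1 := by
    rw [hf1, norm_smul, norm_inv, norm_norm, inv_mul_cancel₀ hfn.ne']
  have hnorm : ‖ContinuousLinearMap.id ℝ Y + f1.smulRight x‖ = 1 + ‖x‖ := by
    rw [hY f1 x, ContinuousLinearMap.norm_smulRight_apply, hf1n, one_mul]
  -- choose η'
  set η' : ℝ := min (η / 2) (‖x‖ * (η / (2 * ‖f‖))) with hη'
  have hη'pos : 0 < η' := by
    rw [hη']; exact lt_min (by positivity) (by positivity)
  have hlt : 1 + ‖x‖ - η' < ‖ContinuousLinearMap.id ℝ Y + f1.smulRight x‖ := by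
    rw [hnorm]; linarith
  obtain ⟨y, hy1, hy2⟩ := ContinuousLinearMap.exists_lt_apply_of_lt_opNorm _ hlt
  -- sign change
  obtain ⟨z, hz1, hz2, hz3⟩ : ∃ z : Y, ‖z‖ ≤ 1 ∧ 0 ≤ f1 z ∧ 1 + ‖x‖ - η' < ‖z + f1 z • x‖ := by
    have hval : (ContinuousLinearMap.id ℝ Y + f1.smulRight x) y = y + f1 y • x := by simp
    rw [hval] at hy2
    rcases le_total 0 (f1 y) with h | h
    · exact ⟨y, hy1.le, h, hy2⟩
    · refine ⟨-y, by rw [norm_neg]; exact hy1.le, by rw [map_neg]; linarith, ?_⟩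
      have : -y + f1 (-y) • x = -(y + f1 y • x) := by
        rw [map_neg]; module
      rw [this, norm_neg]; exact hy2
  have hf1z : f1 z ≤ 1 := by
    have := f1.le_opNorm z
    rw [hf1n, one_mul] at this
    exact (le_abs_self _).trans (this.trans hz1)
  have hA : ‖z + f1 z • x‖ ≤ 1 + f1 z * ‖x‖ := by
    calc ‖z + f1 z • x‖ ≤ ‖z‖ + ‖f1 z • x‖ := norm_add_le _ _
      _ = ‖z‖ + f1 z * ‖x‖ := by rw [norm_smul, Real.norm_of_nonneg hz2]
      _ ≤ 1 + f1 z * ‖x‖ := by linarith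
  have hB : (1 - f1 z) * ‖x‖ < η' := by nlinarith
  refine ⟨z, hz1, ?_, ?_⟩
  · -- f z = ‖f‖ * f1 z
    have hfz : f z = ‖f‖ * f1 z := by
      rw [hf1]; simp [mul_inv_cancel_left₀ hfn.ne']
    have h1 : (1 - f1 z) * ‖x‖ < ‖x‖ * (η / (2 * ‖f‖)) := lt_of_lt_of_le hB (min_le_right _ _)
    have h2 : (1 - f1 z) < η / (2 * ‖f‖) := by
      rw [mul_comm] at h1
      exact lt_of_mul_lt_mul_left h1 hxn.le
    have h3 : ‖f‖ * (1 - f1 z) < η / 2 := by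
      have := mul_lt_mul_of_pos_left h2 hfn
      have e : ‖f‖ * (η / (2 * ‖f‖)) = η / 2 := by field_simp
      rw [e] at this; exact this
    rw [hfz]; nlinarith
  · have h1 : ‖z + f1 z • x‖ ≤ ‖z + x‖ + (1 - f1 z) * ‖x‖ := by
      have e : z + f1 z • x = (z + x) - (1 - f1 z) • x := by module
      rw [e]
      calc ‖(z + x) - (1 - f1 z) • x‖ ≤ ‖z + x‖ + ‖(1 - f1 z) • x‖ := norm_sub_le _ _
        _ = ‖z + x‖ + (1 - f1 z) * ‖x‖ := by
            rw [norm_smul, Real.norm_of_nonneg (by linarith)]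
    have h2 : η' ≤ η / 2 := min_le_left _ _
    linarith

/-- The Daugavet equation for operators factoring through an inner product space. -/
theorem factor_DE (hY : RankOneDE Y) {H : Type} [NormedAddCommGroup H] [InnerProductSpace ℝ H]
    (R : Y →L[ℝ] H) (V : H →L[ℝ] Y) (hT : 0 < ‖V.comp R‖) :
    1 + ‖V.comp R‖ ≤ ‖ContinuousLinearMap.id ℝ Y + V.comp R‖ := by
  set T : Y →L[ℝ] Y := V.comp R with hTdef
  have hTval : ∀ y, T y = V (R y) := fun y => rfl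
  -- it suffices to prove up to ε
  refine le_of_forall_pos_lt_add ?_
  intro ε hε
  -- constants
  set M : ℝ := ‖R‖ ^ 2 + 1 with hM
  have hMpos : 0 < M := by positivity
  set ε1 : ℝ := min (ε / 8) (‖T‖ / 4) with hε1
  have hε1pos : 0 < ε1 := lt_min (by positivity) (by positivity)
  set δ : ℝ := ε1 / M with hδ
  have hδpos : 0 < δ := by positivity
  -- choose φ norming T
  have hlt : ‖T‖ - ε1 < ‖T‖ := by linarith
  obtain ⟨y0, hy0, hy0'⟩ := ContinuousLinearMap.exists_lt_apply_of_lt_opNorm T hlt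
  have hTy0 : T y0 ≠ 0 := by
    intro h0
    rw [h0, norm_zero] at hy0'
    have : ε1 ≤ ‖T‖ / 4 := min_le_right _ _
    linarith
  obtain ⟨φ, hφ1, hφ2⟩ := exists_dual_vector ℝ (T y0) (norm_ne_zero_iff.mpr hTy0)
  -- the quadratic functional on the ball
  set q : Y → ℝ := fun y => φ (T y) + δ * ‖R y‖ ^ 2 with hq
  have hqbdd : ∀ y, ‖y‖ ≤ 1 → q y ≤ ‖T‖ + δ * M := by
    intro y hy
    have h1 : φ (T y) ≤ ‖T‖ := by
      have a1 : φ (T y) ≤ ‖φ‖ * ‖T y‖ := (le_abs_self _).trans (φ.le_opNorm _)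
      have a2 : ‖T y‖ ≤ ‖T‖ * 1 := (T.le_opNorm y).trans (by gcongr)
      rw [hφ1, one_mul] at a1
      linarith
    have h2 : ‖R y‖ ^ 2 ≤ M := by
      have a1 : ‖R y‖ ≤ ‖R‖ := by
        calc ‖R y‖ ≤ ‖R‖ * ‖y‖ := R.le_opNorm y
          _ ≤ ‖R‖ * 1 := by gcongr
          _ = ‖R‖ := mul_one _
      have a2 : ‖R y‖ ^ 2 ≤ ‖R‖ ^ 2 := by gcongr
      rw [hM]; linarith
    have h3 : δ * ‖R y‖ ^ 2 ≤ δ * M := by gcongr
    show φ (T y) + δ * ‖R y‖ ^ 2 ≤ _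
    linarith
  -- sup
  set B : Set ℝ := q '' {y | ‖y‖ ≤ 1} with hB
  have hBne : B.Nonempty := ⟨q 0, 0, by simp, rfl⟩
  have hBbdd : BddAbove B := by
    refine ⟨‖T‖ + δ * M, ?_⟩
    rintro _ ⟨y, hy, rfl⟩
    exact hqbdd y hy
  -- parameter η
  obtain ⟨η, hηpos, hη1, hη2⟩ : ∃ η : ℝ, 0 < η ∧ η ≤ ε1 ∧ ‖V‖ * Real.sqrt (2 * η / δ) ≤ ε / 4 := by
    set r : ℝ := ε / (4 * (‖V‖ + 1)) with hr
    have hrpos : 0 < r := by positivity
    refine ⟨min ε1 (δ * r ^ 2 / 2), lt_min hε1pos (by positivity), min_le_left _ _, ?_⟩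
    have h1 : 2 * min ε1 (δ * r ^ 2 / 2) / δ ≤ r ^ 2 := by
      have : min ε1 (δ * r ^ 2 / 2) ≤ δ * r ^ 2 / 2 := min_le_right _ _
      rw [div_le_iff₀ hδpos]; nlinarith
    have h2 : Real.sqrt (2 * min ε1 (δ * r ^ 2 / 2) / δ) ≤ r := by
      calc Real.sqrt (2 * min ε1 (δ * r ^ 2 / 2) / δ) ≤ Real.sqrt (r ^ 2) := Real.sqrt_le_sqrt h1
        _ = r := Real.sqrt_sq hrpos.le
    calc ‖V‖ * Real.sqrt (2 * min ε1 (δ * r ^ 2 / 2) / δ) ≤ (‖V‖ + 1) * r := by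
          gcongr
          linarith
      _ = ε / 4 := by rw [hr]; field_simp
  -- almost maximiser
  obtain ⟨_, ⟨y1, hy1, rfl⟩, hy1'⟩ := exists_lt_of_lt_csSup hBne (show sSup B - η < sSup B by linarith)
  have hmax : ∀ y, ‖y‖ ≤ 1 → q y < q y1 + η := by
    intro y hy
    have : q y ≤ sSup B := le_csSup hBbdd ⟨y, hy, rfl⟩
    linarith
  set v : H := R y1 with hv
  -- the exposing functional
  set g : Y →L[ℝ] ℝ := φ.comp T + (2 * δ) • ((innerSL ℝ v).comp R) with hg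
  have hgval : ∀ y, g y = φ (T y) + 2 * δ * inner ℝ v (R y) := by
    intro y; simp [hg]
  have hexp : ∀ y, ‖y‖ ≤ 1 → δ * ‖R y - v‖ ^ 2 < g y1 - g y + η := by
    intro y hy
    have h1 := hmax y hy
    have h2 : ‖R y‖ ^ 2 = ‖v‖ ^ 2 + 2 * inner ℝ v (R y - v) + ‖R y - v‖ ^ 2 := by
      have : R y = v + (R y - v) := by abel
      conv_lhs => rw [this]
      rw [norm_add_sq_real]
    have h3 : inner ℝ v (R y - v) = inner ℝ v (R y) - inner ℝ v v := by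
      rw [inner_sub_right]
    have h4 : g y1 = φ (T y1) + 2 * δ * inner ℝ v v := by rw [hgval]
    rw [h4, hgval y]
    have h5 : q y = φ (T y) + δ * ‖R y‖ ^ 2 := rfl
    have h6 : q y1 = φ (T y1) + δ * ‖v‖ ^ 2 := rfl
    rw [h5, h6, h2, h3] at h1
    nlinarith
  -- lower bound for V v
  have hVv : ‖T‖ - 2 * ε1 - η ≤ ‖V v‖ := by
    have h1 := hmax y0 hy0.le
    have h2 : φ (T y0) = ‖T y0‖ := by simpa using hφ2
    have h3 : q y0 = φ (T y0) + δ * ‖R y0‖ ^ 2 := rfl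
    have h4 : 0 ≤ δ * ‖R y0‖ ^ 2 := by positivity
    have h5 : q y1 ≤ φ (T y1) + δ * M := by
      have a1 : ‖R y1‖ ≤ ‖R‖ := by
        calc ‖R y1‖ ≤ ‖R‖ * ‖y1‖ := R.le_opNorm y1
          _ ≤ ‖R‖ * 1 := by gcongr; exact hy1
          _ = ‖R‖ := mul_one _
      have a2 : ‖R y1‖ ^ 2 ≤ ‖R‖ ^ 2 := by gcongr
      have a3 : ‖R y1‖ ^ 2 ≤ M := by rw [hM]; linarith
      have a4 : δ * ‖R y1‖ ^ 2 ≤ δ * M := by gcongr
      show φ (T y1) + δ * ‖R y1‖ ^ 2 ≤ _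
      linarith
    have h6 : δ * M = ε1 := by rw [hδ]; field_simp
    have h7 : φ (T y1) ≤ ‖V v‖ := by
      have a1 : φ (T y1) ≤ ‖φ‖ * ‖T y1‖ := (le_abs_self _).trans (φ.le_opNorm _)
      rw [hφ1, one_mul] at a1
      exact a1
    linarith
  have hVvne : V v ≠ 0 := by
    intro h0
    rw [h0, norm_zero] at hVv
    have : ε1 ≤ ‖T‖ / 4 := min_le_right _ _
    linarith
  -- g ≠ 0
  have hg0 : g ≠ 0 := by
    intro h0
    have h1 := hexp 0 (by simp)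
    have h2 : g y1 = 0 := by rw [h0]; simp
    have h3 : g 0 = 0 := by simp
    rw [h2, h3] at h1
    rw [map_zero, zero_sub, norm_neg] at h1
    -- then ‖v‖^2 < η/δ, so ‖V v‖ ≤ ε/4 small; but we need contradiction with hVv in another way
    -- use g (y0) : φ (T y0) + 2 δ ⟨v, R y0⟩ = 0
    have h4 : g y0 = 0 := by rw [h0]; simp
    rw [hgval] at h4
    have h5 : φ (T y0) = ‖T y0‖ := by simpa using hφ2
    have h6 : |inner ℝ v (R y0)| ≤ ‖R‖ ^ 2 := by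
      have a1 := abs_real_inner_le_norm v (R y0)
      have a2 : ‖v‖ ≤ ‖R‖ := by
        calc ‖R y1‖ ≤ ‖R‖ * ‖y1‖ := R.le_opNorm y1
          _ ≤ ‖R‖ * 1 := by gcongr; exact hy1
          _ = ‖R‖ := mul_one _
      have a3 : ‖R y0‖ ≤ ‖R‖ := by
        calc ‖R y0‖ ≤ ‖R‖ * ‖y0‖ := R.le_opNorm y0
          _ ≤ ‖R‖ * 1 := by gcongr
          _ = ‖R‖ := mul_one _
      calc |inner ℝ v (R y0)| ≤ ‖v‖ * ‖R y0‖ := a1
        _ ≤ ‖R‖ * ‖R‖ := by gcongr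
        _ = ‖R‖ ^ 2 := by ring
    have h7 : 2 * δ * |inner ℝ v (R y0)| ≤ 2 * ε1 := by
      have a1 : |inner ℝ v (R y0)| ≤ M := by rw [hM]; linarith
      have a2 : δ * |inner ℝ v (R y0)| ≤ δ * M := by gcongr
      have h6 : δ * M = ε1 := by rw [hδ]; field_simp
      linarith
    have h8 : -(2 * δ * |inner ℝ v (R y0)|) ≤ 2 * δ * inner ℝ v (R y0) := by
      have := neg_abs_le (inner ℝ v (R y0))
      nlinarith
    have : ε1 ≤ ‖T‖ / 4 := min_le_right _ _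
    linarith
  -- the far point
  obtain ⟨y, hy, hyg, hyx⟩ := exists_slice_far hY g hg0 (V v) hVvne hηpos
  have hgy1 : g y1 ≤ ‖g‖ := by
    calc g y1 ≤ ‖g‖ * ‖y1‖ := (le_abs_self _).trans (g.le_opNorm _)
      _ ≤ ‖g‖ * 1 := by gcongr; exact hy1
      _ = ‖g‖ := mul_one _
  have hclose : ‖R y - v‖ ≤ Real.sqrt (2 * η / δ) := by
    have h1 := hexp y hy
    apply Real.le_sqrt_of_sq_le
    rw [le_div_iff₀ hδpos]
    nlinarith
  have hTy : ‖T y - V v‖ ≤ ε / 4 := by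
    calc ‖T y - V v‖ = ‖V (R y - v)‖ := by rw [hTval, map_sub]
      _ ≤ ‖V‖ * ‖R y - v‖ := V.le_opNorm _
      _ ≤ ‖V‖ * Real.sqrt (2 * η / δ) := by gcongr
      _ ≤ ε / 4 := hη2
  have hfin : ‖y + T y‖ ≤ ‖ContinuousLinearMap.id ℝ Y + T‖ := by
    calc ‖y + T y‖ = ‖(ContinuousLinearMap.id ℝ Y + T) y‖ := by simp
      _ ≤ ‖ContinuousLinearMap.id ℝ Y + T‖ * ‖y‖ := ContinuousLinearMap.le_opNorm _ _
      _ ≤ ‖ContinuousLinearMap.id ℝ Y + T‖ * 1 := by gcongr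
      _ = _ := mul_one _
  have h1 : ‖y + V v‖ ≤ ‖y + T y‖ + ‖T y - V v‖ := by
    have e : y + V v = (y + T y) - (T y - V v) := by abel
    rw [e]; exact norm_sub_le _ _
  have h2 : ε1 ≤ ε / 8 := min_le_left _ _
  linarith

end Pool.Agent.Y22.SCD
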