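import Mathlib

set_option autoImplicit false

/-! Combinatorics of bounded-variation functionals on the dyadic tree.  Nodes are lists of
booleans, the newest bit first. -/

namespace Pool.Agent.Y22.SCD

/-- sign of a bit -/
def sg (b : Bool) : ℝ := if b then 1 else -1

/-- the martingale with increments `± k` -/
def xv (k : List Bool → ℝ) : List Bool → ℝ
  | [] => 0
  | b :: s => xv k s + sg b * k s

/-- the variation -/
def wv (k : List Bool → ℝ) : List Bool → ℝ
  | [] => 0
  | _ :: s => wv k s + |k s|

theorem abs_sg (b : Bool) : |sg b| = 1 := by cases b <;> simp [sg]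

theorem sg_mul_self (b : Bool) : sg b * sg b = 1 := by cases b <;> simp [sg]

theorem wv_nonneg (k : List Bool → ℝ) : ∀ s, 0 ≤ wv k s
  | [] => le_refl _
  | _ :: s => add_nonneg (wv_nonneg k s) (abs_nonneg _)

theorem abs_xv_le (k : List Bool → ℝ) : ∀ s, |xv k s| ≤ wv k s
  | [] => by simp [xv, wv]
  | b :: s => by
      have h := abs_xv_le k s
      calc |xv k s + sg b * k s| ≤ |xv k s| + |sg b * k s| := abs_add_le _ _
        _ = |xv k s| + |k s| := by rw [abs_mul, abs_sg, one_mul]
        _ ≤ wv k s + |k s| := by linarith

/-- `xv` and `wv` at `s` depend only on values at nodes shorter than `s`. -/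
theorem xv_congr {k k' : List Bool → ℝ} : ∀ s : List Bool,
    (∀ u : List Bool, u.length < s.length → k u = k' u) → xv k s = xv k' s
  | [], _ => rfl
  | b :: s, h => by
      have h1 : xv k s = xv k' s := xv_congr s (fun u hu => h u (by simp; omega))
      have h2 : k s = k' s := h s (by simp)
      show xv k s + sg b * k s = xv k' s + sg b * k' s
      rw [h1, h2]

theorem wv_congr {k k' : List Bool → ℝ} : ∀ s : List Bool,
    (∀ u : List Bool, u.length < s.length → k u = k' u) → wv k s = wv k' s
  | [], _ => rfl
  | b :: s, h => by
      have h1 : wv k s = wv k' s := wv_congr s (fun u hu => h u (by simp; omega))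
      have h2 : k s = k' s := h s (by simp)
      show wv k s + |k s| = wv k' s + |k' s|
      rw [h1, h2]

theorem xv_sub (k k' : List Bool → ℝ) : ∀ s, xv (fun u => k u - k' u) s = xv k s - xv k' s
  | [] => by simp [xv]
  | b :: s => by
      show xv (fun u => k u - k' u) s + sg b * (k s - k' s) = _
      rw [xv_sub k k' s]
      show _ = (xv k s + sg b * k s) - (xv k' s + sg b * k' s)
      ring

theorem wv_sub_le (k k' : List Bool → ℝ) : ∀ s, wv (fun u => k u - k' u) s ≤ wv k s + wv k' s
  | [] => by simp [wv]
  | b :: s => by
      show wv (fun u => k u - k' u) s + |k s - k' s| ≤ (wv k s + |k s|) + (wv k' s + |k' s|)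
      have h1 := wv_sub_le k k' s
      have h2 : |k s - k' s| ≤ |k s| + |k' s| := abs_sub _ _
      linarith

/-- the bump towards the node `t`, living on levels `m ≤ · < t.length` -/
noncomputable def bump (m : ℕ) (t : List Bool) (u : List Bool) : ℝ :=
  if m ≤ u.length then
    (if (true :: u) <:+ t then ((t.length : ℝ) - m)⁻¹
      else if (false :: u) <:+ t then -((t.length : ℝ) - m)⁻¹ else 0)
  else 0

theorem bump_of_lt {m : ℕ} {t u : List Bool} (h : u.length < m) : bump m t u = 0 := by
  unfold bump; rw [if_neg (by omega)]

theorem bump_of_ge {m : ℕ} {t u : List Bool} (h : t.length ≤ u.length) : bump m t u = 0 := by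
  unfold bump
  have h1 : ¬ ((true :: u) <:+ t) := by
    intro hc
    have := hc.length_le
    simp at this; omega
  have h2 : ¬ ((false :: u) <:+ t) := by
    intro hc
    have := hc.length_le
    simp at this; omega
  rw [if_neg h1, if_neg h2]; simp

/-- two suffixes of the same list with the same length agree -/
theorem suffix_eq {a b t : List Bool} (ha : a <:+ t) (hb : b <:+ t) (h : a.length = b.length) :
    a = b :=
  (List.suffix_of_suffix_length_le ha hb h.le).eq_of_length h

/-- bump value along `t` -/
theorem bump_suffix {m : ℕ} {t u : List Bool} {b : Bool} (hm : m ≤ u.length) (h : (b :: u) <:+ t) :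
    bump m t u = sg b * ((t.length : ℝ) - m)⁻¹ := by
  unfold bump
  rw [if_pos hm]
  cases b with
  | true => rw [if_pos h]; simp [sg]
  | false =>
      have h1 : ¬ ((true :: u) <:+ t) := by
        intro hc
        have := suffix_eq h hc (by simp)
        simp at this
      rw [if_neg h1, if_pos h]; simp [sg]

theorem bump_not_suffix {m : ℕ} {t u : List Bool} (h : ∀ b : Bool, ¬ ((b :: u) <:+ t)) :
    bump m t u = 0 := by
  unfold bump
  rw [if_neg (h true), if_neg (h false)]; simp

/-- a proper suffix extends -/
theorem exists_cons_suffix {t u : List Bool} (h : u <:+ t) (hl : u.length < t.length) :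
    ∃ b : Bool, (b :: u) <:+ t := by
  obtain ⟨l, rfl⟩ := h
  have hne : l ≠ [] := by
    rintro rfl; simp at hl
  refine ⟨l.getLast hne, l.dropLast, ?_⟩
  have := List.dropLast_append_getLast hne
  calc l.dropLast ++ l.getLast hne :: u = (l.dropLast ++ [l.getLast hne]) ++ u := by simp
    _ = l ++ u := by rw [this]

/-- closed form on `t` -/
theorem xv_bump_suffix {m : ℕ} {t : List Bool} : ∀ s : List Bool, s <:+ t → m ≤ s.length →
    xv (bump m t) s = ((s.length : ℝ) - m) * ((t.length : ℝ) - m)⁻¹ ∧
    wv (bump m t) s = ((s.length : ℝ) - m) * ((t.length : ℝ) - m)⁻¹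
  | [], _, hm => by
      have : m = 0 := by simpa using hm
      subst this; simp [xv, wv]
  | b :: s, hs, hm => by
      rcases Nat.lt_or_ge s.length m with hlt | hge
      · have h1 : (b :: s).length = m := by simp at hm ⊢; omega
        have h2 : xv (bump m t) (b :: s) = xv (fun _ => 0) (b :: s) :=
          xv_congr _ (fun u hu => by rw [bump_of_lt (by omega)])
        have h3 : wv (bump m t) (b :: s) = wv (fun _ => 0) (b :: s) :=
          wv_congr _ (fun u hu => by rw [bump_of_lt (by omega)])
        have h4 : ∀ s : List Bool, xv (fun _ => (0:ℝ)) s = 0 := by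
          intro s; induction s with
          | nil => rfl
          | cons a s ih => show xv _ s + sg a * 0 = 0; rw [ih]; ring
        have h5 : ∀ s : List Bool, wv (fun _ => (0:ℝ)) s = 0 := by
          intro s; induction s with
          | nil => rfl
          | cons a s ih => show wv _ s + |(0:ℝ)| = 0; rw [ih]; simp
        rw [h2, h3, h4, h5, h1]; simp
      · have hs' : s <:+ t := (List.suffix_cons b s).trans hs
        obtain ⟨i1, i2⟩ := xv_bump_suffix s hs' hge
        have hb := bump_suffix (m := m) hge hs
        have hlen : s.length < t.length := by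
          have := hs.length_le; simp at this; omega
        have hpos : (0:ℝ) < ((t.length : ℝ) - m)⁻¹ := by
          have : (m:ℝ) < t.length := by
            have : m < t.length := by omega
            exact_mod_cast this
          exact inv_pos.mpr (by linarith)
        constructor
        · show xv (bump m t) s + sg b * bump m t s = _
          rw [i1, hb, ← mul_assoc, sg_mul_self]
          push_cast [List.length_cons]; ring
        · show wv (bump m t) s + |bump m t s| = _
          rw [i2, hb, abs_mul, abs_sg, abs_of_pos hpos]
          push_cast [List.length_cons]; ring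

/-- variation of the bump against its value -/
theorem bump_main {m : ℕ} {t : List Bool} (hmt : m < t.length) : ∀ s : List Bool,
    (wv (bump m t) s ≤ xv (bump m t) s + 2 * ((t.length : ℝ) - m)⁻¹) ∧
    (xv (bump m t) s ≤ 1)
  | [] => by
      have hpos : (0:ℝ) < ((t.length : ℝ) - m)⁻¹ := by
        have : (m:ℝ) < t.length := by exact_mod_cast hmt
        exact inv_pos.mpr (by linarith)
      constructor
      · simp only [xv, wv]; linarith
      · simp [xv]
  | b :: s => by
      have hK : (0:ℝ) < (t.length : ℝ) - m := by
        have : (m:ℝ) < t.length := by exact_mod_cast hmt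
        linarith
      have hpos : (0:ℝ) < ((t.length : ℝ) - m)⁻¹ := inv_pos.mpr hK
      obtain ⟨i1, i2⟩ := bump_main hmt s
      by_cases hcase : m ≤ s.length ∧ s <:+ t ∧ s.length < t.length
      · obtain ⟨hm, hst, hlt⟩ := hcase
        obtain ⟨b', hb'⟩ := exists_cons_suffix hst hlt
        obtain ⟨j1, j2⟩ := xv_bump_suffix (m := m) s hst hm
        have hv := bump_suffix (m := m) hm hb'
        have hx : xv (bump m t) (b :: s) = xv (bump m t) s + (sg b * sg b') * ((t.length : ℝ) - m)⁻¹ := by
          show xv (bump m t) s + sg b * bump m t s = _
          rw [hv]; ring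
        have hw : wv (bump m t) (b :: s) = wv (bump m t) s + ((t.length : ℝ) - m)⁻¹ := by
          show wv (bump m t) s + |bump m t s| = _
          rw [hv, abs_mul, abs_sg, abs_of_pos hpos, one_mul]
        have hss : -1 ≤ sg b * sg b' ∧ sg b * sg b' ≤ 1 := by
          cases b <;> cases b' <;> simp [sg]
        constructor
        · rw [hx, hw, j1, j2]; nlinarith [hss.1, hss.2]
        · rw [hx, j1]
          have h1 : ((s.length : ℝ) - m) + 1 ≤ (t.length : ℝ) - m := by
            have : (s.length : ℝ) + 1 ≤ t.length := by exact_mod_cast hlt
            linarith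
          have h2 : (((s.length : ℝ) - m) + 1) * ((t.length : ℝ) - m)⁻¹ ≤ 1 := by
            rw [← div_eq_mul_inv, div_le_one hK]; exact h1
          nlinarith [hss.1, hss.2]
      · have hz : bump m t s = 0 := by
          rcases Nat.lt_or_ge s.length m with h | h
          · exact bump_of_lt h
          · rcases Nat.lt_or_ge s.length t.length with h' | h'
            · apply bump_not_suffix
              intro b' hb'
              exact hcase ⟨h, (List.suffix_cons b' s).trans hb', h'⟩
            · exact bump_of_ge h'
        have hx : xv (bump m t) (b :: s) = xv (bump m t) s := by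
          show xv (bump m t) s + sg b * bump m t s = _
          rw [hz]; ring
        have hw : wv (bump m t) (b :: s) = wv (bump m t) s := by
          show wv (bump m t) s + |bump m t s| = _
          rw [hz]; simp
        rw [hx, hw]; exact ⟨i1, i2⟩

/-- if the bump is felt at `s`, then `s` passes through the level-`m` ancestor of `t` -/
theorem bump_support {m : ℕ} {t : List Bool} (hmt : m ≤ t.length) : ∀ s : List Bool,
    xv (bump m t) s ≠ 0 → t.drop (t.length - m) <:+ s
  | [] => by intro h; exact absurd rfl h
  | b :: s => by
      intro h
      by_cases hx : xv (bump m t) s = 0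
      · have hb : bump m t s ≠ 0 := by
          intro h0
          apply h
          show xv (bump m t) s + sg b * bump m t s = 0
          rw [hx, h0]; ring
        -- so `m ≤ s.length` and s suffix of t
        have h1 : m ≤ s.length := by
          by_contra hc
          exact hb (bump_of_lt (by omega))
        have h2 : ∃ b' : Bool, (b' :: s) <:+ t := by
          by_contra hc
          push Not at hc
          exact hb (bump_not_suffix hc)
        obtain ⟨b', hb'⟩ := h2
        have h3 : s <:+ t := (List.suffix_cons b' s).trans hb'
        have h4 : t.drop (t.length - m) <:+ t := List.drop_suffix _ _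
        have h5 : (t.drop (t.length - m)).length ≤ s.length := by
          rw [List.length_drop]; omega
        exact (List.suffix_of_suffix_length_le h4 h3 h5).trans (List.suffix_cons b s)
      · exact (bump_support hmt s hx).trans (List.suffix_cons b s)

/-- a function vanishing on long nodes: the martingale is frozen -/
theorem xv_frozen {k : List Bool → ℝ} {m : ℕ} (hk : ∀ u : List Bool, m ≤ u.length → k u = 0)
    {u : List Bool} (hu : m ≤ u.length) : ∀ s : List Bool, u <:+ s → xv k s = xv k u
  | [], h => by
      have : u = [] := by simpa using h
      rw [this]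
  | b :: s, h => by
      rcases List.suffix_cons_iff.mp h with h | h
      · rw [h]
      · have h1 := xv_frozen hk hu s h
        have h2 : k s = 0 := hk s (hu.trans h.length_le)
        show xv k s + sg b * k s = _
        rw [h1, h2]; ring

end Pool.Agent.Y22.SCD
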